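import Pool.Agent.CatW.Defs

/-!
Module CellsB: few leaves are lost.

Proof. A leaf `a` not in the set has `τ a = g` (at most `m`), or `κ a = h` (at most `m`), or there
is `A ∈ D` and `b ∈ A` with `τ a = τ b` or `κ a = κ b`. For a fixed `A ∈ D` all `b ∈ A` have the same
`τ b < g` and `κ b < h` (`A` has two elements), so at most `2 m + 2 m` leaves. Together at most
`2 m + 4 m (r - 1) ≤ 4 r m`.
-/

set_option autoImplicit false

namespace Pool.Agent.CatW

open Finset Pool.Agent.Hhelper51.Cat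

variable {n : ℕ}

private lemma one_pair {m g h : ℕ} {τ κ : Fin n → ℕ} (hτ : Sizes m g τ) (hκ : Sizes m h κ)
    {D : Finset (Finset (Fin n))} (hD : Good g h τ κ D) {A : Finset (Fin n)} (hA : A ∈ D) :
    (univ.filter (fun a : Fin n => ∃ b ∈ A, τ a = τ b ∨ κ a = κ b)).card ≤ 4 * m := by
  obtain ⟨b0, hb0⟩ : A.Nonempty := card_pos.1 (by rw [hD.two A hA]; norm_num)
  have h1 := hD.lt A hA b0 hb0
  have hsub : univ.filter (fun a : Fin n => ∃ b ∈ A, τ a = τ b ∨ κ a = κ b) ⊆
      univ.filter (fun a => τ a = τ b0) ∪ univ.filter (fun a => κ a = κ b0) := by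
    intro a ha
    simp only [mem_filter, mem_univ, true_and, mem_union] at ha ⊢
    obtain ⟨b, hb, h2⟩ := ha
    have h3 := hD.same A hA b hb b0 hb0
    rcases h2 with h2 | h2
    · exact Or.inl (h2.trans h3.1)
    · exact Or.inr (h2.trans h3.2)
  have h4 := (card_le_card hsub).trans (card_union_le _ _)
  have h5 := hτ.small (τ b0) h1.1
  have h6 := hκ.small (κ b0) h1.2
  omega

theorem rest_card {m g h r : ℕ} {τ κ : Fin n → ℕ} (hτ : Sizes m g τ) (hκ : Sizes m h κ)
    (hr : 1 ≤ r) (D : Finset (Finset (Fin n))) (hD : Good g h τ κ D) (hc : D.card < r) :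
    n ≤ (univ.filter (fun a : Fin n => (τ a < g ∧ κ a < h) ∧
      ∀ A ∈ D, ∀ b ∈ A, τ a ≠ τ b ∧ κ a ≠ κ b)).card + 4 * r * m := by
  have hcov : (univ : Finset (Fin n)) ⊆
      (univ.filter (fun a : Fin n => (τ a < g ∧ κ a < h) ∧
        ∀ A ∈ D, ∀ b ∈ A, τ a ≠ τ b ∧ κ a ≠ κ b)) ∪
      ((univ.filter (fun a : Fin n => τ a = g) ∪ univ.filter (fun a : Fin n => κ a = h)) ∪
        D.biUnion fun A => univ.filter (fun a : Fin n => ∃ b ∈ A, τ a = τ b ∨ κ a = κ b)) := by
    intro a _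
    rw [mem_union]
    by_cases ha : (τ a < g ∧ κ a < h) ∧ ∀ A ∈ D, ∀ b ∈ A, τ a ≠ τ b ∧ κ a ≠ κ b
    · exact Or.inl (mem_filter.2 ⟨mem_univ _, ha⟩)
    right
    rw [mem_union, mem_union, mem_filter, mem_filter, mem_biUnion]
    by_cases h1 : τ a = g
    · exact Or.inl (Or.inl ⟨mem_univ _, h1⟩)
    by_cases h2 : κ a = h
    · exact Or.inl (Or.inr ⟨mem_univ _, h2⟩)
    right
    by_contra hcon
    push Not at hcon
    apply ha
    refine ⟨⟨lt_of_le_of_ne (hτ.le a) h1, lt_of_le_of_ne (hκ.le a) h2⟩, ?_⟩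
    intro A hA b hb
    constructor
    · intro h3
      exact hcon A hA (mem_filter.2 ⟨mem_univ _, b, hb, Or.inl h3⟩)
    · intro h3
      exact hcon A hA (mem_filter.2 ⟨mem_univ _, b, hb, Or.inr h3⟩)
  have h1 := (card_le_card hcov).trans (card_union_le _ _)
  have h2 := card_union_le
    (univ.filter (fun a : Fin n => τ a = g) ∪ univ.filter (fun a : Fin n => κ a = h))
    (D.biUnion fun A => univ.filter (fun a : Fin n => ∃ b ∈ A, τ a = τ b ∨ κ a = κ b))
  have h3 := card_union_le (univ.filter (fun a : Fin n => τ a = g))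
    (univ.filter (fun a : Fin n => κ a = h))
  have h4 : (D.biUnion fun A => univ.filter
      (fun a : Fin n => ∃ b ∈ A, τ a = τ b ∨ κ a = κ b)).card ≤ D.card * (4 * m) :=
    card_biUnion_le_card_mul _ _ _ fun A hA => one_pair hτ hκ hD hA
  have h5 := hτ.rest
  have h6 := hκ.rest
  rw [card_univ, Fintype.card_fin] at h1
  have h7 : D.card * (4 * m) + 4 * m ≤ 4 * r * m := by
    obtain ⟨e, rfl⟩ : ∃ e, r = D.card + 1 + e := ⟨r - (D.card + 1), by omega⟩
    nlinarith [Nat.zero_le (e * m)]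
  omega

end Pool.Agent.CatW
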