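import Pool.Agent.CatW.CellsA
import Pool.Agent.CatW.CellsB

/-!
Module Cells: after `t < r` pairs have been chosen there are `n ^ 2 / (1296 r ^ 2)` more.

Proof. Let `X` be the set in `rest_card` and `p` the number of 2-subsets of `X` inside one cell
(`cell_pairs`). Each such pair `A` is not in `D` (an element `a ∈ A ∈ D` would have
`τ a ≠ τ a`) and `insert A D` is good, so `p` is at most the cardinality on the right (injection:
the identity). `8 r m ≤ n`, so `X.card ≥ n - 4 r m ≥ n / 2`; `m ≥ n / (8 r) - 1 + 1 / (8 r)`, so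
`9 r m ≥ n` (as `n ≥ 324 r ^ 2 ≥ 72 r`), and `g m ≤ n ≤ 9 r m` gives `g ≤ 9 r`, `h ≤ 9 r`. With
`x = X.card`: `x ^ 2 ≤ 81 r ^ 2 (2 p + x)`, so
`2 p ≥ x (x / (81 r ^ 2) - 1) ≥ (n / 2) (n / (162 r ^ 2) - 1) ≥ (n / 2) (n / (324 r ^ 2))`.
-/

set_option autoImplicit false

namespace Pool.Agent.CatW

open Finset Pool.Agent.Hhelper51.Cat

variable {n : ℕ}

open Classical in
theorem ext_count {m g h r : ℕ} {τ κ : Fin n → ℕ} (hτ : Sizes m g τ) (hκ : Sizes m h κ)
    (hr : 1 ≤ r) (hn : 324 * r ^ 2 ≤ n) (hm : m = n / (8 * r))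
    (D : Finset (Finset (Fin n))) (hD : Good g h τ κ D) (hc : D.card < r) :
    (n : ℝ) ^ 2 / (1296 * (r : ℝ) ^ 2) ≤ ((univ.filter (fun A : Finset (Fin n) =>
      A ∉ D ∧ Good g h τ κ (insert A D))).card : ℝ) := by
  have hX := rest_card hτ hκ hr D hD hc
  set X : Finset (Fin n) := univ.filter (fun a : Fin n => (τ a < g ∧ κ a < h) ∧
    ∀ A ∈ D, ∀ b ∈ A, τ a ≠ τ b ∧ κ a ≠ κ b) with hXd
  have hmX : ∀ a, a ∈ X ↔ (τ a < g ∧ κ a < h) ∧ ∀ A ∈ D, ∀ b ∈ A, τ a ≠ τ b ∧ κ a ≠ κ b := by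
    intro a
    simp [hXd]
  have hcp := cell_pairs X g h τ κ (fun a ha => ((hmX a).1 ha).1)
  set P : Finset (Finset (Fin n)) := (powersetCard 2 X).filter
    (fun A => ∀ a ∈ A, ∀ b ∈ A, τ a = τ b ∧ κ a = κ b) with hPd
  have hsub : P.card ≤ (univ.filter (fun A : Finset (Fin n) => A ∉ D ∧ Good g h τ κ (insert A D))).card := by
    refine Finset.card_le_card fun A hA => ?_
    rw [hPd, Finset.mem_filter, Finset.mem_powersetCard] at hA
    obtain ⟨⟨hAX, hA2⟩, hAs⟩ := hA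
    have hAX' : ∀ a ∈ A, (τ a < g ∧ κ a < h) ∧ ∀ A ∈ D, ∀ b ∈ A, τ a ≠ τ b ∧ κ a ≠ κ b :=
      fun a ha => (hmX a).1 (hAX ha)
    rw [Finset.mem_filter]
    refine ⟨Finset.mem_univ _, ?_, ?_⟩
    · intro hAD
      obtain ⟨a, ha⟩ : A.Nonempty := Finset.card_pos.1 (by omega)
      exact ((hAX' a ha).2 A hAD a ha).1 rfl
    · constructor
      · intro B hB
        rcases Finset.mem_insert.1 hB with rfl | hB
        · exact hA2
        · exact hD.two B hB
      · intro B hB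
        rcases Finset.mem_insert.1 hB with rfl | hB
        · exact hAs
        · exact hD.same B hB
      · intro B hB
        rcases Finset.mem_insert.1 hB with rfl | hB
        · exact fun a ha => (hAX' a ha).1
        · exact hD.lt B hB
      · intro B hB B' hB' hne a ha b hb
        rcases Finset.mem_insert.1 hB with e1 | e1
        · rcases Finset.mem_insert.1 hB' with e2 | e2
          · exact absurd (e1.trans e2.symm) hne
          · rw [e1] at ha
            exact (hAX' a ha).2 B' e2 b hb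
        · rcases Finset.mem_insert.1 hB' with e2 | e2
          · rw [e2] at hb
            have h1 := (hAX' b hb).2 B e1 a ha
            exact ⟨h1.1.symm, h1.2.symm⟩
          · exact hD.ne B e1 B' e2 hne a ha b hb
  -- the numbers
  have h8 : 8 * r * m ≤ n := by
    rw [hm]
    exact Nat.mul_div_le n (8 * r)
  have h8' : n < 8 * r * (m + 1) := by
    rw [hm]
    exact Nat.lt_mul_div_succ n (by omega)
  have hrr : r ≤ r ^ 2 := by
    rw [sq]
    exact Nat.le_mul_of_pos_left r hr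
  have h9 : n ≤ 9 * r * m := by
    by_contra hcon
    push Not at hcon
    have e1 : 9 * (8 * r * m) = 8 * (9 * r * m) := by ring
    have e2 : 8 * r * (m + 1) = 8 * r * m + 8 * r := by ring
    omega
  have hm0 : 0 < m := by
    rcases Nat.eq_zero_or_pos m with h0 | h0
    · rw [h0, mul_zero] at h9
      have : 1 ≤ r ^ 2 := Nat.one_le_pow _ _ hr
      omega
    · exact h0
  have hg9 : g ≤ 9 * r := Nat.le_of_mul_le_mul_right (hτ.gm.trans h9) hm0
  have hh9 : h ≤ 9 * r := Nat.le_of_mul_le_mul_right (hκ.gm.trans h9) hm0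
  have hx2 : n ≤ 2 * X.card := by
    have e1 : 8 * r * m = 2 * (4 * r * m) := by ring
    omega
  have hmain : X.card ^ 2 ≤ (9 * r) * (9 * r) * (2 * P.card + X.card) :=
    hcp.trans (Nat.mul_le_mul_right _ (Nat.mul_le_mul hg9 hh9))
  have hR : (1 : ℝ) ≤ (r : ℝ) ^ 2 := by exact_mod_cast Nat.one_le_pow _ _ hr
  have a1 : ((X.card : ℝ)) ^ 2 ≤ 81 * (r : ℝ) ^ 2 * (2 * P.card + X.card) := by
    have h1 : ((X.card ^ 2 : ℕ) : ℝ) ≤ (((9 * r) * (9 * r) * (2 * P.card + X.card) : ℕ) : ℝ) := by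
      exact_mod_cast hmain
    push_cast at h1
    calc ((X.card : ℝ)) ^ 2 ≤ 9 * (r : ℝ) * (9 * r) * (2 * P.card + X.card) := h1
      _ = 81 * (r : ℝ) ^ 2 * (2 * P.card + X.card) := by ring
  have a2 : (n : ℝ) ≤ 2 * (X.card : ℝ) := by exact_mod_cast hx2
  have a3 : 324 * (r : ℝ) ^ 2 ≤ (n : ℝ) := by exact_mod_cast hn
  have a4 : (n : ℝ) ^ 2 ≤ 1296 * (r : ℝ) ^ 2 * P.card := by
    have b1 : 0 ≤ ((X.card : ℝ) - n / 2) * ((X.card : ℝ) + n / 2 - 81 * (r : ℝ) ^ 2) :=
      mul_nonneg (by linarith) (by linarith)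
    have b2 : 0 ≤ (n : ℝ) * ((n : ℝ) - 324 * (r : ℝ) ^ 2) :=
      mul_nonneg (by linarith) (by linarith)
    nlinarith
  have a5 : (P.card : ℝ) ≤ ((univ.filter (fun A : Finset (Fin n) =>
      A ∉ D ∧ Good g h τ κ (insert A D))).card : ℝ) := by exact_mod_cast hsub
  refine le_trans ?_ a5
  rw [div_le_iff₀ (by positivity)]
  linarith

end Pool.Agent.CatW
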