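import Pool.Agent.CatW.Defs

/-!
Module CellsA: many pairs inside the cells, by Cauchy-Schwarz.

Proof. The cells of `X` are the fibres of `a ↦ (τ a, κ a)` over `range g ×ˢ range h`, with sizes
`x_c`, `∑ x_c = X.card`. The number `p` of 2-subsets of `X` inside one cell is
`∑ (x_c).choose 2`, so `2 p + X.card = ∑ x_c ^ 2`, and `(∑ x_c) ^ 2 ≤ g h ∑ x_c ^ 2`
(`sq_sum_le_card_mul_sum_sq`). It is enough to count ordered pairs: the pairs `(a, b) ∈ X × X` in
the same cell are `∑ x_c ^ 2` many; the diagonal ones are `X.card`, the others map two to one (at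
most) to the 2-subsets.
-/

set_option autoImplicit false

namespace Pool.Agent.CatW

open Finset Pool.Agent.Hhelper51.Cat

variable {n : ℕ}

private theorem two_choose (x : ℕ) : 2 * x.choose 2 + x = x ^ 2 := by
  induction x with
  | zero => simp
  | succ x ih =>
    have h : (x + 1).choose 2 = x + x.choose 2 := by
      rw [Nat.choose_succ_succ' x 1, Nat.choose_one_right]
    rw [h]
    linarith

theorem cell_pairs (X : Finset (Fin n)) (g h : ℕ) (τ κ : Fin n → ℕ)
    (hX : ∀ a ∈ X, τ a < g ∧ κ a < h) :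
    X.card ^ 2 ≤ g * h * (2 * ((powersetCard 2 X).filter
      (fun A => ∀ a ∈ A, ∀ b ∈ A, τ a = τ b ∧ κ a = κ b)).card + X.card) := by
  classical
  obtain ⟨T, hT⟩ : ∃ T, T = range g ×ˢ range h := ⟨_, rfl⟩
  obtain ⟨f, hf⟩ : ∃ f : ℕ × ℕ → Finset (Fin n), f = fun t => X.filter fun a => (τ a, κ a) = t :=
    ⟨_, rfl⟩
  have hmem : ∀ t a, a ∈ f t ↔ a ∈ X ∧ (τ a, κ a) = t := by
    intro t a
    rw [hf]
    exact mem_filter
  have h1 : X.card = ∑ t ∈ T, (f t).card := by
    rw [hf]
    refine card_eq_sum_card_fiberwise fun a ha => ?_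
    have ha' : a ∈ X := ha
    rw [hT]
    exact mem_product.2 ⟨mem_range.2 (hX a ha').1, mem_range.2 (hX a ha').2⟩
  have h2 : ∑ t ∈ T, (f t).card.choose 2 ≤ ((powersetCard 2 X).filter
      (fun A => ∀ a ∈ A, ∀ b ∈ A, τ a = τ b ∧ κ a = κ b)).card := by
    have h3 : (T.biUnion fun t => powersetCard 2 (f t)).card = ∑ t ∈ T, (f t).card.choose 2 := by
      rw [card_biUnion]
      · exact sum_congr rfl fun t _ => card_powersetCard 2 (f t)
      · intro t _ t' _ hne
        rw [Function.onFun, disjoint_left]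
        intro A hA hA'
        rw [mem_powersetCard] at hA hA'
        obtain ⟨a, ha⟩ : A.Nonempty := card_pos.1 (by omega)
        have e1 := ((hmem t a).1 (hA.1 ha)).2
        have e2 := ((hmem t' a).1 (hA'.1 ha)).2
        exact hne (e1.symm.trans e2)
    rw [← h3]
    refine card_le_card fun A hA => ?_
    obtain ⟨t, -, hA⟩ := mem_biUnion.1 hA
    rw [mem_powersetCard] at hA
    refine mem_filter.2 ⟨mem_powersetCard.2 ⟨fun a ha => ((hmem t a).1 (hA.1 ha)).1, hA.2⟩, ?_⟩
    intro a ha b hb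
    have e1 := ((hmem t a).1 (hA.1 ha)).2
    have e2 := ((hmem t b).1 (hA.1 hb)).2
    exact Prod.mk.inj (e1.trans e2.symm)
  have h4 : X.card ^ 2 ≤ T.card * ∑ t ∈ T, (f t).card ^ 2 := by
    rw [h1]
    exact sq_sum_le_card_mul_sum_sq
  have h5 : T.card = g * h := by rw [hT, card_product, card_range, card_range]
  have h6 : ∑ t ∈ T, (f t).card ^ 2 = 2 * ∑ t ∈ T, (f t).card.choose 2 + X.card := by
    rw [h1, mul_sum, ← sum_add_distrib]
    exact sum_congr rfl fun t _ => (two_choose _).symm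
  rw [h5, h6] at h4
  refine h4.trans (Nat.mul_le_mul_left _ ?_)
  omega

end Pool.Agent.CatW
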