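import Pool.Agent.CatW.Defs
import Pool.Agent.CatU.TreeLow

/-!
Module Conv: good families give common convex partitions.

Proof. As `choose_le_commonCount` in `Pool.Agent.CatU.TreeLow` (which treats `{A}`), with the
functions `complete`, `complete_card`, `complete_filter` of `Pool.Agent.Hhelper51.Cat.Final1`:
a good family `D` has pairwise disjoint members (an element `a` of `A` and of `B ≠ A` would have
`τ a ≠ τ a`), `complete D` is the partition into the members of `D` and singletons, it has
`n + r - 2 r = n - r` classes, and `D` is recovered as the set of its classes with at least two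
elements. It is convex on `T`: two different members of `D` have constant different values of
`τ`, all below `g`, so `Sep T g τ` applies; a singleton `{c}` and a class not containing `c` have
disjoint spans (`disj_singleton`).
-/

set_option autoImplicit false

namespace Pool.Agent.CatW

open Finset Pool.Agent.Hhelper51.Cat

variable {n : ℕ}

private theorem cvx (T : PhyloTree n) (D : Finset (Finset (Fin n))) (h2 : ∀ A ∈ D, 2 ≤ A.card)
    (hd : ∀ A ∈ D, ∀ B ∈ D, A ≠ B → Disjoint A B)
    (hs : ∀ A ∈ D, ∀ B ∈ D, A ≠ B → Disjoint (T.span A) (T.span B)) : T.Convex (complete D h2 hd) := by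
  have key : ∀ C ∈ (complete D h2 hd).parts, C ∈ D ∨ ∃ c, C = {c} := by
    intro C hC
    rw [complete_parts, mem_union, mem_image] at hC
    rcases hC with hC | ⟨c, _, hc⟩
    · exact Or.inl hC
    · exact Or.inr ⟨c, hc.symm⟩
  intro B hB C hC hne
  have hdis := (complete D h2 hd).disjoint hB hC hne
  rcases key C hC with hC' | ⟨c, rfl⟩
  · rcases key B hB with hB' | ⟨b, rfl⟩
    · exact hs B hB' C hC' hne
    · refine (CatU.disj_singleton T (B := C) (c := b) ?_).symm
      intro hb
      exact disjoint_left.1 hdis (mem_singleton_self b) hb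
  · refine CatU.disj_singleton T (B := B) (c := c) ?_
    intro hc
    exact disjoint_left.1 hdis hc (mem_singleton_self c)

open Classical in
theorem commonCount_ge (T F : PhyloTree n) {g h r : ℕ} {τ κ : Fin n → ℕ} (hT : Sep T g τ)
    (hF : Sep F h κ) :
    (univ.filter (fun D : Finset (Finset (Fin n)) => D.card = r ∧ Good g h τ κ D)).card ≤
      T.commonCount F (n - r) := by
  rw [commonCount_eq]
  have hok : ∀ D : Finset (Finset (Fin n)), Good g h τ κ D →
      (∀ A ∈ D, 2 ≤ A.card) ∧ (∀ A ∈ D, ∀ B ∈ D, A ≠ B → Disjoint A B) := by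
    intro D hD
    refine ⟨fun A hA => (hD.two A hA).ge, fun A hA B hB hne => ?_⟩
    rw [disjoint_left]
    intro a ha hb
    exact (hD.ne A hA B hB hne a ha a hb).1 rfl
  apply card_le_card_of_injOn
    (fun D => if hD : Good g h τ κ D then complete D (hok D hD).1 (hok D hD).2
      else (⊥ : Finpartition (univ : Finset (Fin n))))
  · intro D hD
    rw [mem_coe, mem_filter] at hD
    obtain ⟨-, hr, hG⟩ := hD
    simp only [hG, dif_pos]
    rw [mem_coe, mem_filter]
    have hc := complete_card D (hok D hG).1 (hok D hG).2
    have hsum : ∑ A ∈ D, A.card = 2 * r := by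
      rw [sum_congr rfl hG.two, sum_const, smul_eq_mul, hr, mul_comm]
    rw [hsum, hr] at hc
    have hne : ∀ A ∈ D, A.Nonempty := fun A hA => by
      rw [← card_pos, hG.two A hA]; exact Nat.two_pos
    refine ⟨mem_univ _, by omega, ?_, ?_⟩
    · refine cvx T D _ _ fun A hA B hB hAB => ?_
      obtain ⟨a, ha⟩ := hne A hA
      obtain ⟨b, hb⟩ := hne B hB
      exact hT A B (τ a) (τ b) (hG.lt A hA a ha).1 (hG.lt B hB b hb).1 (hG.ne A hA B hB hAB a ha b hb).1
        (fun a' ha' => (hG.same A hA a' ha' a ha).1) (fun b' hb' => (hG.same B hB b' hb' b hb).1)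
    · refine cvx F D _ _ fun A hA B hB hAB => ?_
      obtain ⟨a, ha⟩ := hne A hA
      obtain ⟨b, hb⟩ := hne B hB
      exact hF A B (κ a) (κ b) (hG.lt A hA a ha).2 (hG.lt B hB b hb).2 (hG.ne A hA B hB hAB a ha b hb).2
        (fun a' ha' => (hG.same A hA a' ha' a ha).2) (fun b' hb' => (hG.same B hB b' hb' b hb).2)
  · intro D hD D' hD' heq
    rw [mem_coe, mem_filter] at hD hD'
    have hG := hD.2.2
    have hG' := hD'.2.2
    simp only [hG, hG', dif_pos] at heq
    have h1 := complete_filter D (hok D hG).1 (hok D hG).2
    have h2 := complete_filter D' (hok D' hG').1 (hok D' hG').2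
    rw [heq, h2] at h1
    exact h1.symm

end Pool.Agent.CatW
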