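import Pool.Agent.CatW.Defs
import Pool.Agent.CatU.TreeLow

/-!
Module ConvT: only the partition into singletons has `n` classes.

Proof. If a `Finpartition` of `univ : Finset (Fin n)` has `n` classes, every class is nonempty and
the sum of the sizes is `n`, so every class has one element and the partition is `⊥`
(`Finpartition.sum_card_parts`; `Finpartition.ext`). So the set in `commonCount` is contained in
`{⊥}`.
-/

set_option autoImplicit false

namespace Pool.Agent.CatW

open Finset Pool.Agent.Hhelper51.Cat

variable {n : ℕ}

theorem commonCount_top (T F : PhyloTree n) : T.commonCount F n ≤ 1 := by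
  classical
  have key : ∀ P : Finpartition (univ : Finset (Fin n)), P.parts.card = n → P = ⊥ := by
    intro P hP
    have h1 : ∑ A ∈ P.parts, A.card = n := by
      rw [P.sum_card_parts, Finset.card_univ, Fintype.card_fin]
    have h2 : ∀ A ∈ P.parts, 1 ≤ A.card := fun A hA => Finset.card_pos.2 (P.nonempty_of_mem_parts hA)
    have h3 : ∑ A ∈ P.parts, 1 = ∑ A ∈ P.parts, A.card := by
      rw [h1, Finset.sum_const, hP, smul_eq_mul, mul_one]
    have h4 := (Finset.sum_eq_sum_iff_of_le h2).1 h3
    have h5 : P.parts ⊆ (⊥ : Finpartition (univ : Finset (Fin n))).parts := by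
      intro A hA
      obtain ⟨a, ha⟩ := Finset.card_eq_one.1 (h4 A hA).symm
      rw [Finpartition.mem_bot_iff]
      exact ⟨a, mem_univ a, ha.symm⟩
    have h6 : (⊥ : Finpartition (univ : Finset (Fin n))).parts.card ≤ P.parts.card := by
      rw [Finpartition.card_bot, Finset.card_univ, Fintype.card_fin, hP]
    exact Finpartition.ext (Finset.eq_of_subset_of_card_le h5 h6)
  unfold PhyloTree.commonCount
  refine (Set.ncard_le_ncard (t := {⊥}) ?_ (Set.finite_singleton _)).trans (Set.ncard_singleton _).le
  rintro P ⟨hP, -⟩
  exact key P hP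

end Pool.Agent.CatW
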