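import Pool.Agent.CatU.Defs

/-!
Project CatW (MP_7af81b_co, the last `sqrt n` terms): definitions.
-/

set_option autoImplicit false

namespace Pool.Agent.CatW

open Finset Pool.Agent.Hhelper51.Cat

variable {n : ℕ}

/-- `S` is the set of leaves on one side of an edge: leaf sets inside and outside span disjoint
subtrees. -/
def Split (T : PhyloTree n) (S : Finset (Fin n)) : Prop :=
  ∀ A B : Finset (Fin n), A ⊆ S → Disjoint B S → Disjoint (T.span A) (T.span B)

/-- `τ` groups the leaves into `g` groups of at most `2 m` leaves; at most `m` leaves are left over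
(value `g`). -/
structure Sizes (m g : ℕ) (τ : Fin n → ℕ) : Prop where
  gm : g * m ≤ n
  le : ∀ a, τ a ≤ g
  rest : (univ.filter (fun a => τ a = g)).card ≤ m
  small : ∀ i < g, (univ.filter (fun a => τ a = i)).card ≤ 2 * m

/-- Sets of leaves in different groups have disjoint spans. -/
def Sep (T : PhyloTree n) (g : ℕ) (τ : Fin n → ℕ) : Prop :=
  ∀ A B : Finset (Fin n), ∀ i j : ℕ, i < g → j < g → i ≠ j → (∀ a ∈ A, τ a = i) →
    (∀ b ∈ B, τ b = j) → Disjoint (T.span A) (T.span B)

/-- A family of pairs of leaves, each pair inside one `τ`-group and inside one `κ`-group,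
different pairs in different `τ`-groups and in different `κ`-groups. -/
structure Good (g h : ℕ) (τ κ : Fin n → ℕ) (D : Finset (Finset (Fin n))) : Prop where
  two : ∀ A ∈ D, A.card = 2
  same : ∀ A ∈ D, ∀ a ∈ A, ∀ b ∈ A, τ a = τ b ∧ κ a = κ b
  lt : ∀ A ∈ D, ∀ a ∈ A, τ a < g ∧ κ a < h
  ne : ∀ A ∈ D, ∀ B ∈ D, A ≠ B → ∀ a ∈ A, ∀ b ∈ B, τ a ≠ τ b ∧ κ a ≠ κ b

end Pool.Agent.CatW
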