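import Pool.Agent.CatW.Defs

/-!
Module Fam: the number of good families with `r` members, by adding one pair at a time.

Proof. Let `F t` be the number of good families with `t` members. Show by induction on `t ≤ r`
that `S ^ t ≤ t! * F t`. `t = 0`: the empty family is good, `F 0 ≥ 1`. Step `t < r`: count the
pairs `(D, A)` with `D` good, `D.card = t`, `A ∉ D`, `insert A D` good: at least `S * F t`
(hypothesis), and at most `(t + 1) * F (t + 1)`, because `(D, A) ↦ (insert A D, A)` is injective
(`D = (insert A D).erase A`) with values in the pairs `(D', A)`, `D'` good with `t + 1` members,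
`A ∈ D'`.
-/

set_option autoImplicit false

namespace Pool.Agent.CatW

open Finset Pool.Agent.Hhelper51.Cat

variable {n : ℕ}

open Classical in
theorem good_count {g h r : ℕ} {τ κ : Fin n → ℕ} (S : ℝ) (hS : 0 ≤ S)
    (hext : ∀ D : Finset (Finset (Fin n)), Good g h τ κ D → D.card < r →
      S ≤ ((univ.filter (fun A : Finset (Fin n) =>
        A ∉ D ∧ Good g h τ κ (insert A D))).card : ℝ)) :
    S ^ r ≤ (r.factorial : ℝ) * ((univ.filter (fun D : Finset (Finset (Fin n)) =>
      D.card = r ∧ Good g h τ κ D)).card : ℝ) := by
  have key : ∀ t : ℕ, t ≤ r → S ^ t ≤ (t.factorial : ℝ) *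
      ((univ.filter (fun D : Finset (Finset (Fin n)) => D.card = t ∧ Good g h τ κ D)).card : ℝ) := by
    intro t
    induction t with
    | zero =>
      intro _
      have h1 : 1 ≤ (univ.filter (fun D : Finset (Finset (Fin n)) =>
          D.card = 0 ∧ Good g h τ κ D)).card := by
        rw [Nat.one_le_iff_ne_zero, Finset.card_ne_zero]
        refine ⟨∅, mem_filter.2 ⟨mem_univ _, card_empty, ?_⟩⟩
        exact ⟨fun A hA => absurd hA (notMem_empty A), fun A hA => absurd hA (notMem_empty A),
          fun A hA => absurd hA (notMem_empty A), fun A hA => absurd hA (notMem_empty A)⟩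
      have h2 : (1 : ℝ) ≤ ((univ.filter (fun D : Finset (Finset (Fin n)) =>
          D.card = 0 ∧ Good g h τ κ D)).card : ℝ) := by exact_mod_cast h1
      rw [pow_zero, Nat.factorial_zero, Nat.cast_one, one_mul]
      exact h2
    | succ t ih =>
      intro ht
      have ih1 := ih (by omega)
      have step : S * ((univ.filter (fun D : Finset (Finset (Fin n)) =>
            D.card = t ∧ Good g h τ κ D)).card : ℝ) ≤
          ((t : ℝ) + 1) * ((univ.filter (fun D : Finset (Finset (Fin n)) =>
            D.card = t + 1 ∧ Good g h τ κ D)).card : ℝ) := by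
        have h1 : ((univ.filter (fun D : Finset (Finset (Fin n)) =>
              D.card = t ∧ Good g h τ κ D)).sigma (fun D =>
              univ.filter (fun A : Finset (Fin n) => A ∉ D ∧ Good g h τ κ (insert A D)))).card ≤
            ((univ.filter (fun D : Finset (Finset (Fin n)) =>
              D.card = t + 1 ∧ Good g h τ κ D)).sigma (fun D => D)).card := by
          refine card_le_card_of_injOn (fun q => ⟨insert q.2 q.1, q.2⟩) ?_ ?_
          · rintro ⟨D, A⟩ hq
            have h2 := mem_sigma.1 (mem_coe.1 hq)
            have h3 := (mem_filter.1 h2.1).2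
            have h4 := (mem_filter.1 h2.2).2
            refine mem_coe.2 (mem_sigma.2 ⟨mem_filter.2 ⟨mem_univ _, ?_, h4.2⟩,
              mem_insert_self _ _⟩)
            change (insert A D).card = t + 1
            rw [card_insert_of_notMem h4.1, h3.1]
          · rintro ⟨D, A⟩ hq ⟨D', A'⟩ hq' heq
            have h2 := (mem_filter.1 (mem_sigma.1 (mem_coe.1 hq)).2).2
            have h2' := (mem_filter.1 (mem_sigma.1 (mem_coe.1 hq')).2).2
            simp only [Sigma.mk.injEq] at heq
            obtain ⟨e1, e2⟩ := heq
            have e3 : A = A' := eq_of_heq e2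
            subst e3
            have e4 : D = D' := by
              have h5 : (insert A D).erase A = D := erase_insert h2.1
              have h6 : (insert A D').erase A = D' := erase_insert h2'.1
              rw [← h5, ← h6, e1]
            subst e4
            rfl
        rw [card_sigma, card_sigma] at h1
        have h7 : ∑ D ∈ univ.filter (fun D : Finset (Finset (Fin n)) =>
            D.card = t + 1 ∧ Good g h τ κ D), D.card =
            (univ.filter (fun D : Finset (Finset (Fin n)) =>
              D.card = t + 1 ∧ Good g h τ κ D)).card * (t + 1) := by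
          rw [← smul_eq_mul, ← sum_const]
          exact sum_congr rfl fun D hD => (mem_filter.1 hD).2.1
        rw [h7] at h1
        have h8 : ((∑ D ∈ univ.filter (fun D : Finset (Finset (Fin n)) =>
            D.card = t ∧ Good g h τ κ D), (univ.filter (fun A : Finset (Fin n) =>
              A ∉ D ∧ Good g h τ κ (insert A D))).card : ℕ) : ℝ) ≤
            (((univ.filter (fun D : Finset (Finset (Fin n)) =>
              D.card = t + 1 ∧ Good g h τ κ D)).card * (t + 1) : ℕ) : ℝ) := by
          exact_mod_cast h1
        push_cast at h8
        have h9 : S * ((univ.filter (fun D : Finset (Finset (Fin n)) =>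
            D.card = t ∧ Good g h τ κ D)).card : ℝ) ≤
            ∑ D ∈ univ.filter (fun D : Finset (Finset (Fin n)) =>
              D.card = t ∧ Good g h τ κ D), ((univ.filter (fun A : Finset (Fin n) =>
                A ∉ D ∧ Good g h τ κ (insert A D))).card : ℝ) := by
          rw [mul_comm, ← nsmul_eq_mul]
          refine card_nsmul_le_sum _ _ _ fun D hD => ?_
          have h10 := (mem_filter.1 hD).2
          exact hext D h10.2 (by rw [h10.1]; omega)
        linarith
      have hF : (0 : ℝ) ≤ (t.factorial : ℝ) := Nat.cast_nonneg _
      rw [pow_succ, Nat.factorial_succ]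
      push_cast
      calc S ^ t * S ≤ ((t.factorial : ℝ) * ((univ.filter (fun D : Finset (Finset (Fin n)) =>
            D.card = t ∧ Good g h τ κ D)).card : ℝ)) * S := mul_le_mul_of_nonneg_right ih1 hS
        _ = (t.factorial : ℝ) * (S * ((univ.filter (fun D : Finset (Finset (Fin n)) =>
            D.card = t ∧ Good g h τ κ D)).card : ℝ)) := by ring
        _ ≤ (t.factorial : ℝ) * (((t : ℝ) + 1) * ((univ.filter (fun D : Finset (Finset (Fin n)) =>
            D.card = t + 1 ∧ Good g h τ κ D)).card : ℝ)) := mul_le_mul_of_nonneg_left step hF
        _ = ((t : ℝ) + 1) * (t.factorial : ℝ) * ((univ.filter (fun D : Finset (Finset (Fin n)) =>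
            D.card = t + 1 ∧ Good g h τ κ D)).card : ℝ) := by ring
  exact key r le_rfl

end Pool.Agent.CatW
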