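import Pool.Agent.CatW.SpanB

/-!
Module FmCell: many leaves with the same nearest classes.

Proof. `D` is not empty (the sum is positive), `D.card ≤ p` (every class has at least two elements,
`∑ A.card = p + D.card`), the classes are disjoint (`leaf_mem_span`), so they contain `p + D.card ≤
2 p` leaves and at least `n - 2 p` leaves are outside. By `exists_near` for `T` and for `F` every
leaf `u` outside gets a pair `(C₁, C₂) ∈ D ×ˢ D`; there are `D.card ^ 2 ≤ p ^ 2` pairs, so some pair
is taken by a set `W` of leaves with `n - 2 p ≤ p ^ 2 * W.card`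
(`Finset.exists_le_card_fiber_of_mul_le_card_of_maps_to` or a sum over fibres).
-/

set_option autoImplicit false

namespace Pool.Agent.CatW

open Finset Pool.Agent.Hhelper51.Cat

variable {n : ℕ}

theorem exists_cell (T F : PhyloTree n) {p : ℕ} (hp : 1 ≤ p) {D : Finset (Finset (Fin n))}
    (hD : Fm T F p D) :
    ∃ C₁ ∈ D, ∃ C₂ ∈ D, ∃ W : Finset (Fin n), (∀ u ∈ W, ∀ A ∈ D, u ∉ A) ∧ NearTo T D C₁ W ∧
      NearTo F D C₂ W ∧ n ≤ 2 * p + p ^ 2 * W.card := by
  have hne : D.Nonempty := by
    rw [Finset.nonempty_iff_ne_empty]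
    rintro rfl
    have h := hD.sum
    rw [Finset.sum_empty, Finset.card_empty] at h
    omega
  have hDp : D.card ≤ p := by
    have h1 : D.card * 2 ≤ ∑ A ∈ D, A.card := by
      rw [← smul_eq_mul, ← Finset.sum_const]
      exact Finset.sum_le_sum hD.two
    rw [hD.sum] at h1
    omega
  have hnC : ∀ C ∈ D, C.Nonempty := fun C hC =>
    Finset.card_pos.1 (lt_of_lt_of_le (by norm_num) (hD.two C hC))
  have hT : ∀ u : Fin n, ∃ C ∈ D, ∀ C' ∈ D, C' ≠ C →
      Disjoint (T.span (insert u C)) (T.span C') := exists_near T D hne hnC hD.spT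
  have hF : ∀ u : Fin n, ∃ C ∈ D, ∀ C' ∈ D, C' ≠ C →
      Disjoint (F.span (insert u C)) (F.span C') := exists_near F D hne hnC hD.spF
  choose f hf hf' using hT
  choose g hg hg' using hF
  obtain ⟨O, hO⟩ : ∃ O : Finset (Fin n), O = univ.filter fun u => ∀ A ∈ D, u ∉ A := ⟨_, rfl⟩
  have hn : n ≤ O.card + 2 * p := by
    have h1 : (univ : Finset (Fin n)) ⊆ O ∪ D.biUnion id := by
      intro u _
      rw [Finset.mem_union, Finset.mem_biUnion, hO, Finset.mem_filter]
      by_cases h : ∃ A ∈ D, u ∈ A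
      · exact Or.inr h
      · push Not at h
        exact Or.inl ⟨mem_univ _, h⟩
    have h2 := (Finset.card_le_card h1).trans (Finset.card_union_le _ _)
    have h3 : (D.biUnion id).card ≤ ∑ A ∈ D, A.card := Finset.card_biUnion_le
    rw [hD.sum] at h3
    rw [Finset.card_univ, Fintype.card_fin] at h2
    omega
  obtain ⟨c, hc, hW⟩ : ∃ c ∈ D ×ˢ D, O.card ≤ p ^ 2 * (O.filter fun u => (f u, g u) = c).card := by
    by_contra hcon
    push Not at hcon
    have hmaps : ∀ u ∈ O, (f u, g u) ∈ D ×ˢ D := fun u _ => Finset.mem_product.2 ⟨hf u, hg u⟩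
    have h1 : ∑ c ∈ D ×ˢ D, p ^ 2 * (O.filter fun u => (f u, g u) = c).card <
        ∑ c ∈ D ×ˢ D, O.card := Finset.sum_lt_sum_of_nonempty (hne.product hne) hcon
    rw [← Finset.mul_sum, ← Finset.card_eq_sum_card_fiberwise hmaps, Finset.sum_const,
      Finset.card_product, smul_eq_mul] at h1
    have h2 : D.card * D.card * O.card ≤ p ^ 2 * O.card := by
      rw [sq]
      exact Nat.mul_le_mul_right _ (Nat.mul_le_mul hDp hDp)
    omega
  obtain ⟨hc1, hc2⟩ := Finset.mem_product.1 hc
  refine ⟨c.1, hc1, c.2, hc2, O.filter fun u => (f u, g u) = c, ?_, ?_, ?_, by omega⟩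
  · intro u hu A hA
    have h1 := (Finset.mem_filter.1 hu).1
    rw [hO, Finset.mem_filter] at h1
    exact h1.2 A hA
  · intro u hu C' hC' hne'
    have h1 : f u = c.1 := congrArg Prod.fst (Finset.mem_filter.1 hu).2
    rw [← h1] at hne' ⊢
    exact hf' u C' hC' hne'
  · intro u hu C' hC' hne'
    have h1 : g u = c.2 := congrArg Prod.snd (Finset.mem_filter.1 hu).2
    rw [← h1] at hne' ⊢
    exact hg' u C' hC' hne'

end Pool.Agent.CatW
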