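import Pool.Agent.CatW.FmDefs

/-!
Module FmCntB: double counting for the first move.

Proof. `B` is a set of families; for each `D ∈ B` there are `C` and `W` as in the hypothesis (choose
them). The map `(D, u) ↦ (D', C', u)` with `D' = insert (insert u C) (D.erase C)`,
`C' = insert u C`, on the pairs with `D ∈ B`, `u ∈ W_D`, is injective: `C = C'.erase u` and
`D = insert C (D'.erase C')` (`u ∉ C`, `C ∈ D`, `C' ∉ D` since `u` is in no class of `D`). Its
values have `D' ∈ Fm (p + 1)`, `C' ∈ D'`, `u ∈ C'`: at most `∑ A ∈ D', A.card = p + 1 + D'.card ≤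
2 (p + 1)` for each `D'`. So `w * B.card ≤ ∑ D ∈ B, W_D.card ≤ 2 (p + 1) * (number of Fm (p + 1))`.
-/

set_option autoImplicit false

namespace Pool.Agent.CatW

open Finset Pool.Agent.Hhelper51.Cat

variable {n : ℕ}

open Classical in
theorem count_b (T F : PhyloTree n) (p w : ℕ) (B : Finset (Finset (Finset (Fin n))))
    (hB : ∀ D ∈ B, ∃ C ∈ D, ∃ W : Finset (Fin n), w ≤ W.card ∧ (∀ u ∈ W, ∀ A ∈ D, u ∉ A) ∧
      ∀ u ∈ W, Fm T F (p + 1) (insert (insert u C) (D.erase C))) :
    w * B.card ≤ 2 * (p + 1) *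
      (univ.filter (fun D : Finset (Finset (Fin n)) => Fm T F (p + 1) D)).card := by
  choose! C hC W hw hu hF using hB
  have h1 : w * B.card ≤ ∑ D ∈ B, (W D).card := by
    rw [mul_comm, ← smul_eq_mul]
    exact card_nsmul_le_sum B _ w fun D hD => hw D hD
  have h2 : (B.sigma fun D => W D).card ≤
      ((univ.filter (fun D : Finset (Finset (Fin n)) => Fm T F (p + 1) D)).sigma
        fun D' => D'.sigma fun C' => C').card := by
    refine card_le_card_of_injOn
      (fun x => ⟨insert (insert x.2 (C x.1)) (x.1.erase (C x.1)), ⟨insert x.2 (C x.1), x.2⟩⟩)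
      ?_ ?_
    · rintro ⟨D, u⟩ hx
      obtain ⟨hD, hW⟩ := mem_sigma.1 hx
      exact mem_sigma.2 ⟨mem_filter.2 ⟨mem_univ _, hF D hD u hW⟩,
        mem_sigma.2 ⟨mem_insert_self _ _, mem_insert_self _ _⟩⟩
    · rintro ⟨D, u⟩ hx ⟨E, v⟩ hy he
      obtain ⟨hD, hW⟩ := mem_sigma.1 (mem_coe.1 hx)
      obtain ⟨hE, hV⟩ := mem_sigma.1 (mem_coe.1 hy)
      simp only [Sigma.mk.injEq, heq_eq_eq] at he
      obtain ⟨e1, e2, e3⟩ := he
      have hD' : D ∈ B := hD
      have hE' : E ∈ B := hE
      have hW' : u ∈ W D := hW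
      have hV' : v ∈ W E := hV
      subst e3
      have huC : u ∉ C D := hu D hD' u hW' _ (hC D hD')
      have huE : u ∉ C E := hu E hE' u hV' _ (hC E hE')
      have e4 : C D = C E := by
        rw [← erase_insert huC, e2, erase_insert huE]
      have e5 : D.erase (C D) = E.erase (C E) := by
        have n1 : insert u (C D) ∉ D.erase (C D) := fun h =>
          hu D hD' u hW' _ (mem_of_mem_erase h) (mem_insert_self _ _)
        have n2 : insert u (C E) ∉ E.erase (C E) := fun h =>
          hu E hE' u hV' _ (mem_of_mem_erase h) (mem_insert_self _ _)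
        rw [← erase_insert n1, e1, e2, erase_insert n2]
      have e6 : D = E := by
        rw [← insert_erase (hC D hD'), e5, e4, insert_erase (hC E hE')]
      subst e6
      rfl
  have h3 : ((univ.filter (fun D : Finset (Finset (Fin n)) => Fm T F (p + 1) D)).sigma
        fun D' => D'.sigma fun C' => C').card ≤
      (univ.filter (fun D : Finset (Finset (Fin n)) => Fm T F (p + 1) D)).card *
        (2 * (p + 1)) := by
    rw [card_sigma, ← smul_eq_mul]
    refine sum_le_card_nsmul _ _ _ fun D hD => ?_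
    obtain ⟨-, hD⟩ := mem_filter.1 hD
    rw [card_sigma]
    have h4 := hD.sum
    have h5 : D.card * 2 ≤ ∑ A ∈ D, A.card := by
      rw [← smul_eq_mul]
      exact card_nsmul_le_sum D _ 2 fun A hA => hD.two A hA
    omega
  rw [card_sigma] at h2
  calc w * B.card ≤ ∑ D ∈ B, (W D).card := h1
    _ ≤ _ := h2
    _ ≤ _ := h3
    _ = _ := by ring

end Pool.Agent.CatW
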