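import Pool.Agent.CatW.FmDefs

/-!
Module FmCntC: double counting for the second move.

Proof. For each `D ∈ B` choose `C₁, C₂` and the set `G` as in the hypothesis. The map
`(D, E) ↦ (D', E, C₁, C₂)` with `D' = ((D.erase C₁).erase C₂) ∪ E`, on the pairs with `D ∈ B`,
`E ∈ G_D`, is injective: `D = insert C₁ (insert C₂ (D' \ E))` (`E` and the rest are disjoint,
`C₁, C₂ ∈ D`). Its values: `D'` with `Fm (p + 1)`, a subset `E` of `D'` with `q` elements (at most
`(p + 1).choose q` since `D'.card ≤ p + 1`), and a pair `(C₁, C₂)` of subsets of `Fin n` with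
`C₁.card + C₂.card = q + 1`: there are `(2 n).choose (q + 1)` such pairs (subsets of
`Fin n ⊕ Fin n` with `q + 1` elements; an injection into `powersetCard (q + 1)` of
`Finset (Fin n ⊕ Fin n)` is enough, `Finset.disjSum`). So `a * B.card ≤ ∑ D ∈ B, G_D.card ≤` the
product.
-/

set_option autoImplicit false

namespace Pool.Agent.CatW

open Finset Pool.Agent.Hhelper51.Cat

variable {n : ℕ}

open Classical in
theorem count_c (T F : PhyloTree n) (p q : ℕ) (a : ℝ) (B : Finset (Finset (Finset (Fin n))))
    (hB : ∀ D ∈ B, ∃ C₁ ∈ D, ∃ C₂ ∈ D, C₁ ≠ C₂ ∧ C₁.card + C₂.card = q + 1 ∧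
      ∃ G : Finset (Finset (Finset (Fin n))), a ≤ (G.card : ℝ) ∧ ∀ E ∈ G, E.card = q ∧
        Disjoint ((D.erase C₁).erase C₂) E ∧ Fm T F (p + 1) (((D.erase C₁).erase C₂) ∪ E)) :
    a * (B.card : ℝ) ≤ ((p + 1).choose q : ℝ) * ((2 * n).choose (q + 1) : ℝ) *
      ((univ.filter (fun D : Finset (Finset (Fin n)) => Fm T F (p + 1) D)).card : ℝ) := by
  choose! C₁ h1 C₂ h2 hne hc G hG hE using hB
  set W : Finset (Finset (Finset (Fin n))) := univ.filter (fun D => Fm T F (p + 1) D) with hW
  have hcardW : ∀ D' ∈ W, D'.card ≤ p + 1 := by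
    intro D' hD'
    have h : Fm T F (p + 1) D' := by simpa [hW] using hD'
    have h2 : D'.card * 2 ≤ ∑ A ∈ D', A.card := by
      have := Finset.card_nsmul_le_sum D' (fun A => A.card) 2 h.two
      simpa using this
    have := h.sum
    omega
  let P : Finset (Finset (Fin n ⊕ Fin n)) := powersetCard (q + 1) univ
  have hP : P.card = (2 * n).choose (q + 1) := by
    simp [P, Finset.card_powersetCard, Fintype.card_sum, two_mul]
  let f : (Σ _ : Finset (Finset (Fin n)), Finset (Finset (Fin n))) →
      (Σ _ : Finset (Finset (Fin n)), Finset (Finset (Fin n))) × Finset (Fin n ⊕ Fin n) :=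
    fun x => (⟨((x.1.erase (C₁ x.1)).erase (C₂ x.1)) ∪ x.2, x.2⟩, (C₁ x.1).disjSum (C₂ x.1))
  have hmap : (B.sigma fun D => G D).card
      ≤ ((W.sigma fun D' => powersetCard q D') ×ˢ P).card := by
    apply Finset.card_le_card_of_injOn f
    · rintro ⟨D, E⟩ hx
      obtain ⟨hD, hEG⟩ := Finset.mem_sigma.mp (Finset.mem_coe.mp hx)
      simp only at hD hEG
      obtain ⟨e1, e2, e3⟩ := hE D hD E hEG
      apply Finset.mem_coe.mpr
      refine Finset.mem_product.mpr ⟨Finset.mem_sigma.mpr ⟨?_, ?_⟩, ?_⟩
      · simp only [f, hW, Finset.mem_filter, Finset.mem_univ, true_and]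
        exact e3
      · simp only [f, Finset.mem_powersetCard]
        exact ⟨Finset.subset_union_right, e1⟩
      · simp only [f, P, Finset.mem_powersetCard]
        refine ⟨Finset.subset_univ _, ?_⟩
        rw [Finset.card_disjSum]
        exact hc D hD
    · rintro ⟨D, E⟩ hx ⟨D', E'⟩ hx' hff
      obtain ⟨hD, hEG⟩ := Finset.mem_sigma.mp (Finset.mem_coe.mp hx)
      obtain ⟨hD', hEG'⟩ := Finset.mem_sigma.mp (Finset.mem_coe.mp hx')
      simp only at hD hEG hD' hEG'
      simp only [f, Prod.mk.injEq, Sigma.mk.injEq, heq_eq_eq] at hff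
      obtain ⟨⟨hu, rfl⟩, hs⟩ := hff
      have hc1 : C₁ D = C₁ D' := by
        ext x
        have := Finset.ext_iff.mp hs (Sum.inl x)
        simpa using this
      have hc2 : C₂ D = C₂ D' := by
        ext x
        have := Finset.ext_iff.mp hs (Sum.inr x)
        simpa using this
      have key : ∀ D ∈ B, E ∈ G D →
          D = insert (C₁ D) (insert (C₂ D) ((((D.erase (C₁ D)).erase (C₂ D)) ∪ E) \ E)) := by
        intro D hD hEG
        obtain ⟨-, e2, -⟩ := hE D hD E hEG
        rw [Finset.union_sdiff_cancel_right e2,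
          Finset.insert_erase (Finset.mem_erase.mpr ⟨(hne D hD).symm, h2 D hD⟩),
          Finset.insert_erase (h1 D hD)]
      have k1 := key D hD hEG
      have k2 := key D' hD' hEG'
      rw [hu, hc1, hc2, ← k2] at k1
      subst k1
      rfl
  have hl : a * (B.card : ℝ) ≤ ((B.sigma fun D => G D).card : ℝ) := by
    rw [Finset.card_sigma]
    push_cast
    have := Finset.card_nsmul_le_sum B (fun D => ((G D).card : ℝ)) a hG
    simpa [nsmul_eq_mul, mul_comm] using this
  have hr : ((W.sigma fun D' => powersetCard q D') ×ˢ P).card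
      ≤ (p + 1).choose q * (2 * n).choose (q + 1) * W.card := by
    rw [Finset.card_product, hP, Finset.card_sigma]
    have : ∑ D' ∈ W, (powersetCard q D').card ≤ W.card * (p + 1).choose q := by
      rw [← smul_eq_mul]
      apply Finset.sum_le_card_nsmul
      intro D' hD'
      rw [Finset.card_powersetCard]
      exact Nat.choose_le_choose q (hcardW D' hD')
    calc (∑ D' ∈ W, (powersetCard q D').card) * (2 * n).choose (q + 1)
        ≤ (W.card * (p + 1).choose q) * (2 * n).choose (q + 1) := Nat.mul_le_mul_right _ this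
      _ = (p + 1).choose q * (2 * n).choose (q + 1) * W.card := by ring
  have hfin := hmap.trans hr
  have hfin' : ((B.sigma fun D => G D).card : ℝ)
      ≤ ((p + 1).choose q : ℝ) * ((2 * n).choose (q + 1) : ℝ) * (W.card : ℝ) := by
    exact_mod_cast hfin
  exact hl.trans hfin'

end Pool.Agent.CatW
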