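import Pool.Agent.CatW.Defs

/-!
Project CatW, second part: for every pair of trees the number of common convex partitions with `k`
classes is non-increasing for `k ≥ n - c n ^ (1 / 9)`. Definitions.
-/

set_option autoImplicit false

namespace Pool.Agent.CatW

open Finset Pool.Agent.Hhelper51.Cat

variable {n : ℕ}

/-- The families of the nontrivial classes of the common convex partitions with `n - r` classes. -/
structure Fm (T F : PhyloTree n) (r : ℕ) (D : Finset (Finset (Fin n))) : Prop where
  two : ∀ A ∈ D, 2 ≤ A.card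
  spT : ∀ A ∈ D, ∀ B ∈ D, A ≠ B → Disjoint (T.span A) (T.span B)
  spF : ∀ A ∈ D, ∀ B ∈ D, A ≠ B → Disjoint (F.span A) (F.span B)
  sum : ∑ A ∈ D, A.card = r + D.card

/-- A family of pairs inside `W` with disjoint spans in both trees. -/
structure PairsIn (T F : PhyloTree n) (W : Finset (Fin n)) (D : Finset (Finset (Fin n))) :
    Prop where
  two : ∀ A ∈ D, A.card = 2
  sub : ∀ A ∈ D, A ⊆ W
  spT : ∀ A ∈ D, ∀ B ∈ D, A ≠ B → Disjoint (T.span A) (T.span B)
  spF : ∀ A ∈ D, ∀ B ∈ D, A ≠ B → Disjoint (F.span A) (F.span B)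

/-- The leaves of `W` are nearest to the class `C` of `D`. -/
def NearTo (T : PhyloTree n) (D : Finset (Finset (Fin n))) (C W : Finset (Fin n)) : Prop :=
  ∀ u ∈ W, ∀ C' ∈ D, C' ≠ C → Disjoint (T.span (insert u C)) (T.span C')

end Pool.Agent.CatW
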