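import Pool.Agent.CatW.SpanA
import Pool.Agent.CatU.TreeLow

/-!
Module FmEq: partitions and families of nontrivial classes.

Proof. `P ↦ P.parts.filter (2 ≤ card)` is a bijection from the set in `commonCount` (with
`n - r` classes) onto the families `D` with `Fm T F r D`. The sum of all sizes is `n`, the other
classes have one element, so `∑ A ∈ D, A.card + (n - r - D.card) = n`. Inverse: `complete`
(`Pool.Agent.Hhelper51.Cat.Final1`: `complete_parts`, `complete_filter`, `complete_card`), convex
as in `complete_convex` of `CatU.TreeLow` (`disj_singleton`). The members of `D` are disjoint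
because `T.leaf a` lies in both spans for a common element `a` (`leaf_mem_span`). A partition is
determined by its classes with at least two elements (two injections are enough for the equality).
-/

set_option autoImplicit false

namespace Pool.Agent.CatW

open Finset Pool.Agent.Hhelper51.Cat

variable {n : ℕ}

/-- The parts of a partition, from the nontrivial classes. -/
private theorem parts_eq (P : Finpartition (univ : Finset (Fin n))) :
    P.parts = P.parts.filter (fun A => 2 ≤ A.card) ∪
      (univ.filter (fun a => ∀ A ∈ P.parts.filter (fun A => 2 ≤ A.card), a ∉ A)).image (fun a => {a}) := by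
  ext A
  rw [mem_union, mem_filter, mem_image]
  constructor
  · intro hA
    by_cases h2 : 2 ≤ A.card
    · exact Or.inl ⟨hA, h2⟩
    · have h1 : A.card = 1 := by
        have := Finset.card_pos.2 (P.nonempty_of_mem_parts hA)
        omega
      obtain ⟨a, rfl⟩ := Finset.card_eq_one.1 h1
      refine Or.inr ⟨a, ?_, rfl⟩
      rw [mem_filter]
      refine ⟨mem_univ _, fun B hB haB => ?_⟩
      rw [mem_filter] at hB
      have hne : ({a} : Finset (Fin n)) ≠ B := by
        rintro rfl
        exact h2 hB.2
      exact disjoint_left.1 (P.disjoint hA hB.1 hne) (mem_singleton_self a) haB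
  · rintro (h | ⟨a, ha, rfl⟩)
    · exact h.1
    · rw [mem_filter] at ha
      have h1 := P.part_mem.2 (mem_univ a)
      have h2 := P.mem_part (mem_univ a)
      have h3 : ¬ 2 ≤ (P.part a).card := fun h => ha.2 _ (mem_filter.2 ⟨h1, h⟩) h2
      have h4 : (P.part a).card = 1 := by
        have := Finset.card_pos.2 ⟨a, h2⟩
        omega
      obtain ⟨b, hb⟩ := Finset.card_eq_one.1 h4
      rw [hb, mem_singleton] at h2
      rw [h2, ← hb]
      rw [hb] at h1 ⊢
      exact h1

private theorem complete_conv (T : PhyloTree n) (D : Finset (Finset (Fin n))) (h2 : ∀ A ∈ D, 2 ≤ A.card)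
    (hd : ∀ A ∈ D, ∀ B ∈ D, A ≠ B → Disjoint A B)
    (hsp : ∀ A ∈ D, ∀ B ∈ D, A ≠ B → Disjoint (T.span A) (T.span B)) : T.Convex (complete D h2 hd) := by
  have hs : ∀ C ∈ (complete D h2 hd).parts, C ∈ D ∨ ∃ c, C = {c} := by
    intro C hC
    rw [complete_parts, mem_union, mem_image] at hC
    rcases hC with hC | ⟨c, _, hc⟩
    · exact Or.inl hC
    · exact Or.inr ⟨c, hc.symm⟩
  intro B hB C hC hne
  have hdis := (complete D h2 hd).disjoint hB hC hne
  rcases hs C hC with hC' | ⟨c, rfl⟩
  · rcases hs B hB with hB' | ⟨b, rfl⟩
    · exact hsp B hB' C hC' hne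
    · refine (CatU.disj_singleton T (B := C) (c := b) ?_).symm
      intro hb
      exact disjoint_left.1 hdis (mem_singleton_self b) hb
  · refine CatU.disj_singleton T (B := B) (c := c) ?_
    intro hc
    exact disjoint_left.1 hdis hc (mem_singleton_self c)

open Classical in
theorem commonCount_eq_fm (T F : PhyloTree n) (r : ℕ) (hr : r ≤ n) :
    T.commonCount F (n - r) = (univ.filter (fun D : Finset (Finset (Fin n)) => Fm T F r D)).card := by
  rw [commonCount_eq]
  refine Finset.card_bij (fun P _ => P.parts.filter (fun A => 2 ≤ A.card)) ?_ ?_ ?_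
  · intro P hP
    rw [mem_filter] at hP ⊢
    obtain ⟨-, hc, hT, hF⟩ := hP
    refine ⟨mem_univ _, ⟨fun A hA => (mem_filter.1 hA).2, ?_, ?_, ?_⟩⟩
    · intro A hA B hB hne
      exact hT A (mem_filter.1 hA).1 B (mem_filter.1 hB).1 hne
    · intro A hA B hB hne
      exact hF A (mem_filter.1 hA).1 B (mem_filter.1 hB).1 hne
    · have h1 : ∑ A ∈ P.parts, A.card = n := by
        rw [P.sum_card_parts, card_univ, Fintype.card_fin]
      have h2 := Finset.sum_filter_add_sum_filter_not P.parts (fun A => 2 ≤ A.card) (fun A => A.card)
      have h3 : ∑ A ∈ P.parts.filter (fun A => ¬ 2 ≤ A.card), A.card =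
          (P.parts.filter (fun A => ¬ 2 ≤ A.card)).card := by
        rw [Finset.card_eq_sum_ones]
        refine Finset.sum_congr rfl fun A hA => ?_
        rw [mem_filter] at hA
        have := Finset.card_pos.2 (P.nonempty_of_mem_parts hA.1)
        omega
      have h4 := Finset.card_filter_add_card_filter_not (s := P.parts) (fun A => 2 ≤ A.card)
      omega
  · intro P _ P' _ h
    have h' : P.parts.filter (fun A => 2 ≤ A.card) = P'.parts.filter (fun A => 2 ≤ A.card) := h
    refine Finpartition.ext ?_
    rw [parts_eq P, parts_eq P', h']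
  · intro D hD
    rw [mem_filter] at hD
    obtain ⟨-, hD⟩ := hD
    have hd : ∀ A ∈ D, ∀ B ∈ D, A ≠ B → Disjoint A B := by
      intro A hA B hB hne
      rw [disjoint_left]
      intro a ha hb
      exact Set.disjoint_left.1 (hD.spT A hA B hB hne) (leaf_mem_span T ha) (leaf_mem_span T hb)
    refine ⟨complete D hD.two hd, ?_, complete_filter D hD.two hd⟩
    rw [mem_filter]
    refine ⟨mem_univ _, ?_, complete_conv T D hD.two hd hD.spT, complete_conv F D hD.two hd hD.spF⟩
    have h1 := complete_card D hD.two hd
    have h2 := hD.sum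
    omega

end Pool.Agent.CatW
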