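import Pool.Agent.CatW.SpanA

/-!
Module FmMoveB: one leaf is added to the nearest class.

Proof. Direct: the class `insert u C` has one element more (`u ∉ C`), it is not in `D.erase C`
(`u` is in no class of `D`), the number of classes stays the same. The spans: two classes of
`D.erase C` by `hD`; `insert u C` and `C' ∈ D`, `C' ≠ C`, by `NearTo`.
-/

set_option autoImplicit false

namespace Pool.Agent.CatW

open Finset Pool.Agent.Hhelper51.Cat

variable {n : ℕ}

private theorem mvb_sp (T : PhyloTree n) {D : Finset (Finset (Fin n))}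
    (hD : ∀ A ∈ D, ∀ B ∈ D, A ≠ B → Disjoint (T.span A) (T.span B)) {C W : Finset (Fin n)}
    (hT : NearTo T D C W) {u : Fin n} (hu : u ∈ W) :
    ∀ A ∈ insert (insert u C) (D.erase C), ∀ B ∈ insert (insert u C) (D.erase C), A ≠ B →
      Disjoint (T.span A) (T.span B) := by
  intro A hA B hB hAB
  rcases mem_insert.1 hA with hA1 | hA1
  · rcases mem_insert.1 hB with hB1 | hB1
    · exact absurd (hA1.trans hB1.symm) hAB
    · rw [mem_erase] at hB1
      rw [hA1]
      exact hT u hu B hB1.2 hB1.1
  · rw [mem_erase] at hA1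
    rcases mem_insert.1 hB with hB1 | hB1
    · rw [hB1]
      exact (hT u hu A hA1.2 hA1.1).symm
    · rw [mem_erase] at hB1
      exact hD A hA1.2 B hB1.2 hAB

theorem move_b (T F : PhyloTree n) {p : ℕ} {D : Finset (Finset (Fin n))} (hD : Fm T F p D)
    {C W : Finset (Fin n)} (hC : C ∈ D) (hW : ∀ u ∈ W, ∀ A ∈ D, u ∉ A) (hT : NearTo T D C W)
    (hF : NearTo F D C W) {u : Fin n} (hu : u ∈ W) :
    Fm T F (p + 1) (insert (insert u C) (D.erase C)) := by
  have huC : u ∉ C := hW u hu C hC
  have hne : insert u C ∉ D.erase C := by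
    intro h
    exact hW u hu _ (mem_of_mem_erase h) (mem_insert_self u C)
  refine ⟨?_, mvb_sp T hD.spT hT hu, mvb_sp F hD.spF hF hu, ?_⟩
  · intro A hA
    rcases mem_insert.1 hA with hA1 | hA1
    · rw [hA1, card_insert_of_notMem huC]
      have := hD.two C hC
      omega
    · exact hD.two A (mem_of_mem_erase hA1)
  · rw [sum_insert hne, card_insert_of_notMem hne, card_insert_of_notMem huC]
    have h1 := hD.sum
    rw [← add_sum_erase D (fun A => A.card) hC] at h1
    have h2 := card_erase_add_one hC
    omega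

end Pool.Agent.CatW
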