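import Pool.Agent.CatW.SpanA

/-!
Module FmMoveC: two classes are replaced by pairs inside `W`.

Proof. The members of `E` are subsets of `W`, so they are disjoint from the classes of `D` and not
members of `D`. Sizes: `D` loses `C₁.card + C₂.card = q + 1` elements and two classes, `E` adds
`2 q` elements and `q` classes: `∑ = p + D.card - (q + 1) + 2 q = (p + 1) + (D.card - 2 + q)`.
Spans in `T`: two classes of `D` or two members of `E`: hypotheses. `A ∈ E` and `C' ∈ D`, `C' ≠ C₁`:
`A ⊆ C₁ ∪ A`, and `span (C₁ ∪ A)` is contained in the union of `span C₁` and the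
`span (insert u C₁)`, `u ∈ A` (`span_union`, `span_mono`), all disjoint from `span C'`
(`NearTo`; `span C₁` by `hD`, or as part of `span (insert u C₁)`). The same in `F` with `C₂`.
-/

set_option autoImplicit false

namespace Pool.Agent.CatW

open Finset Pool.Agent.Hhelper51.Cat

variable {n : ℕ}

private theorem key_c (T : PhyloTree n) {D : Finset (Finset (Fin n))} {C W A C' : Finset (Fin n)}
    (hsp : ∀ A ∈ D, ∀ B ∈ D, A ≠ B → Disjoint (T.span A) (T.span B)) (hC : C ∈ D) (hCn : C.Nonempty)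
    (hT : NearTo T D C W) (hA : A ⊆ W) (hC' : C' ∈ D) (hne : C' ≠ C) : Disjoint (T.span A) (T.span C') := by
  rw [Set.disjoint_left]
  intro v hv hv'
  have h1 : v ∈ T.span (C ∪ A) := span_mono T subset_union_right hv
  rcases span_union T hCn h1 with h2 | ⟨u, hu, h2⟩
  · exact Set.disjoint_left.1 (hsp C hC C' hC' hne.symm) h2 hv'
  · exact Set.disjoint_left.1 (hT u (hA hu) C' hC' hne) h2 hv'

theorem move_c (T F : PhyloTree n) {p q : ℕ} {D : Finset (Finset (Fin n))} (hD : Fm T F p D)
    {C₁ C₂ W : Finset (Fin n)} (h1 : C₁ ∈ D) (h2 : C₂ ∈ D) (hne : C₁ ≠ C₂)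
    (hq : C₁.card + C₂.card = q + 1) (hW : ∀ u ∈ W, ∀ A ∈ D, u ∉ A) (hT : NearTo T D C₁ W)
    (hF : NearTo F D C₂ W) {E : Finset (Finset (Fin n))} (hE : PairsIn T F W E)
    (hEq : E.card = q) :
    Fm T F (p + 1) (((D.erase C₁).erase C₂) ∪ E) ∧ Disjoint ((D.erase C₁).erase C₂) E := by
  have hn1 : C₁.Nonempty := card_pos.1 (by have := hD.two C₁ h1; omega)
  have hn2 : C₂.Nonempty := card_pos.1 (by have := hD.two C₂ h2; omega)
  have hmem : ∀ A, A ∈ (D.erase C₁).erase C₂ → A ∈ D ∧ A ≠ C₁ ∧ A ≠ C₂ := by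
    intro A hA
    rw [mem_erase, mem_erase] at hA
    exact ⟨hA.2.2, hA.2.1, hA.1⟩
  have hdis : Disjoint ((D.erase C₁).erase C₂) E := by
    rw [disjoint_left]
    intro A hA hAE
    have hc := hE.two A hAE
    obtain ⟨u, hu⟩ := card_pos.1 (by omega : 0 < A.card)
    exact hW u (hE.sub A hAE hu) A (hmem A hA).1 hu
  refine ⟨⟨?_, ?_, ?_, ?_⟩, hdis⟩
  · intro A hA
    rcases mem_union.1 hA with hA | hA
    · exact hD.two A (hmem A hA).1
    · exact (hE.two A hA).ge
  · intro A hA B hB hAB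
    rcases mem_union.1 hA with hA | hA
    · rcases mem_union.1 hB with hB | hB
      · exact hD.spT A (hmem A hA).1 B (hmem B hB).1 hAB
      · exact (key_c T hD.spT h1 hn1 hT (hE.sub B hB) (hmem A hA).1 (hmem A hA).2.1).symm
    · rcases mem_union.1 hB with hB | hB
      · exact key_c T hD.spT h1 hn1 hT (hE.sub A hA) (hmem B hB).1 (hmem B hB).2.1
      · exact hE.spT A hA B hB hAB
  · intro A hA B hB hAB
    rcases mem_union.1 hA with hA | hA
    · rcases mem_union.1 hB with hB | hB
      · exact hD.spF A (hmem A hA).1 B (hmem B hB).1 hAB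
      · exact (key_c F hD.spF h2 hn2 hF (hE.sub B hB) (hmem A hA).1 (hmem A hA).2.2).symm
    · rcases mem_union.1 hB with hB | hB
      · exact key_c F hD.spF h2 hn2 hF (hE.sub A hA) (hmem B hB).1 (hmem B hB).2.2
      · exact hE.spF A hA B hB hAB
  · have h2' : C₂ ∈ D.erase C₁ := mem_erase.2 ⟨hne.symm, h2⟩
    rw [sum_union hdis, card_union_of_disjoint hdis, card_erase_of_mem h2', card_erase_of_mem h1]
    have e1 : ∑ A ∈ E, A.card = 2 * q := by
      rw [sum_congr rfl (fun A hA => hE.two A hA), sum_const, hEq, smul_eq_mul, mul_comm]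
    have e2 := add_sum_erase D (fun A => A.card) h1
    have e3 := add_sum_erase (D.erase C₁) (fun A => A.card) h2'
    have e4 := hD.sum
    have e5 : 1 < D.card := one_lt_card.2 ⟨C₁, h1, C₂, h2, hne⟩
    rw [e1, hEq]
    omega

end Pool.Agent.CatW
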