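import Mathlib

/-!
Module NumF: as NumE, with the weaker condition `10 ^ 16 r ^ 15 ≤ n ^ 2`, `r = p + 1`.

Proof. As in NumE the term is at most `2 n * (10368 r ^ 5 q ^ 2 / n) ^ q / (q + 1)! ≤
2 n * z ^ q`, `z = 31104 r ^ 5 q / n` (by `q ^ q ≤ 3 ^ q * q!`). As `q ≤ r` and `n ≥ 10 ^ 8 r ^ 7`
(from the square), `z ≤ 1 / 8`; and `2 n z ^ 3 = 2 * 31104 ^ 3 * r ^ 15 q ^ 3 / n ^ 2 ≤ q ^ 3 / 160`.
So the term is at most `q ^ 3 / (160 * 8 ^ (q - 3))`, and `q ^ 3 / 8 ^ (q - 3) ≤ 27 / 2 ^ (q - 3)` for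
`q ≥ 3` (the quotient of consecutive values is at most `(4 / 3) ^ 3 / 8 ≤ 1 / 2`), so the sum is at most
`54 / 160 ≤ 1 / 2`.
-/

set_option autoImplicit false

namespace Pool.Agent.CatW

open Finset

private theorem nf_self_pow (q : ℕ) : (q : ℝ) ^ q ≤ 3 ^ q * (q.factorial : ℝ) := by
  have h1 := Real.pow_div_factorial_le_exp (q : ℝ) (Nat.cast_nonneg q) q
  have h2 : Real.exp (q : ℝ) = Real.exp 1 ^ q := by
    rw [← Real.exp_nat_mul, mul_one]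
  have h3 : Real.exp 1 ≤ 3 := by
    have := Real.exp_one_lt_d9
    linarith
  have h4 : Real.exp 1 ^ q ≤ 3 ^ q := pow_le_pow_left₀ (Real.exp_pos 1).le h3 q
  have h5 : (0 : ℝ) < (q.factorial : ℝ) := by exact_mod_cast q.factorial_pos
  rw [div_le_iff₀ h5] at h1
  calc (q : ℝ) ^ q ≤ Real.exp (q : ℝ) * (q.factorial : ℝ) := h1
    _ ≤ 3 ^ q * (q.factorial : ℝ) := by
        rw [h2]
        exact mul_le_mul_of_nonneg_right h4 h5.le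

private theorem nf_cube (k : ℕ) : ((k : ℝ) + 3) ^ 3 ≤ 27 * 4 ^ k := by
  induction k with
  | zero => norm_num
  | succ k ih =>
    have hk : (0 : ℝ) ≤ k := Nat.cast_nonneg k
    have h4 : (4 : ℝ) ^ (k + 1) = 4 * 4 ^ k := by ring
    have h5 : ((k : ℝ) + 1 + 3) ^ 3 ≤ 4 * ((k : ℝ) + 3) ^ 3 := by
      have : 4 * ((k : ℝ) + 3) ^ 3 - ((k : ℝ) + 1 + 3) ^ 3 = 3 * (k : ℝ) ^ 3 + 24 * (k : ℝ) ^ 2 + 60 * (k : ℝ) + 44 := by ring
      have : 0 ≤ 3 * (k : ℝ) ^ 3 + 24 * (k : ℝ) ^ 2 + 60 * (k : ℝ) + 44 := by positivity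
      linarith
    rw [h4]
    push_cast
    linarith

private theorem nf_term {n r w : ℝ} {q c d : ℕ} {f g : ℝ} (hr : 1 ≤ r) (hn0 : 0 < n) (hn : 10 ^ 16 * r ^ 15 ≤ n ^ 2)
    (hw : n / (2 * r ^ 2) ≤ w) (hq : 3 ≤ q) (hqr : (q : ℝ) ≤ r) (hf : 0 < f) (hg : f ≤ g)
    (hc : (c : ℝ) ≤ r ^ q / f) (hd : (d : ℝ) ≤ (2 * n) ^ (q + 1) / g)
    (hqq : (q : ℝ) ^ q ≤ 3 ^ q * f) :
    (c : ℝ) * (d : ℝ) / ((w ^ 2 / (1296 * (q : ℝ) ^ 2)) ^ q / f) ≤ 27 / 160 * (1 / 2) ^ (q - 3) := by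
  have hr0 : 0 < r := by linarith
  have hq0 : (0 : ℝ) < q := by exact_mod_cast (by omega : 0 < q)
  have hg0 : 0 < g := lt_of_lt_of_le hf hg
  have hw0 : 0 < w := lt_of_lt_of_le (by positivity) hw
  have hbase : n ^ 2 / (5184 * r ^ 4 * (q : ℝ) ^ 2) ≤ w ^ 2 / (1296 * (q : ℝ) ^ 2) := by
    have h1 : (n / (2 * r ^ 2)) ^ 2 ≤ w ^ 2 := pow_le_pow_left₀ (by positivity) hw 2
    calc n ^ 2 / (5184 * r ^ 4 * (q : ℝ) ^ 2) = (n / (2 * r ^ 2)) ^ 2 / (1296 * (q : ℝ) ^ 2) := by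
          field_simp
          ring
      _ ≤ w ^ 2 / (1296 * (q : ℝ) ^ 2) := by gcongr
  have hden : (n ^ 2 / (5184 * r ^ 4 * (q : ℝ) ^ 2)) ^ q / f ≤
      (w ^ 2 / (1296 * (q : ℝ) ^ 2)) ^ q / f := by gcongr
  have hden0 : 0 < (n ^ 2 / (5184 * r ^ 4 * (q : ℝ) ^ 2)) ^ q / f := by positivity
  have hn7 : 10 ^ 8 * r ^ 7 ≤ n := by
    have h1 : r ^ 14 ≤ r ^ 15 := pow_le_pow_right₀ hr (by norm_num)
    have h2 : (10 ^ 8 * r ^ 7) ^ 2 ≤ n ^ 2 := by nlinarith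
    exact le_of_sq_le_sq h2 hn0.le
  obtain ⟨z, hzdef⟩ : ∃ z, z = 31104 * r ^ 5 * (q : ℝ) / n := ⟨_, rfl⟩
  have hz0 : 0 ≤ z := by rw [hzdef]; positivity
  have hz : z ≤ 1 / 8 := by
    rw [hzdef, div_le_iff₀ hn0]
    have h1 : r ^ 6 ≤ r ^ 7 := pow_le_pow_right₀ hr (by norm_num)
    have h2 : 0 < r ^ 6 := by positivity
    have h3 : 31104 * r ^ 5 * (q : ℝ) ≤ 31104 * r ^ 5 * r := by gcongr
    nlinarith
  have hz3 : 2 * n * z ^ 3 ≤ (q : ℝ) ^ 3 / 160 := by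
    have h2 : 2 * n * z ^ 3 = 2 * 31104 ^ 3 * r ^ 15 * (q : ℝ) ^ 3 / n ^ 2 := by
      rw [hzdef]
      field_simp
    rw [h2, div_le_iff₀ (by positivity)]
    have h3 : 0 < (q : ℝ) ^ 3 := by positivity
    have h4 : 0 < r ^ 15 := by positivity
    have h5 : 160 * (2 * 31104 ^ 3) * r ^ 15 ≤ n ^ 2 := by nlinarith
    calc 2 * 31104 ^ 3 * r ^ 15 * (q : ℝ) ^ 3 = (160 * (2 * 31104 ^ 3) * r ^ 15) * ((q : ℝ) ^ 3 / 160) := by ring
      _ ≤ n ^ 2 * ((q : ℝ) ^ 3 / 160) := by gcongr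
      _ = (q : ℝ) ^ 3 / 160 * n ^ 2 := by ring
  have hpw : (10368 * r ^ 5 * (q : ℝ) ^ 2 / n) ^ q ≤ z ^ q * f := by
    have h1 : (10368 * r ^ 5 * (q : ℝ) ^ 2 / n) ^ q =
        (10368 * r ^ 5 * (q : ℝ) / n) ^ q * (q : ℝ) ^ q := by
      rw [← mul_pow]
      congr 1
      ring
    have h2 : z ^ q * f = (10368 * r ^ 5 * (q : ℝ) / n) ^ q * (3 ^ q * f) := by
      have : z = 10368 * r ^ 5 * (q : ℝ) / n * 3 := by rw [hzdef]; ring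
      rw [this, mul_pow]
      ring
    rw [h1, h2]
    exact mul_le_mul_of_nonneg_left hqq (by positivity)
  have hzq : 2 * n * z ^ q ≤ 27 / 160 * (1 / 2) ^ (q - 3) := by
    obtain ⟨k, rfl⟩ : ∃ k, q = k + 3 := ⟨q - 3, by omega⟩
    have h1 : z ^ k ≤ (1 / 8) ^ k := pow_le_pow_left₀ hz0 hz k
    have h3 := nf_cube k
    have h4 : ((k + 3 : ℕ) : ℝ) = (k : ℝ) + 3 := by push_cast; ring
    rw [h4] at hz3
    rw [Nat.add_sub_cancel]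
    calc 2 * n * z ^ (k + 3) = 2 * n * z ^ 3 * z ^ k := by ring
      _ ≤ ((k : ℝ) + 3) ^ 3 / 160 * (1 / 8) ^ k := by gcongr
      _ ≤ 27 * 4 ^ k / 160 * (1 / 8) ^ k := by gcongr
      _ = 27 / 160 * (4 ^ k * (1 / 8) ^ k) := by ring
      _ = 27 / 160 * (1 / 2) ^ k := by
          rw [← mul_pow]
          norm_num
  calc (c : ℝ) * (d : ℝ) / ((w ^ 2 / (1296 * (q : ℝ) ^ 2)) ^ q / f)
      ≤ (r ^ q / f) * ((2 * n) ^ (q + 1) / g) /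
        ((n ^ 2 / (5184 * r ^ 4 * (q : ℝ) ^ 2)) ^ q / f) := by
        gcongr
    _ = 2 * n * (10368 * r ^ 5 * (q : ℝ) ^ 2 / n) ^ q / g := by
        have h1 : (10368 * r ^ 5 * (q : ℝ) ^ 2 / n) ^ q *
            (n ^ 2 / (5184 * r ^ 4 * (q : ℝ) ^ 2)) ^ q = r ^ q * (2 * n) ^ q := by
          rw [← mul_pow, ← mul_pow]
          congr 1
          field_simp
          ring
        rw [div_eq_iff hden0.ne']
        calc (r ^ q / f) * ((2 * n) ^ (q + 1) / g) = 2 * n * (r ^ q * (2 * n) ^ q) / g / f := by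
              rw [pow_succ]
              field_simp
          _ = _ := by
              rw [← h1]
              ring
    _ ≤ 2 * n * (z ^ q * f) / g := by gcongr
    _ ≤ 2 * n * (z ^ q * g) / g := by gcongr
    _ = 2 * n * z ^ q := by
        field_simp
    _ ≤ 27 / 160 * (1 / 2) ^ (q - 3) := hzq

theorem num_ratio_f (n p : ℕ) (w : ℝ) (hn : 10 ^ 16 * (p + 1) ^ 15 ≤ n ^ 2) (hw0 : 0 < w)
    (hw : (n : ℝ) / (2 * ((p : ℝ) + 1) ^ 2) ≤ w) :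
    ∑ q ∈ Icc 3 (p + 1), ((p + 1).choose q : ℝ) * ((2 * n).choose (q + 1) : ℝ) /
      ((w ^ 2 / (1296 * (q : ℝ) ^ 2)) ^ q / (q.factorial : ℝ)) ≤ 1 / 2 := by
  have hr1 : (1 : ℝ) ≤ (p : ℝ) + 1 := by
    have : (0 : ℝ) ≤ p := Nat.cast_nonneg p
    linarith
  have hnR : 10 ^ 16 * ((p : ℝ) + 1) ^ 15 ≤ (n : ℝ) ^ 2 := by exact_mod_cast hn
  have hn0 : 0 < (n : ℝ) := by
    have h1 : n ≠ 0 := by
      rintro rfl
      have : 0 < 10 ^ 16 * (p + 1) ^ 15 := by positivity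
      omega
    exact_mod_cast Nat.pos_of_ne_zero h1
  have key : ∀ q ∈ Icc 3 (p + 1), ((p + 1).choose q : ℝ) * ((2 * n).choose (q + 1) : ℝ) /
      ((w ^ 2 / (1296 * (q : ℝ) ^ 2)) ^ q / (q.factorial : ℝ)) ≤ 27 / 160 * (1 / 2) ^ (q - 3) := by
    intro q hq
    rw [mem_Icc] at hq
    refine nf_term (g := ((q + 1).factorial : ℝ)) hr1 hn0 hnR hw hq.1 (by exact_mod_cast hq.2)
      (by exact_mod_cast q.factorial_pos)
      (by exact_mod_cast Nat.factorial_le (Nat.le_succ q)) ?_ ?_ (nf_self_pow q)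
    · have := Nat.choose_le_pow_div (α := ℝ) q (p + 1)
      push_cast at this
      exact this
    · have := Nat.choose_le_pow_div (α := ℝ) (q + 1) (2 * n)
      push_cast at this ⊢
      exact this
  have hI : Icc 3 (p + 1) = Ico 3 (p + 2) := by
    ext q
    rw [mem_Icc, mem_Ico]
    omega
  calc ∑ q ∈ Icc 3 (p + 1), ((p + 1).choose q : ℝ) * ((2 * n).choose (q + 1) : ℝ) /
      ((w ^ 2 / (1296 * (q : ℝ) ^ 2)) ^ q / (q.factorial : ℝ))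
      ≤ ∑ q ∈ Icc 3 (p + 1), 27 / 160 * (1 / 2 : ℝ) ^ (q - 3) := sum_le_sum key
    _ = ∑ k ∈ range (p + 2 - 3), 27 / 160 * (1 / 2 : ℝ) ^ k := by
        rw [hI, sum_Ico_eq_sum_range]
        refine sum_congr rfl fun k _ => ?_
        rw [Nat.add_sub_cancel_left]
    _ = 27 / 160 * ∑ k ∈ range (p + 2 - 3), (1 / (2 : ℝ)) ^ k := (mul_sum _ _ _).symm
    _ ≤ 27 / 160 * 2 := by
        gcongr
        exact sum_geometric_two_le _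
    _ ≤ 1 / 2 := by norm_num

end Pool.Agent.CatW
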