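import Pool.Agent.CatW.Inside
import Pool.Agent.CatW.FmEq
import Pool.Agent.CatW.FmCell
import Pool.Agent.CatW.FmMoveB
import Pool.Agent.CatW.FmMoveC
import Pool.Agent.CatW.FmCntB
import Pool.Agent.CatW.FmCntC
import Pool.Agent.CatW.NumF
import Pool.Agent.CatW.ConvT

/-!
Module FmMain: for every pair of trees the number of common convex partitions with `k` classes is
non-increasing for `10 ^ 16 (n - k) ^ 15 ≤ n ^ 2`.
-/

set_option autoImplicit false

namespace Pool.Agent.CatW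

open Finset Pool.Agent.Hhelper51.Cat Pool.Agent.CatU

variable {n : ℕ}

theorem two_card {T F : PhyloTree n} {p : ℕ} {D : Finset (Finset (Fin n))} (hD : Fm T F p D)
    {C₁ C₂ : Finset (Fin n)} (h1 : C₁ ∈ D) (h2 : C₂ ∈ D) (hne : C₁ ≠ C₂) :
    C₁.card + C₂.card ≤ p + 2 := by
  classical
  have e1 : ∑ A ∈ D, (A.card - 1) + D.card = ∑ A ∈ D, A.card := by
    rw [card_eq_sum_ones, ← sum_add_distrib]
    refine sum_congr rfl fun A hA => ?_
    have := hD.two A hA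
    omega
  have e2 : ∑ A ∈ D, (A.card - 1) = p := by
    have := hD.sum
    omega
  have e3 : ∑ A ∈ ({C₁, C₂} : Finset (Finset (Fin n))), (A.card - 1) ≤ ∑ A ∈ D, (A.card - 1) := by
    refine sum_le_sum_of_subset ?_
    intro A hA
    rw [mem_insert, mem_singleton] at hA
    rcases hA with rfl | rfl <;> assumption
  rw [sum_pair hne, e2] at e3
  have := hD.two _ h1
  have := hD.two _ h2
  omega

theorem pair_mono (hn3 : 3 ≤ n) (T F : PhyloTree n) (p : ℕ) (hp : 1 ≤ p)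
    (h : 10 ^ 16 * (p + 1) ^ 15 ≤ n ^ 2) :
    T.commonCount F (n - p) ≤ T.commonCount F (n - (p + 1)) := by
  classical
  have hr0 : (1 : ℝ) ≤ (p : ℝ) := by exact_mod_cast hp
  have hr1 : (2 : ℝ) ≤ (p : ℝ) + 1 := by linarith
  have h7 : 10 ^ 8 * (p + 1) ^ 7 ≤ n := by
    by_contra hcon
    push Not at hcon
    have e1 : n ^ 2 < (10 ^ 8 * (p + 1) ^ 7) ^ 2 := Nat.pow_lt_pow_left hcon (by norm_num)
    have e2 : (10 ^ 8 * (p + 1) ^ 7) ^ 2 = 10 ^ 16 * (p + 1) ^ 14 := by ring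
    have e3 : 10 ^ 16 * (p + 1) ^ 14 ≤ 10 ^ 16 * (p + 1) ^ 15 :=
      Nat.mul_le_mul_left _ (Nat.pow_le_pow_right (by omega) (by norm_num))
    omega
  have hnR : (10 : ℝ) ^ 8 * ((p : ℝ) + 1) ^ 7 ≤ n := by exact_mod_cast h7
  have hp9 : p + 1 ≤ (p + 1) ^ 7 := Nat.le_self_pow (by norm_num) _
  have hpn : p + 1 ≤ n := by
    have : (p + 1) ^ 7 ≤ 10 ^ 8 * (p + 1) ^ 7 := Nat.le_mul_of_pos_left _ (by norm_num)
    omega
  rw [commonCount_eq_fm T F p (by omega), commonCount_eq_fm T F (p + 1) hpn]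
  set FF := univ.filter (fun D : Finset (Finset (Fin n)) => Fm T F p D) with hFF
  set N := (univ.filter (fun D : Finset (Finset (Fin n)) => Fm T F (p + 1) D)).card with hN
  obtain ⟨w, hwdef⟩ : ∃ w : ℝ, w = (n : ℝ) / (2 * ((p : ℝ) + 1) ^ 2) := ⟨_, rfl⟩
  have hn0 : (0 : ℝ) < n := by exact_mod_cast (by omega : 0 < n)
  have hw0 : 0 < w := by rw [hwdef]; positivity
  have hwbig : (10 : ℝ) ^ 7 * ((p : ℝ) + 1) ^ 5 ≤ w := by
    rw [hwdef, le_div_iff₀ (by positivity)]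
    have e : (10 : ℝ) ^ 7 * ((p : ℝ) + 1) ^ 5 * (2 * ((p : ℝ) + 1) ^ 2) =
        2 * 10 ^ 7 * ((p : ℝ) + 1) ^ 7 := by ring
    rw [e]
    have : (0 : ℝ) ≤ ((p : ℝ) + 1) ^ 7 := by positivity
    nlinarith
  have hwle : ∀ W : Finset (Fin n), n ≤ 2 * p + p ^ 2 * W.card → w ≤ (W.card : ℝ) := by
    intro W hW
    have hW' : (n : ℝ) ≤ 2 * p + (p : ℝ) ^ 2 * W.card := by exact_mod_cast hW
    have h4 : 4 * (p : ℝ) ≤ n := by
      have e1 : (p : ℝ) + 1 ≤ ((p : ℝ) + 1) ^ 7 := by exact_mod_cast hp9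
      nlinarith
    rw [hwdef, div_le_iff₀ (by positivity)]
    have h5 : (0 : ℝ) ≤ (W.card : ℝ) := Nat.cast_nonneg _
    nlinarith [mul_nonneg h5 (by linarith : (0 : ℝ) ≤ (p : ℝ)),
      mul_nonneg h5 (by positivity : (0 : ℝ) ≤ (p : ℝ) ^ 2)]
  obtain ⟨w0, hw0def⟩ : ∃ w0 : ℕ, w0 = 4 * (p + 1) := ⟨_, rfl⟩
  have hw0le : (w0 : ℝ) ≤ w := by
    rw [hw0def]
    push_cast
    have e1 : (1 : ℝ) ≤ ((p : ℝ) + 1) ^ 4 := one_le_pow₀ (by linarith)
    have e2 : ((p : ℝ) + 1) ^ 5 = ((p : ℝ) + 1) ^ 4 * ((p : ℝ) + 1) := by ring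
    have e3 : (p : ℝ) + 1 ≤ ((p : ℝ) + 1) ^ 5 := by
      rw [e2]
      nlinarith
    nlinarith
  obtain ⟨a, ha⟩ : ∃ a : ℕ → ℝ, ∀ q, a q = (w ^ 2 / (1296 * (q : ℝ) ^ 2)) ^ q /
    (q.factorial : ℝ) := ⟨_, fun _ => rfl⟩
  set B := FF.filter (fun D => ∃ C ∈ D, ∃ W : Finset (Fin n), w0 ≤ W.card ∧
    (∀ u ∈ W, ∀ A ∈ D, u ∉ A) ∧
    ∀ u ∈ W, Fm T F (p + 1) (insert (insert u C) (D.erase C))) with hB
  set Bq : ℕ → Finset (Finset (Finset (Fin n))) := fun q => FF.filter (fun D =>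
    ∃ C₁ ∈ D, ∃ C₂ ∈ D, C₁ ≠ C₂ ∧ C₁.card + C₂.card = q + 1 ∧
      ∃ G : Finset (Finset (Finset (Fin n))), a q ≤ (G.card : ℝ) ∧ ∀ E ∈ G, E.card = q ∧
        Disjoint ((D.erase C₁).erase C₂) E ∧
        Fm T F (p + 1) (((D.erase C₁).erase C₂) ∪ E)) with hBq
  have hcover : FF ⊆ B ∪ (Icc 3 (p + 1)).biUnion Bq := by
    intro D hD
    have hDF : Fm T F p D := (mem_filter.1 hD).2
    obtain ⟨C₁, h1, C₂, h2, W, hW, hT, hF, hcard⟩ := exists_cell T F hp hDF
    have hWc := hwle W hcard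
    rw [mem_union]
    by_cases hne : C₁ = C₂
    · subst hne
      refine Or.inl (mem_filter.2 ⟨hD, C₁, h1, W, ?_, hW, fun u hu => ?_⟩)
      · exact_mod_cast hw0le.trans hWc
      · exact move_b T F hDF h1 hW hT hF hu
    · refine Or.inr ?_
      have hc := two_card hDF h1 h2 hne
      have hc1 := hDF.two _ h1
      have hc2 := hDF.two _ h2
      obtain ⟨q, hq⟩ : ∃ q, C₁.card + C₂.card = q + 1 := ⟨C₁.card + C₂.card - 1, by omega⟩
      have hq3 : 3 ≤ q := by omega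
      have hqp : q ≤ p + 1 := by omega
      rw [mem_biUnion]
      refine ⟨q, mem_Icc.2 ⟨hq3, hqp⟩, mem_filter.2 ⟨hD, C₁, h1, C₂, h2, hne, hq,
        univ.filter (fun E : Finset (Finset (Fin n)) => E.card = q ∧ PairsIn T F W E), ?_, ?_⟩⟩
      · have hqR : (q : ℝ) ≤ (p : ℝ) + 1 := by exact_mod_cast hqp
        have hq0 : (0 : ℝ) < q := by exact_mod_cast (by omega : 0 < q)
        have h324 : 324 * q ^ 2 ≤ W.card := by
          have e1 : (324 : ℝ) * (q : ℝ) ^ 2 ≤ W.card := by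
            refine le_trans ?_ (hwbig.trans hWc)
            have e2 : (q : ℝ) ^ 2 ≤ ((p : ℝ) + 1) ^ 2 := pow_le_pow_left₀ hq0.le hqR 2
            have e3 : ((p : ℝ) + 1) ^ 2 ≤ ((p : ℝ) + 1) ^ 5 :=
              pow_le_pow_right₀ (by linarith) (by norm_num)
            nlinarith
          exact_mod_cast e1
        refine le_trans ?_ (inside_count hn3 T F W q (by omega) h324)
        rw [ha]
        gcongr
      · intro E hE
        rw [mem_filter] at hE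
        have := move_c T F hDF h1 h2 hne hq hW hT hF hE.2.2 hE.2.1
        exact ⟨hE.2.1, this.2, this.1⟩
  have hBc : (B.card : ℝ) ≤ (N : ℝ) / 2 := by
    have h1 := count_b T F p w0 B (fun D hD => (mem_filter.1 hD).2)
    rw [← hN, hw0def] at h1
    have h2 : 4 * ((p : ℝ) + 1) * B.card ≤ 2 * ((p : ℝ) + 1) * N := by exact_mod_cast h1
    have h3 : (0 : ℝ) < (p : ℝ) + 1 := by linarith
    have h4 : (2 * ((p : ℝ) + 1)) * (2 * (B.card : ℝ)) ≤ (2 * ((p : ℝ) + 1)) * N := by linarith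
    have h5 := le_of_mul_le_mul_left h4 (by linarith)
    linarith
  have hBqc : ∀ q ∈ Icc 3 (p + 1), ((Bq q).card : ℝ) ≤
      ((p + 1).choose q : ℝ) * ((2 * n).choose (q + 1) : ℝ) / a q * N := by
    intro q hq
    rw [mem_Icc] at hq
    have hq0 : (0 : ℝ) < q := by exact_mod_cast (by omega : 0 < q)
    have hapos : 0 < a q := by
      rw [ha]
      have : (0 : ℝ) < (q.factorial : ℝ) := by exact_mod_cast Nat.factorial_pos q
      positivity
    have h1 := count_c T F p q (a q) (Bq q) (fun D hD => (mem_filter.1 hD).2)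
    rw [← hN] at h1
    rw [div_mul_eq_mul_div, le_div_iff₀ hapos, mul_comm]
    exact h1
  have hsum := num_ratio_f n p w h hw0 (le_of_eq hwdef.symm)
  have hfin : (FF.card : ℝ) ≤ N := by
    calc (FF.card : ℝ) ≤ ((B ∪ (Icc 3 (p + 1)).biUnion Bq).card : ℝ) := by
          exact_mod_cast card_le_card hcover
      _ ≤ (B.card : ℝ) + (((Icc 3 (p + 1)).biUnion Bq).card : ℝ) := by
          exact_mod_cast card_union_le _ _
      _ ≤ (B.card : ℝ) + ∑ q ∈ Icc 3 (p + 1), ((Bq q).card : ℝ) := by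
          have := card_biUnion_le (s := Icc 3 (p + 1)) (t := Bq)
          have h2 : (((Icc 3 (p + 1)).biUnion Bq).card : ℝ) ≤
              ∑ q ∈ Icc 3 (p + 1), ((Bq q).card : ℝ) := by exact_mod_cast this
          linarith
      _ ≤ (N : ℝ) / 2 + ∑ q ∈ Icc 3 (p + 1),
            ((p + 1).choose q : ℝ) * ((2 * n).choose (q + 1) : ℝ) / a q * N :=
          add_le_add hBc (sum_le_sum hBqc)
      _ = (N : ℝ) / 2 + (∑ q ∈ Icc 3 (p + 1),
            ((p + 1).choose q : ℝ) * ((2 * n).choose (q + 1) : ℝ) /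
            ((w ^ 2 / (1296 * (q : ℝ) ^ 2)) ^ q / (q.factorial : ℝ))) * N := by
          rw [sum_mul]
          simp only [ha]
      _ ≤ (N : ℝ) / 2 + 1 / 2 * N := by
          have : (0 : ℝ) ≤ N := Nat.cast_nonneg _
          have := mul_le_mul_of_nonneg_right hsum this
          linarith
      _ = N := by ring
  exact_mod_cast hfin

/-- For every pair of trees. -/
theorem pair_mono' (hn3 : 3 ≤ n) (T F : PhyloTree n) (k : ℕ) (hk : k < n)
    (h : 10 ^ 16 * (n - k) ^ 15 ≤ n ^ 2) : T.commonCount F (k + 1) ≤ T.commonCount F k := by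
  obtain ⟨r, hr⟩ : ∃ r, n - k = r + 1 := ⟨n - k - 1, by omega⟩
  have e1 : k + 1 = n - r := by omega
  have e2 : k = n - (r + 1) := by omega
  rw [hr] at h
  rw [e1, e2]
  rcases Nat.eq_zero_or_pos r with rfl | hr0
  · have h1 := commonCount_top T F
    have h2 := choose_le_commonCount T F 1 le_rfl
    have h3 : 1 ≤ n.choose (1 + 1) := Nat.choose_pos (by omega)
    rw [Nat.sub_zero]
    simp only [Nat.zero_add]
    omega
  · exact pair_mono hn3 T F r hr0 h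

theorem both_mono (hn3 : 3 ≤ n) {x : ℕ → ℕ} (hx : x = s n ∨ x = c n) (k : ℕ) (hk : k < n)
    (h : 10 ^ 16 * (n - k) ^ 15 ≤ n ^ 2) : x (k + 1) ≤ x k := by
  obtain ⟨T0, hT0, _⟩ := exists_caterpillar hn3 (1 : Equiv.Perm (Fin n))
  rcases hx with rfl | rfl
  · have hne : {m | ∃ T F : PhyloTree n, m = T.commonCount F k}.Nonempty := ⟨_, T0, T0, rfl⟩
    obtain ⟨T, F, heq⟩ := Nat.sInf_mem hne
    have heq' : s n k = T.commonCount F k := heq
    rw [heq']
    exact (Nat.sInf_le ⟨T, F, rfl⟩ : s n (k + 1) ≤ T.commonCount F (k + 1)).trans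
      (pair_mono' hn3 T F k hk h)
  · have hne : {m | ∃ T F : PhyloTree n, T.IsCaterpillar ∧ F.IsCaterpillar ∧
        m = T.commonCount F k}.Nonempty := ⟨_, T0, T0, hT0, hT0, rfl⟩
    obtain ⟨T, F, hT, hF, heq⟩ := Nat.sInf_mem hne
    have heq' : c n k = T.commonCount F k := heq
    rw [heq']
    exact (Nat.sInf_le ⟨T, F, hT, hF, rfl⟩ : c n (k + 1) ≤ T.commonCount F (k + 1)).trans
      (pair_mono' hn3 T F k hk h)

end Pool.Agent.CatW
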