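import Pool.Agent.CatW.Split

/-!
Module GroupR: groups inside a set of leaves.
-/

set_option autoImplicit false

namespace Pool.Agent.CatW

open Finset Pool.Agent.Hhelper51.Cat

variable {n : ℕ}

theorem grpR (hn : 3 ≤ n) (T : PhyloTree n) (m : ℕ) (hm : 1 ≤ m) (k : ℕ) :
    ∀ R : Finset (Fin n), R.card = k → ∃ (g : ℕ) (τ : Fin n → ℕ), g * m ≤ R.card ∧ (∀ a, τ a ≤ g) ∧
      (R.filter (fun a => τ a = g)).card ≤ m ∧ (∀ i < g, (R.filter (fun a => τ a = i)).card ≤ 2 * m) ∧
      ∀ A B : Finset (Fin n), ∀ i j : ℕ, A ⊆ R → B ⊆ R → i < g → j < g → i ≠ j → (∀ a ∈ A, τ a = i) →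
        (∀ b ∈ B, τ b = j) → Disjoint (T.span A) (T.span B) := by
  induction k using Nat.strong_induction_on with
  | _ k ih =>
    intro R hR
    by_cases h : m < R.card
    · obtain ⟨S, hS, h1, h2⟩ := exists_split hn T R m hm h
      have h3 : (R \ S).card + (S ∩ R).card = R.card := by
        rw [inter_comm]
        exact card_sdiff_add_card_inter R S
      obtain ⟨g, τ, e1, e2, e3, e4, e5⟩ := ih (R \ S).card (by omega) (R \ S) rfl
      have t0 : ∀ a, (if a ∈ S then 0 else τ a + 1) = 0 → a ∈ S := by
        intro a ha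
        by_contra h4
        rw [if_neg h4] at ha
        omega
      have t1 : ∀ a i, (if a ∈ S then 0 else τ a + 1) = i + 1 → a ∉ S ∧ τ a = i := by
        intro a i ha
        by_cases h4 : a ∈ S
        · rw [if_pos h4] at ha
          omega
        · rw [if_neg h4] at ha
          exact ⟨h4, by omega⟩
      refine ⟨g + 1, fun a => if a ∈ S then 0 else τ a + 1, ?_, ?_, ?_, ?_, ?_⟩
      · have : (g + 1) * m = g * m + m := by ring
        omega
      · intro a
        by_cases h4 : a ∈ S
        · simp [h4]
        · simp [h4, e2 a]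
      · refine (card_le_card ?_).trans e3
        intro a ha
        obtain ⟨h4, h5⟩ := mem_filter.1 ha
        obtain ⟨h6, h7⟩ := t1 a g h5
        exact mem_filter.2 ⟨mem_sdiff.2 ⟨h4, h6⟩, h7⟩
      · intro i hi
        rcases i with _ | i
        · refine (card_le_card ?_).trans h2.le
          intro a ha
          obtain ⟨h4, h5⟩ := mem_filter.1 ha
          exact mem_inter.2 ⟨t0 a h5, h4⟩
        · refine (card_le_card ?_).trans (e4 i (by omega))
          intro a ha
          obtain ⟨h4, h5⟩ := mem_filter.1 ha
          obtain ⟨h6, h7⟩ := t1 a i h5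
          exact mem_filter.2 ⟨mem_sdiff.2 ⟨h4, h6⟩, h7⟩
      · intro A B i j hA hB hi hj hij ha hb
        rcases i with _ | i
        · rcases j with _ | j
          · exact absurd rfl hij
          · refine hS A B (fun a h4 => t0 a (ha a h4)) ?_
            rw [disjoint_left]
            intro b h4
            exact (t1 b j (hb b h4)).1
        · rcases j with _ | j
          · refine (hS B A (fun b h4 => t0 b (hb b h4)) ?_).symm
            rw [disjoint_left]
            intro a h4
            exact (t1 a i (ha a h4)).1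
          · exact e5 A B i j (fun a h4 => mem_sdiff.2 ⟨hA h4, (t1 a i (ha a h4)).1⟩)
              (fun b h4 => mem_sdiff.2 ⟨hB h4, (t1 b j (hb b h4)).1⟩) (by omega) (by omega) (by omega)
              (fun a h4 => (t1 a i (ha a h4)).2) (fun b h4 => (t1 b j (hb b h4)).2)
    · refine ⟨0, fun _ => 0, by omega, fun _ => le_refl _, ?_, fun i hi => absurd hi (by omega), ?_⟩
      · refine (card_le_card (filter_subset _ _)).trans (by omega)
      · intro A B i j _ _ hi
        omega

end Pool.Agent.CatW
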