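import Pool.Agent.CatW.FmDefs
import Pool.Agent.CatW.GroupR
import Pool.Agent.CatW.Cells
import Pool.Agent.CatW.Fam
import Pool.Agent.CatU.TreeLow

/-!
Module Inside: many families of `q` pairs inside a set `W` of leaves.

Proof. Let `w = W.card`, `m = w / (8 q)` (so `1 ≤ m`), and let `ι : Fin w → Fin n` be injective with
image `W` (for example `W.orderEmbOfFin rfl`). By `grpR` for `T` and for `F`, with `R = W`, there are
`g, τ` and `h, κ`; then `Sizes (n := w) m g (τ ∘ ι)` and `Sizes (n := w) m h (κ ∘ ι)` (cardinalities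
are transported by `ι`). `ext_count` and `good_count` (as in `commonCount_lower` in
`Pool.Agent.CatW.Main`) give at least `(w ^ 2 / (1296 q ^ 2)) ^ q / q!` good families `D₀` of `q` pairs
in `Fin w`. The map `D₀ ↦ D₀.image (fun A => A.image ι)` is injective and its values are in the set on
the right: different members of `D₀` have constant different values of `τ ∘ ι`, all below `g`, so
their images have disjoint spans in `T`; the same for `F`.
-/

set_option autoImplicit false

namespace Pool.Agent.CatW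

open Finset Pool.Agent.Hhelper51.Cat

variable {n : ℕ}

private theorem sizes_comp {m g : ℕ} {W : Finset (Fin n)} {τ : Fin n → ℕ} (e : Fin W.card ↪ Fin n)
    (he : ∀ a, e a ∈ W) (h1 : g * m ≤ W.card) (h2 : ∀ a, τ a ≤ g)
    (h3 : (W.filter (fun a => τ a = g)).card ≤ m)
    (h4 : ∀ i < g, (W.filter (fun a => τ a = i)).card ≤ 2 * m) : Sizes m g (fun a => τ (e a)) := by
  have key : ∀ c : ℕ, (univ.filter (fun a : Fin W.card => τ (e a) = c)).card ≤
      (W.filter (fun a => τ a = c)).card := by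
    intro c
    refine card_le_card_of_injOn e ?_ e.injective.injOn
    intro a ha
    have ha' := (mem_filter.1 (mem_coe.1 ha)).2
    exact mem_coe.2 (mem_filter.2 ⟨he a, ha'⟩)
  exact ⟨h1, fun a => h2 (e a), (key g).trans h3, fun i hi => (key i).trans (h4 i hi)⟩

private theorem span_map {W : Finset (Fin n)} (T : PhyloTree n) {g : ℕ} {τ : Fin n → ℕ}
    (e : Fin W.card ↪ Fin n) (he : ∀ a, e a ∈ W)
    (hs : ∀ A B : Finset (Fin n), ∀ i j : ℕ, A ⊆ W → B ⊆ W → i < g → j < g → i ≠ j →
      (∀ a ∈ A, τ a = i) → (∀ b ∈ B, τ b = j) → Disjoint (T.span A) (T.span B))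
    {A B : Finset (Fin W.card)} (hA : A.Nonempty) (hB : B.Nonempty)
    (sA : ∀ a ∈ A, ∀ b ∈ A, τ (e a) = τ (e b)) (sB : ∀ a ∈ B, ∀ b ∈ B, τ (e a) = τ (e b))
    (lA : ∀ a ∈ A, τ (e a) < g) (lB : ∀ a ∈ B, τ (e a) < g)
    (hne : ∀ a ∈ A, ∀ b ∈ B, τ (e a) ≠ τ (e b)) :
    Disjoint (T.span (A.map e)) (T.span (B.map e)) := by
  obtain ⟨a, ha⟩ := hA
  obtain ⟨b, hb⟩ := hB
  refine hs (A.map e) (B.map e) (τ (e a)) (τ (e b)) ?_ ?_ (lA a ha) (lB b hb) (hne a ha b hb) ?_ ?_
  · intro x hx
    obtain ⟨y, _, rfl⟩ := mem_map.1 hx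
    exact he y
  · intro x hx
    obtain ⟨y, _, rfl⟩ := mem_map.1 hx
    exact he y
  · intro x hx
    obtain ⟨y, hy, rfl⟩ := mem_map.1 hx
    exact sA y hy a ha
  · intro x hx
    obtain ⟨y, hy, rfl⟩ := mem_map.1 hx
    exact sB y hy b hb

open Classical in
theorem inside_count (hn3 : 3 ≤ n) (T F : PhyloTree n) (W : Finset (Fin n)) (q : ℕ) (hq : 1 ≤ q)
    (h : 324 * q ^ 2 ≤ W.card) :
    ((W.card : ℝ) ^ 2 / (1296 * (q : ℝ) ^ 2)) ^ q / (q.factorial : ℝ) ≤
      ((univ.filter (fun D : Finset (Finset (Fin n)) => D.card = q ∧ PairsIn T F W D)).card : ℝ) := by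
  obtain ⟨m, hm⟩ : ∃ m, m = W.card / (8 * q) := ⟨_, rfl⟩
  have hm1 : 1 ≤ m := by
    rw [hm, Nat.one_le_div_iff (by omega)]
    nlinarith
  obtain ⟨g, τ, a1, a2, a3, a4, a5⟩ := grpR hn3 T m hm1 W.card W rfl
  obtain ⟨g', κ, b1, b2, b3, b4, b5⟩ := grpR hn3 F m hm1 W.card W rfl
  obtain ⟨e, he⟩ : ∃ e : Fin W.card ↪ Fin n, ∀ a, e a ∈ W :=
    ⟨(W.orderEmbOfFin rfl).toEmbedding, fun a => W.orderEmbOfFin_mem rfl a⟩
  have hτ := sizes_comp e he a1 a2 a3 a4
  have hκ := sizes_comp e he b1 b2 b3 b4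
  have h1 := good_count (g := g) (h := g') (r := q) (τ := fun a => τ (e a))
    (κ := fun a => κ (e a)) ((W.card : ℝ) ^ 2 / (1296 * (q : ℝ) ^ 2)) (by positivity)
    (fun D hD hc => ext_count hτ hκ hq h hm D hD hc)
  have h2 : (univ.filter (fun D : Finset (Finset (Fin W.card)) =>
      D.card = q ∧ Good g g' (fun a => τ (e a)) (fun a => κ (e a)) D)).card ≤
      (univ.filter (fun D : Finset (Finset (Fin n)) => D.card = q ∧ PairsIn T F W D)).card := by
    refine card_le_card_of_injOn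
      (fun D => D.map (⟨fun A => A.map e, map_injective e⟩ :
        Finset (Fin W.card) ↪ Finset (Fin n))) ?_ (map_injective _).injOn
    intro D hD
    obtain ⟨hc, hG⟩ := (mem_filter.1 (mem_coe.1 hD)).2
    refine mem_coe.2 (mem_filter.2 ⟨mem_univ _, ?_, ?_⟩)
    · exact (card_map _).trans hc
    · have hmem : ∀ A, A ∈ D.map (⟨fun A => A.map e, map_injective e⟩ :
          Finset (Fin W.card) ↪ Finset (Fin n)) → ∃ B ∈ D, B.map e = A := by
        intro A hA
        exact mem_map.1 hA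
      have hne0 : ∀ A ∈ D, A.Nonempty := fun A hA => card_pos.1 (by rw [hG.two A hA]; norm_num)
      constructor
      · intro A hA
        obtain ⟨B, hB, rfl⟩ := hmem A hA
        rw [card_map]
        exact hG.two B hB
      · intro A hA
        obtain ⟨B, hB, rfl⟩ := hmem A hA
        intro x hx
        obtain ⟨y, _, rfl⟩ := mem_map.1 hx
        exact he y
      · intro A hA A' hA' hne
        obtain ⟨B, hB, rfl⟩ := hmem A hA
        obtain ⟨B', hB', rfl⟩ := hmem A' hA'
        have hBB : B ≠ B' := fun h0 => hne (by rw [h0])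
        exact span_map T e he a5 (hne0 B hB) (hne0 B' hB')
          (fun a ha b hb => (hG.same B hB a ha b hb).1)
          (fun a ha b hb => (hG.same B' hB' a ha b hb).1)
          (fun a ha => (hG.lt B hB a ha).1) (fun a ha => (hG.lt B' hB' a ha).1)
          (fun a ha b hb => (hG.ne B hB B' hB' hBB a ha b hb).1)
      · intro A hA A' hA' hne
        obtain ⟨B, hB, rfl⟩ := hmem A hA
        obtain ⟨B', hB', rfl⟩ := hmem A' hA'
        have hBB : B ≠ B' := fun h0 => hne (by rw [h0])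
        exact span_map F e he b5 (hne0 B hB) (hne0 B' hB')
          (fun a ha b hb => (hG.same B hB a ha b hb).2)
          (fun a ha b hb => (hG.same B' hB' a ha b hb).2)
          (fun a ha => (hG.lt B hB a ha).2) (fun a ha => (hG.lt B' hB' a ha).2)
          (fun a ha b hb => (hG.ne B hB B' hB' hBB a ha b hb).2)
  rw [div_le_iff₀ (by positivity)]
  refine h1.trans ?_
  rw [mul_comm]
  apply mul_le_mul_of_nonneg_right _ (by positivity)
  exact_mod_cast h2

end Pool.Agent.CatW
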