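import Mathlib

/-!
Module NumA: comparison of the upper bound for `r` with the lower bound for `r + 1`.

Proof. Equivalent: `800 ^ r * 1296 ^ (r + 1) * f ≤ n ^ 2` with
`f = (r + 1) ^ (2 (r + 1)) * (r + 1)! / r ^ (3 r)`. As `(r + 1)! ≤ (r + 1) ^ (r + 1)` and
`(1 + 1 / r) ^ r ≤ 3`, `f ≤ (r + 1) ^ 3 * 27 ≤ 216 * (27 / 8) ^ r` (Bernoulli:
`r + 1 ≤ 2 (3 / 2) ^ r`). And `n ^ 2 ≥ (4 * 10 ^ 6) ^ (r + 1)`, while
`800 ^ r * 1296 ^ (r + 1) * 216 * (27 / 8) ^ r = 1296 * 216 * (3499200) ^ r`.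
-/

set_option autoImplicit false

namespace Pool.Agent.CatW

private theorem num_e (r : ℕ) (hr : 1 ≤ r) : ((r + 1 : ℕ) : ℝ) ^ r ≤ 3 * (r : ℝ) ^ r := by
  have h0 : (0 : ℝ) < r := by exact_mod_cast hr
  have h1 : (((r + 1 : ℕ) : ℝ)) = r * (1 / (r : ℝ) + 1) := by
    push_cast
    field_simp
    ring
  have h2 : 1 / (r : ℝ) + 1 ≤ Real.exp (1 / (r : ℝ)) := Real.add_one_le_exp _
  have h3 : (1 / (r : ℝ) + 1) ^ r ≤ 3 := by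
    calc (1 / (r : ℝ) + 1) ^ r ≤ Real.exp (1 / (r : ℝ)) ^ r := pow_le_pow_left₀ (by positivity) h2 r
      _ = Real.exp 1 := by
        rw [← Real.exp_nat_mul]
        congr 1
        field_simp
      _ ≤ 3 := by
        have := Real.exp_one_lt_d9
        linarith
  rw [h1, mul_pow, mul_comm]
  exact mul_le_mul_of_nonneg_right h3 (by positivity)

private theorem num_b (r : ℕ) : ((r + 1 : ℕ) : ℝ) ≤ 2 * (3 / 2 : ℝ) ^ r := by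
  have h := one_add_mul_le_pow (a := (1 / 2 : ℝ)) (by norm_num) r
  have e : (1 : ℝ) + 1 / 2 = 3 / 2 := by norm_num
  rw [e] at h
  push_cast
  have : (0 : ℝ) ≤ r := Nat.cast_nonneg r
  linarith

private theorem num_c (r : ℕ) : (800 : ℝ) ^ r * 1296 ^ (r + 1) * (27 * (2 * (3 / 2 : ℝ) ^ r) ^ 3) ≤ 4000000 ^ (r + 1) := by
  have h1 : (800 : ℝ) ^ r * 1296 ^ r * ((3 / 2 : ℝ) ^ r) ^ 3 = 3499200 ^ r := by
    rw [← pow_mul, mul_comm r 3, pow_mul, ← mul_pow, ← mul_pow]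
    norm_num
  have h2 : (800 : ℝ) ^ r * 1296 ^ (r + 1) * (27 * (2 * (3 / 2 : ℝ) ^ r) ^ 3) = 279936 * 3499200 ^ r := by
    rw [← h1, pow_succ]
    ring
  have h3 : (3499200 : ℝ) ^ r ≤ 4000000 ^ r := pow_le_pow_left₀ (by norm_num) (by norm_num) r
  have h4 : (0 : ℝ) < 4000000 ^ r := by positivity
  rw [h2, pow_succ]
  nlinarith

theorem num_mono (n r : ℕ) (hr : 1 ≤ r) (h : 2000 ^ (r + 1) ≤ n) :
    (800 * (n : ℝ) ^ 2 / (r : ℝ) ^ 3) ^ r ≤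
      ((n : ℝ) ^ 2 / (1296 * ((r + 1 : ℕ) : ℝ) ^ 2)) ^ (r + 1) / ((r + 1).factorial : ℝ) := by
  have h0 : (0 : ℝ) < r := by exact_mod_cast hr
  have hM : (0 : ℝ) < ((r + 1 : ℕ) : ℝ) := by positivity
  have hF : (0 : ℝ) < ((r + 1).factorial : ℝ) := by exact_mod_cast Nat.factorial_pos _
  have hX : (4000000 : ℝ) ^ (r + 1) ≤ (n : ℝ) ^ 2 := by
    have h1 : (2000 : ℝ) ^ (r + 1) ≤ n := by exact_mod_cast h
    have h2 : ((2000 : ℝ) ^ (r + 1)) ^ 2 ≤ (n : ℝ) ^ 2 := pow_le_pow_left₀ (by positivity) h1 2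
    refine le_trans (le_of_eq ?_) h2
    rw [← pow_mul, mul_comm (r + 1) 2, pow_mul]
    norm_num
  have hFM : ((r + 1).factorial : ℝ) ≤ ((r + 1 : ℕ) : ℝ) ^ (r + 1) := by exact_mod_cast Nat.factorial_le_pow (r + 1)
  have he := num_e r hr
  have hb := num_b r
  have hc := num_c r
  obtain ⟨M, hMe⟩ : ∃ M : ℝ, M = ((r + 1 : ℕ) : ℝ) := ⟨_, rfl⟩
  obtain ⟨F, hFe⟩ : ∃ F : ℝ, F = ((r + 1).factorial : ℝ) := ⟨_, rfl⟩
  obtain ⟨X, hXe⟩ : ∃ X : ℝ, X = (n : ℝ) ^ 2 := ⟨_, rfl⟩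
  rw [← hMe] at hM hFM he hb ⊢
  rw [← hFe] at hF hFM ⊢
  rw [← hXe] at hX ⊢
  have hX0 : 0 < X := lt_of_lt_of_le (by positivity) hX
  rw [div_pow, div_pow, div_div, div_le_div_iff₀ (by positivity) (by positivity)]
  have hR : (0 : ℝ) < (r : ℝ) ^ r := by positivity
  have k1 : M ^ (r + 1) ≤ M * (3 * (r : ℝ) ^ r) := by
    rw [pow_succ, mul_comm]
    exact mul_le_mul_of_nonneg_left he hM.le
  have k2 : (M ^ (r + 1)) ^ 2 * F ≤ 27 * (2 * (3 / 2 : ℝ) ^ r) ^ 3 * ((r : ℝ) ^ r) ^ 3 := by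
    calc (M ^ (r + 1)) ^ 2 * F ≤ (M ^ (r + 1)) ^ 2 * M ^ (r + 1) := mul_le_mul_of_nonneg_left hFM (by positivity)
      _ = (M ^ (r + 1)) ^ 3 := by ring
      _ ≤ (M * (3 * (r : ℝ) ^ r)) ^ 3 := pow_le_pow_left₀ (by positivity) k1 3
      _ = 27 * M ^ 3 * ((r : ℝ) ^ r) ^ 3 := by ring
      _ ≤ 27 * (2 * (3 / 2 : ℝ) ^ r) ^ 3 * ((r : ℝ) ^ r) ^ 3 := by
        have := pow_le_pow_left₀ hM.le hb 3
        gcongr
  have k3 : (800 : ℝ) ^ r * 1296 ^ (r + 1) * ((M ^ (r + 1)) ^ 2 * F) ≤ X * ((r : ℝ) ^ r) ^ 3 := by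
    calc (800 : ℝ) ^ r * 1296 ^ (r + 1) * ((M ^ (r + 1)) ^ 2 * F)
        ≤ (800 : ℝ) ^ r * 1296 ^ (r + 1) * (27 * (2 * (3 / 2 : ℝ) ^ r) ^ 3 * ((r : ℝ) ^ r) ^ 3) :=
          mul_le_mul_of_nonneg_left k2 (by positivity)
      _ = (800 : ℝ) ^ r * 1296 ^ (r + 1) * (27 * (2 * (3 / 2 : ℝ) ^ r) ^ 3) * ((r : ℝ) ^ r) ^ 3 := by ring
      _ ≤ X * ((r : ℝ) ^ r) ^ 3 := mul_le_mul_of_nonneg_right (hc.trans hX) (by positivity)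
  have e1 : (800 * X) ^ r * ((1296 * M ^ 2) ^ (r + 1) * F) =
      X ^ r * ((800 : ℝ) ^ r * 1296 ^ (r + 1) * ((M ^ (r + 1)) ^ 2 * F)) := by
    rw [mul_pow, mul_pow, ← pow_mul, ← pow_mul, mul_comm 2 (r + 1)]
    ring
  have e2 : X ^ (r + 1) * ((r : ℝ) ^ 3) ^ r = X ^ r * (X * ((r : ℝ) ^ r) ^ 3) := by
    rw [pow_succ, ← pow_mul, ← pow_mul, mul_comm 3 r]
    ring
  rw [e1, e2]
  exact mul_le_mul_of_nonneg_left k3 (by positivity)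

end Pool.Agent.CatW
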