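import Mathlib

/-!
Module NumB: comparison of the lower bound with the binomial coefficient.

Proof. `n.choose (r + 1) ≤ n ^ (r + 1) / (r + 1)!`, so it is enough that
`n * (1296 r ^ 2) ^ r < n ^ r * (r + 1)`, or with `u = n / (1296 r ^ 2) ≥ 4`:
`1296 r ^ 2 < u ^ (r - 1) (r + 1)`. `r = 2`: `3 u > 5184` as `n > 1728 * 5184 = 8957952`.
`3 ≤ r ≤ 7`: `n ≥ 9 * 10 ^ 6` suffices (`u > 141`). `r ≥ 8`: `4 ^ (r - 1) (r + 1) >
1296 r ^ 2` by induction.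
-/

set_option autoImplicit false

namespace Pool.Agent.CatW

private theorem pow4 (s : ℕ) (hs : 7 ≤ s) : 1296 * (s + 1) ^ 2 < (s + 2) * 4 ^ s := by
  induction s, hs using Nat.le_induction with
  | base => norm_num
  | succ s hs ih =>
    have h1 : (s + 2) ^ 2 ≤ 4 * (s + 1) ^ 2 := by nlinarith
    have h2 : (s + 2) * 4 ^ s ≤ (s + 3) * 4 ^ s := Nat.mul_le_mul_right _ (by omega)
    calc 1296 * (s + 1 + 1) ^ 2 = 1296 * (s + 2) ^ 2 := by ring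
      _ ≤ 1296 * (4 * (s + 1) ^ 2) := Nat.mul_le_mul_left _ h1
      _ = 4 * (1296 * (s + 1) ^ 2) := by ring
      _ < 4 * ((s + 2) * 4 ^ s) := by omega
      _ ≤ 4 * ((s + 3) * 4 ^ s) := Nat.mul_le_mul_left _ h2
      _ = (s + 1 + 2) * 4 ^ (s + 1) := by ring

private theorem key {u N : ℝ} {s : ℕ} (hs : 1 ≤ s) (hN : 9 * 10 ^ 6 ≤ N)
    (hu : N = 1296 * ((s : ℝ) + 1) ^ 2 * u) (h4 : 4 ≤ u) :
    1296 * ((s : ℝ) + 1) ^ 2 < ((s : ℝ) + 2) * u ^ s := by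
  rcases Nat.lt_or_ge s 7 with h | h
  · rcases Nat.lt_or_ge s 2 with h2 | h2
    · have e : s = 1 := by omega
      subst e
      push_cast at *
      rw [pow_one]
      nlinarith
    · have hs2 : (2 : ℝ) ≤ s := by exact_mod_cast h2
      have hs6 : (s : ℝ) ≤ 6 := by exact_mod_cast (by omega : s ≤ 6)
      have h5 : ((s : ℝ) + 1) ^ 2 ≤ 49 := by nlinarith
      have hu1 : 141 ≤ u := by
        have h6 : 1296 * ((s : ℝ) + 1) ^ 2 * u ≤ 1296 * 49 * u := by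
          apply mul_le_mul_of_nonneg_right _ (by linarith)
          linarith
        nlinarith
      have h7 : u ^ 2 ≤ u ^ s := pow_le_pow_right₀ (by linarith) h2
      have h8 : (141 : ℝ) ^ 2 ≤ u ^ 2 := pow_le_pow_left₀ (by norm_num) hu1 2
      have h9 : (4 : ℝ) * 141 ^ 2 ≤ ((s : ℝ) + 2) * u ^ s :=
        mul_le_mul (by linarith) (h8.trans h7) (by norm_num) (by linarith)
      have h10 : 1296 * ((s : ℝ) + 1) ^ 2 ≤ 1296 * 49 := by linarith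
      calc 1296 * ((s : ℝ) + 1) ^ 2 ≤ 1296 * 49 := h10
        _ < 4 * 141 ^ 2 := by norm_num
        _ ≤ _ := h9
  · have h1 : (1296 : ℝ) * ((s : ℝ) + 1) ^ 2 < ((s : ℝ) + 2) * 4 ^ s := by
      exact_mod_cast pow4 s h
    have h2 : (4 : ℝ) ^ s ≤ u ^ s := pow_le_pow_left₀ (by norm_num) h4 s
    exact h1.trans_le (mul_le_mul_of_nonneg_left h2 (by positivity))

theorem num_choose (n r : ℕ) (hn : 9 * 10 ^ 6 ≤ n) (hr : 2 ≤ r) (h : 5184 * r ^ 2 ≤ n) :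
    (n.choose (r + 1) : ℝ) < ((n : ℝ) ^ 2 / (1296 * (r : ℝ) ^ 2)) ^ r / (r.factorial : ℝ) := by
  obtain ⟨s, rfl⟩ : ∃ s, r = s + 1 := ⟨r - 1, by omega⟩
  have hs : 1 ≤ s := by omega
  have hs0 : (0 : ℝ) ≤ s := Nat.cast_nonneg s
  obtain ⟨N, hNn⟩ : ∃ N : ℝ, N = (n : ℝ) := ⟨_, rfl⟩
  have hN : 9 * 10 ^ 6 ≤ N := by
    rw [hNn]
    exact_mod_cast hn
  have hN0 : 0 < N := by linarith
  have hd : (0 : ℝ) < 1296 * ((s : ℝ) + 1) ^ 2 := by positivity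
  obtain ⟨u, hu⟩ : ∃ u : ℝ, u = N / (1296 * ((s : ℝ) + 1) ^ 2) := ⟨_, rfl⟩
  have hNu : N = 1296 * ((s : ℝ) + 1) ^ 2 * u := by
    rw [hu]
    field_simp
  have h4 : 4 ≤ u := by
    rw [hu, le_div_iff₀ hd, hNn]
    have h5 : (5184 : ℝ) * ((s : ℝ) + 1) ^ 2 ≤ n := by exact_mod_cast h
    linarith
  have hkey := key hs hN hNu h4
  have h1 : (n.choose (s + 1 + 1) : ℝ) ≤ N ^ (s + 1 + 1) / ((s + 1 + 1).factorial : ℝ) := by
    rw [hNn]
    exact Nat.choose_le_pow_div _ _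
  refine h1.trans_lt ?_
  have h2 : (n : ℝ) ^ 2 / (1296 * ((s + 1 : ℕ) : ℝ) ^ 2) = N * u := by
    rw [hu, hNn]
    push_cast
    ring
  have hf : (0 : ℝ) < ((s + 1).factorial : ℝ) := by exact_mod_cast Nat.factorial_pos _
  have hf2 : ((s + 1 + 1).factorial : ℝ) = ((s : ℝ) + 2) * ((s + 1).factorial : ℝ) := by
    rw [Nat.factorial_succ (s + 1)]
    push_cast
    ring
  rw [h2, hf2, mul_pow, div_lt_div_iff₀ (by positivity) hf]
  have h3 : N < ((s : ℝ) + 2) * u ^ (s + 1) := by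
    have h5 := mul_lt_mul_of_pos_right hkey (by linarith : 0 < u)
    rw [← hNu] at h5
    calc N < ((s : ℝ) + 2) * u ^ s * u := h5
      _ = ((s : ℝ) + 2) * u ^ (s + 1) := by ring
  calc N ^ (s + 1 + 1) * ((s + 1).factorial : ℝ) = N * (N ^ (s + 1) * ((s + 1).factorial : ℝ)) := by ring
    _ < ((s : ℝ) + 2) * u ^ (s + 1) * (N ^ (s + 1) * ((s + 1).factorial : ℝ)) :=
      mul_lt_mul_of_pos_right h3 (by positivity)
    _ = N ^ (s + 1) * u ^ (s + 1) * (((s : ℝ) + 2) * ((s + 1).factorial : ℝ)) := by ring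

end Pool.Agent.CatW
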