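import Mathlib

/-!
Module NumC: the upper bound for `r` is at most the pair lower bound for `s`, if `s - r` is at
least `60 r / log n` and `s ≤ sqrt n / 18`.

Proof. Let `L = log n`; `s ≥ 2`, so `n ≥ 1296` and `L ≥ 6`. Take logarithms, `s! ≤ s ^ s`; to show:
`r (log 800 + 2 L - 3 log r) ≤ s (2 L - log 1296 - 3 log s)`. Now `s log s - r log r =
(s - r) log s + r log (s / r) ≤ (s - r) (log s + 1)` (`log x ≤ x - 1`) and
`log s ≤ L / 2 - log 18`, so `s (2 L - 3 log s) - r (2 L - 3 log r) ≥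
(s - r) (L / 2 - 3 + 3 log 18)`. So it is enough that
`(s - r) (L / 2 - 3 + 3 log 18 - log 1296) ≥ r (log 800 + log 1296)`. With `log 18 > 2.89`,
`log 1296 < 7.17`, `log 800 < 6.69`: left side `≥ (s - r) (L / 2 - 1.5) ≥ (s - r) L / 4 ≥ 15 r`,
right side `≤ 13.86 r`.
-/

set_option autoImplicit false

namespace Pool.Agent.CatW

private theorem far_logs : Real.log 18 ≥ 25 / 6 * Real.log 2 ∧ Real.log 1296 ≤ 42 / 4 * Real.log 2 ∧
    Real.log 800 ≤ 29 / 3 * Real.log 2 ∧ 10 * Real.log 2 ≤ Real.log 1296 := by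
  have h1 : Real.log ((2 : ℝ) ^ 25) ≤ Real.log ((18 : ℝ) ^ 6) :=
    Real.log_le_log (by norm_num) (by norm_num)
  have h2 : Real.log ((1296 : ℝ) ^ 4) ≤ Real.log ((2 : ℝ) ^ 42) :=
    Real.log_le_log (by norm_num) (by norm_num)
  have h3 : Real.log ((800 : ℝ) ^ 3) ≤ Real.log ((2 : ℝ) ^ 29) :=
    Real.log_le_log (by norm_num) (by norm_num)
  have h4 : Real.log ((2 : ℝ) ^ 10) ≤ Real.log 1296 :=
    Real.log_le_log (by norm_num) (by norm_num)
  rw [Real.log_pow] at h1 h2 h3 h4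
  rw [Real.log_pow] at h1 h2 h3
  push_cast at h1 h2 h3 h4
  refine ⟨by linarith, by linarith, by linarith, by linarith⟩

private theorem far_core {L ls lr ρ σ : ℝ} (hρ : 1 ≤ ρ) (hσ : ρ < σ)
    (h1 : 2 * Real.log 18 + 2 * ls ≤ L) (h2 : ρ * (ls - lr) ≤ σ - ρ) (h3 : 60 * ρ ≤ (σ - ρ) * L)
    (h4 : Real.log 1296 ≤ L) :
    ρ * (Real.log 800 + 2 * L - 3 * lr) ≤ σ * (2 * L - Real.log 1296 - 3 * ls) := by
  obtain ⟨a1, a2, a3, a4⟩ := far_logs
  have b1 := Real.log_two_gt_d9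
  have b2 := Real.log_two_lt_d9
  have c1 : (2.888 : ℝ) ≤ Real.log 18 := by linarith
  have c2 : Real.log 1296 ≤ 7.28 := by linarith
  have c3 : Real.log 800 ≤ 6.71 := by linarith
  have c4 : (6.93 : ℝ) ≤ L := by linarith
  have hd : 0 < σ - ρ := by linarith
  have d1 : (σ - ρ) * ls ≤ (σ - ρ) * (L / 2 - 2.888) :=
    mul_le_mul_of_nonneg_left (by linarith) hd.le
  have d2 : σ * Real.log 1296 ≤ σ * 7.28 := mul_le_mul_of_nonneg_left c2 (by linarith)
  have d3 : ρ * Real.log 800 ≤ ρ * 6.71 := mul_le_mul_of_nonneg_left c3 (by linarith)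
  have d4 : (σ - ρ) * 6.93 ≤ (σ - ρ) * L := mul_le_mul_of_nonneg_left c4 hd.le
  nlinarith

theorem num_far (n r s : ℕ) (hr : 1 ≤ r) (hrs : r < s) (hs : 324 * s ^ 2 ≤ n)
    (h : 60 * (r : ℝ) ≤ ((s : ℝ) - r) * Real.log n) :
    (800 * (n : ℝ) ^ 2 / (r : ℝ) ^ 3) ^ r ≤
      ((n : ℝ) ^ 2 / (1296 * (s : ℝ) ^ 2)) ^ s / (s.factorial : ℝ) := by
  have hs2 : 2 ≤ s := by omega
  have hn : 1296 ≤ n := by nlinarith
  have hr0 : (1 : ℝ) ≤ r := by exact_mod_cast hr
  have hs0 : (2 : ℝ) ≤ s := by exact_mod_cast hs2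
  have hrs0 : (r : ℝ) < s := by exact_mod_cast hrs
  have hn0 : (1296 : ℝ) ≤ n := by exact_mod_cast hn
  have hsn : (324 : ℝ) * (s : ℝ) ^ 2 ≤ n := by exact_mod_cast hs
  have hrp : (0 : ℝ) < r := by linarith
  have hsp : (0 : ℝ) < s := by linarith
  have hnp : (0 : ℝ) < n := by linarith
  -- the factorial
  have hfac : ((n : ℝ) ^ 2 / (1296 * (s : ℝ) ^ 3)) ^ s ≤
      ((n : ℝ) ^ 2 / (1296 * (s : ℝ) ^ 2)) ^ s / (s.factorial : ℝ) := by
    have e1 : ((n : ℝ) ^ 2 / (1296 * (s : ℝ) ^ 3)) ^ s =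
        ((n : ℝ) ^ 2 / (1296 * (s : ℝ) ^ 2)) ^ s / (s : ℝ) ^ s := by
      rw [← div_pow]
      refine congrArg (fun x : ℝ => x ^ s) ?_
      field_simp
    rw [e1]
    refine div_le_div_of_nonneg_left (by positivity) ?_ ?_
    · exact_mod_cast Nat.factorial_pos s
    · exact_mod_cast Nat.factorial_le_pow s
  refine le_trans ?_ hfac
  have hA : (0 : ℝ) < 800 * (n : ℝ) ^ 2 / (r : ℝ) ^ 3 := by positivity
  have hB : (0 : ℝ) < (n : ℝ) ^ 2 / (1296 * (s : ℝ) ^ 3) := by positivity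
  rw [← Real.log_le_log_iff (pow_pos hA _) (pow_pos hB _), Real.log_pow, Real.log_pow]
  have lA : Real.log (800 * (n : ℝ) ^ 2 / (r : ℝ) ^ 3) =
      Real.log 800 + 2 * Real.log n - 3 * Real.log r := by
    rw [Real.log_div (by positivity) (by positivity), Real.log_mul (by norm_num) (by positivity),
      Real.log_pow, Real.log_pow]
    push_cast
    ring
  have lB : Real.log ((n : ℝ) ^ 2 / (1296 * (s : ℝ) ^ 3)) =
      2 * Real.log n - Real.log 1296 - 3 * Real.log s := by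
    rw [Real.log_div (by positivity) (by positivity), Real.log_mul (by norm_num) (by positivity),
      Real.log_pow, Real.log_pow]
    push_cast
    ring
  rw [lA, lB]
  refine far_core hr0 hrs0 ?_ ?_ h ?_
  · have h5 : Real.log ((18 * (s : ℝ)) ^ 2) ≤ Real.log n :=
      Real.log_le_log (by positivity) (by nlinarith)
    rw [Real.log_pow, Real.log_mul (by norm_num) (by positivity)] at h5
    push_cast at h5
    linarith
  · have h6 : Real.log ((s : ℝ) / r) ≤ (s : ℝ) / r - 1 :=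
      Real.log_le_sub_one_of_pos (by positivity)
    rw [Real.log_div (by positivity) (by positivity)] at h6
    have h7 : (r : ℝ) * (Real.log s - Real.log r) ≤ (r : ℝ) * ((s : ℝ) / r - 1) :=
      mul_le_mul_of_nonneg_left h6 hrp.le
    have h8 : (r : ℝ) * ((s : ℝ) / r - 1) = (s : ℝ) - r := by
      field_simp
    linarith
  · exact Real.log_le_log (by norm_num) hn0

end Pool.Agent.CatW
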