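import Pool.Agent.CatW.NumD0

/-!
Module NumD2: the upper bound for `r ≤ q = Nat.sqrt n` is at most `n.choose (2 q + 1)`.

Proof. Let `L = log n ≥ 23` (`log 10 > 2.302`), `x = sqrt n`, `q ≤ x < q + 1`, `x ≥ 10 ^ 5`.
`2 q + 1 ≤ 3 x`, so by `pow_le_choose'` `log (n.choose (2 q + 1)) ≥ (2 q + 1) (L - log (3 x)) ≥
2 (x - 1) (L / 2 - log 3)`. Upper side: `r log (x / r) ≤ x - r`, so
`r (log 800 + 2 L - 3 log r) ≤ r (log 800 + L / 2) + 3 (x - r) ≤ x (log 800 + L / 2)`.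
Finally `x (log 800 + L / 2) ≤ 2 (x - 1) (L / 2 - log 3)`, because
`x (L / 2 - log 800 - 2 log 3) ≥ x (L / 2 - 8.9)` and `L / 2 - 8.9 ≥ L / 10` and `x / 10 ≥ 1`.
-/

set_option autoImplicit false

namespace Pool.Agent.CatW

theorem num_far_choose_top (n r q : ℕ) (hn : 10 ^ 10 ≤ n) (hr : 1 ≤ r) (hq : q = Nat.sqrt n)
    (hrq : r ≤ q) :
    (800 * (n : ℝ) ^ 2 / (r : ℝ) ^ 3) ^ r ≤ (n.choose (2 * q + 1) : ℝ) := by
  have hn' : (10 : ℝ) ^ 10 ≤ n := by exact_mod_cast hn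
  have hn0 : (0 : ℝ) < n := lt_of_lt_of_le (by norm_num) hn'
  have hr0 : (0 : ℝ) < r := by exact_mod_cast (by omega : 0 < r)
  obtain ⟨x, hx⟩ : ∃ x, x = √(n : ℝ) := ⟨_, rfl⟩
  have hq1 : (q : ℝ) ≤ x := by
    rw [hx, hq]
    exact Real.le_sqrt_of_sq_le (by exact_mod_cast Nat.sqrt_le' n)
  have hq2 : x < q + 1 := by
    rw [hx, hq, Real.sqrt_lt' (by positivity)]
    have h := Nat.lt_succ_sqrt' n
    rw [Nat.succ_eq_add_one] at h
    exact_mod_cast h
  have hx5 : (10 : ℝ) ^ 5 ≤ x := by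
    rw [hx]
    apply Real.le_sqrt_of_sq_le
    calc ((10 : ℝ) ^ 5) ^ 2 = 10 ^ 10 := by norm_num
      _ ≤ (n : ℝ) := hn'
  have hx0 : 0 < x := lt_of_lt_of_le (by norm_num) hx5
  have hxx : x ^ 2 = n := by rw [hx, Real.sq_sqrt hn0.le]
  obtain ⟨L, hL⟩ : ∃ L, L = Real.log n := ⟨_, rfl⟩
  have hlx : Real.log x = L / 2 := by rw [hx, hL, Real.log_sqrt hn0.le]
  have hL9 : 9 ≤ L := by
    have h1 : Real.log ((10 : ℝ) ^ 10) ≤ L := by
      rw [hL]
      exact Real.log_le_log (by norm_num) hn'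
    rw [Real.log_pow] at h1
    have h2 := Real.one_sub_inv_le_log_of_pos (by norm_num : (0 : ℝ) < 10)
    push_cast at h1
    norm_num at h2
    linarith
  have hL7 : 5 * (Real.log 800 + 2 * Real.log 3) ≤ 2 * L := by
    have h1 : (7200 : ℝ) ^ 5 ≤ (n : ℝ) ^ 2 := by
      calc (7200 : ℝ) ^ 5 ≤ (10 ^ 10) ^ 2 := by norm_num
        _ ≤ (n : ℝ) ^ 2 := pow_le_pow_left₀ (by norm_num) hn' 2
    have h2 := Real.log_le_log (by norm_num) h1
    rw [Real.log_pow, Real.log_pow, ← hL] at h2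
    have h3 : Real.log 7200 = Real.log 800 + 2 * Real.log 3 := by
      have h4 : (7200 : ℝ) = 800 * 3 ^ 2 := by norm_num
      rw [h4, Real.log_mul (by norm_num) (by norm_num), Real.log_pow]
      norm_num
    rw [h3] at h2
    push_cast at h2
    exact h2
  have h800 : 0 ≤ Real.log 800 := Real.log_nonneg (by norm_num)
  have h3 : 0 ≤ Real.log 3 := Real.log_nonneg (by norm_num)
  -- upper side
  have hrx : (r : ℝ) ≤ x := le_trans (by exact_mod_cast hrq) hq1
  have hup : (r : ℝ) * (Real.log 800 + 2 * L - 3 * Real.log r) ≤ x * (Real.log 800 + L / 2) := by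
    have h4 := Real.log_le_sub_one_of_pos (div_pos hx0 hr0)
    rw [Real.log_div hx0.ne' hr0.ne', hlx] at h4
    have h5 := mul_le_mul_of_nonneg_left h4 hr0.le
    have h6 : (r : ℝ) * (x / r - 1) = x - r := by field_simp
    rw [h6] at h5
    nlinarith [mul_nonneg (sub_nonneg.2 hrx) (by linarith : (0 : ℝ) ≤ Real.log 800 + L / 2 - 3)]
  -- lower side
  have hk0 : (0 : ℝ) < 2 * (q : ℝ) + 1 := by positivity
  have hlow : x * (Real.log 800 + L / 2) ≤
      (2 * (q : ℝ) + 1) * (L - Real.log (2 * (q : ℝ) + 1)) := by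
    have h4 : Real.log (2 * (q : ℝ) + 1) ≤ Real.log 3 + L / 2 := by
      rw [← hlx, ← Real.log_mul (by norm_num) hx0.ne']
      exact Real.log_le_log hk0 (by linarith)
    have h5 : 0 ≤ L / 2 - Real.log 3 := by linarith
    have h6 : (2 * x - 1) * (L / 2 - Real.log 3) ≤
        (2 * (q : ℝ) + 1) * (L - Real.log (2 * (q : ℝ) + 1)) := by
      refine mul_le_mul (by linarith) (by linarith) h5 hk0.le
    refine le_trans ?_ h6
    have h7 : L / 10 ≤ L / 2 - (Real.log 800 + 2 * Real.log 3) := by linarith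
    have h8 : L / 2 ≤ x * (L / 2 - (Real.log 800 + 2 * Real.log 3)) := by
      have h9 := mul_le_mul_of_nonneg_left h7 hx0.le
      nlinarith
    nlinarith
  have hkn : 2 * q + 1 ≤ n := by
    have h4 : ((2 * q + 1 : ℕ) : ℝ) ≤ n := by
      push_cast
      nlinarith
    exact_mod_cast h4
  have hch := pow_le_choose' n (2 * q + 1) (by omega) hkn
  refine le_trans ?_ hch
  push_cast
  have hA : (0 : ℝ) < 800 * (n : ℝ) ^ 2 / (r : ℝ) ^ 3 := by positivity
  have hB : (0 : ℝ) < (n : ℝ) / (2 * (q : ℝ) + 1) := by positivity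
  rw [← Real.log_le_log_iff (pow_pos hA _) (pow_pos hB _), Real.log_pow, Real.log_pow,
    Real.log_div (by positivity) (by positivity), Real.log_mul (by norm_num) (by positivity),
    Real.log_pow, Real.log_pow, Real.log_div hn0.ne' hk0.ne', ← hL]
  push_cast
  linarith

end Pool.Agent.CatW
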