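import Pool.Agent.CatW.NumD1
import Pool.Agent.CatW.NumD2

/-!
Module NumD: the upper bound for `r` is at most `n.choose (s + 1)`, if `s > sqrt n / 18` and `s - r`
is at least `60 r / log n`.
-/

set_option autoImplicit false

namespace Pool.Agent.CatW

theorem choose_mono_half (n a b : ℕ) (hab : a ≤ b) (hb : 2 * b ≤ n) :
    n.choose a ≤ n.choose b := by
  induction b, hab using Nat.le_induction with
  | base => exact le_rfl
  | succ b hab ih =>
    exact (ih (by omega)).trans (Nat.choose_le_succ_of_lt_half_left (by omega))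

theorem num_far_choose (n r s : ℕ) (hn : 10 ^ 10 ≤ n) (hr : 1 ≤ r) (hrn : r ^ 2 ≤ n)
    (hrs : r < s) (hs : n < 324 * s ^ 2) (hsn : 2 * s < n)
    (h : 60 * (r : ℝ) ≤ ((s : ℝ) - r) * Real.log n) :
    (800 * (n : ℝ) ^ 2 / (r : ℝ) ^ 3) ^ r ≤ (n.choose (s + 1) : ℝ) := by
  rcases Nat.lt_or_ge (2 * Nat.sqrt n) s with h1 | h1
  · have h2 : r ≤ Nat.sqrt n := by
      rw [Nat.le_sqrt']
      exact hrn
    refine (num_far_choose_top n r _ hn hr rfl h2).trans ?_
    have h3 : n.choose (2 * Nat.sqrt n + 1) ≤ n.choose (s + 1) := by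
      rcases Nat.lt_or_ge n (2 * (s + 1)) with h4 | h4
      · -- `n = 2 s + 1`
        have h5 : n = 2 * s + 1 := by omega
        have h6 : n.choose (s + 1) = n.choose s := by
          rw [h5, Nat.choose_symm_half]
        rw [h6]
        exact choose_mono_half n _ _ (by omega) (by omega)
      · exact choose_mono_half n _ _ (by omega) (by omega)
    exact_mod_cast h3
  · exact num_far_choose_near n r s hn hr hrs hs h1 h

end Pool.Agent.CatW
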