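import Pool.Agent.CatW.Defs
import Pool.Agent.CatU.TsumB

/-!
Module Up: the first moment sum for `r ^ 2 ≤ n`.

Proof. `Tsum 0 r = 0` for `r ≥ 1` (no function on `Fin 0` has sum `r`), so the term `j = 0`
vanishes. For `1 ≤ j ≤ r`: `Tsum j (r - j) ≤ 7 ^ (j - 1) (r - j + 2)!` (CatU.TsumB), `n.choose (r + j)
≤ n ^ (r + j) / (r + j)!`, `n ^ (r + j) ≤ n ^ (2 r) / r ^ (2 (r - j))` (as `r ^ 2 ≤ n`),
`(r + j)! ≥ ((r + j) / e) ^ (r + j) ≥ (r / e) ^ (r + j)`, so `(r + j)! ^ 2 ≥ r ^ (2 (r + j)) /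
e ^ (4 r)`, and `j! (r - j + 2)! ≤ r ^ j * r ^ (r - j) * r (r + 1)`. So each term is at most
`(7 e ^ 4 n ^ 2 / r ^ 3) ^ r * r (r + 1) / 7`; there are `r` terms, `r ^ 2 (r + 1) / 7 ≤ 2 ^ r` for all
`r ≥ 1`, and `14 e ^ 4 < 765 < 800`.
-/

set_option autoImplicit false

namespace Pool.Agent.CatW

open Finset Pool.Agent.Hhelper51.Cat

private theorem up_nat (r j : ℕ) (h1 : 1 ≤ j) (h2 : j ≤ r) :
    j.factorial * Tsum j (r - j) ≤ 7 ^ r * (r ^ r * (r * (r + 1))) := by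
  obtain ⟨i, rfl⟩ : ∃ i, j = i + 1 := ⟨j - 1, by omega⟩
  obtain ⟨k, hk⟩ : ∃ k, k = r - (i + 1) := ⟨_, rfl⟩
  have hr : r = k + (i + 1) := by omega
  rw [← hk]
  have g1 : Tsum (i + 1) k ≤ 7 ^ i * (k + 2).factorial := Pool.Agent.CatU.Tsum_le i k
  have g2 : (k + 2).factorial ≤ r ^ k * (r * (r + 1)) := by
    have e1 : (k + 2).factorial = (k + 2) * ((k + 1) * k.factorial) := rfl
    rw [e1]
    have e2 : k.factorial ≤ r ^ k := (Nat.factorial_le_pow k).trans (Nat.pow_le_pow_left (by omega) k)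
    calc (k + 2) * ((k + 1) * k.factorial) ≤ (r + 1) * (r * r ^ k) :=
          Nat.mul_le_mul (by omega) (Nat.mul_le_mul (by omega) e2)
      _ = r ^ k * (r * (r + 1)) := by ring
  have g3 : (i + 1).factorial ≤ r ^ (i + 1) :=
    (Nat.factorial_le_pow (i + 1)).trans (Nat.pow_le_pow_left (by omega) _)
  have g4 : 7 ^ i ≤ 7 ^ r := Nat.pow_le_pow_right (by norm_num) (by omega)
  calc (i + 1).factorial * Tsum (i + 1) k ≤ r ^ (i + 1) * (7 ^ r * (r ^ k * (r * (r + 1)))) :=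
        Nat.mul_le_mul g3 (g1.trans (Nat.mul_le_mul g4 g2))
    _ = 7 ^ r * (r ^ (k + (i + 1)) * (r * (r + 1))) := by ring
    _ = 7 ^ r * (r ^ r * (r * (r + 1))) := by rw [← hr]

private theorem up_term (n r j : ℕ) (hr : 1 ≤ r) (h : r ^ 2 ≤ n) (h1 : 1 ≤ j) (h2 : j ≤ r) :
    (n.choose (r + j) : ℝ) * (j.factorial * Tsum j (r - j)) / ((r + j).factorial : ℝ) ≤
      (7 * Real.exp 1 ^ 2 * (n : ℝ) ^ 2 / (r : ℝ) ^ 3) ^ r * ((r : ℝ) * (r + 1)) := by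
  have hR : (0 : ℝ) < r := by exact_mod_cast hr
  have hF : (0 : ℝ) < ((r + j).factorial : ℝ) := by exact_mod_cast Nat.factorial_pos _
  have hE : (0 : ℝ) < Real.exp 1 := Real.exp_pos 1
  have a1 : (n.choose (r + j) : ℝ) ≤ (n : ℝ) ^ (r + j) / ((r + j).factorial : ℝ) :=
    Nat.choose_le_pow_div (r + j) n
  have a2 : (r : ℝ) ^ (r + j) ≤ Real.exp 1 ^ r * ((r + j).factorial : ℝ) := by
    have := Real.pow_div_factorial_le_exp (r : ℝ) hR.le (r + j)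
    rw [div_le_iff₀ hF] at this
    have e1 : Real.exp (r : ℝ) = Real.exp 1 ^ r := by
      rw [← Real.exp_nat_mul, mul_one]
    rwa [e1] at this
  have a3 : (n : ℝ) ^ (r + j) * (r : ℝ) ^ (2 * (r - j)) ≤ (n : ℝ) ^ (2 * r) := by
    have e1 : 2 * r = (r + j) + (r - j) := by omega
    have e2 : ((r : ℝ) ^ 2) ^ (r - j) ≤ (n : ℝ) ^ (r - j) :=
      pow_le_pow_left₀ (by positivity) (by exact_mod_cast h) _
    calc (n : ℝ) ^ (r + j) * (r : ℝ) ^ (2 * (r - j))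
        = (n : ℝ) ^ (r + j) * ((r : ℝ) ^ 2) ^ (r - j) := by rw [← pow_mul]
      _ ≤ (n : ℝ) ^ (r + j) * (n : ℝ) ^ (r - j) := mul_le_mul_of_nonneg_left e2 (by positivity)
      _ = (n : ℝ) ^ (2 * r) := by rw [← pow_add, ← e1]
  have a4 : (j.factorial : ℝ) * Tsum j (r - j) ≤ 7 ^ r * ((r : ℝ) ^ r * (r * (r + 1))) := by
    exact_mod_cast up_nat r j h1 h2
  have hD : (0 : ℝ) ≤ (j.factorial : ℝ) * Tsum j (r - j) := by positivity
  have b1 : (n.choose (r + j) : ℝ) * (j.factorial * Tsum j (r - j)) / ((r + j).factorial : ℝ) ≤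
      (n : ℝ) ^ (r + j) * (j.factorial * Tsum j (r - j)) / ((r + j).factorial : ℝ) ^ 2 := by
    have : (n.choose (r + j) : ℝ) * (j.factorial * Tsum j (r - j)) ≤
        (n : ℝ) ^ (r + j) / ((r + j).factorial : ℝ) * (j.factorial * Tsum j (r - j)) :=
      mul_le_mul_of_nonneg_right a1 hD
    calc (n.choose (r + j) : ℝ) * (j.factorial * Tsum j (r - j)) / ((r + j).factorial : ℝ)
        ≤ (n : ℝ) ^ (r + j) / ((r + j).factorial : ℝ) * (j.factorial * Tsum j (r - j)) /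
            ((r + j).factorial : ℝ) := div_le_div_of_nonneg_right this hF.le
      _ = (n : ℝ) ^ (r + j) * (j.factorial * Tsum j (r - j)) / ((r + j).factorial : ℝ) ^ 2 := by
          field_simp
  refine b1.trans ?_
  rw [div_le_iff₀ (by positivity)]
  have c1 : ((r : ℝ) ^ (r + j)) ^ 2 ≤ (Real.exp 1 ^ r * ((r + j).factorial : ℝ)) ^ 2 :=
    pow_le_pow_left₀ (by positivity) a2 2
  have c2 : (n : ℝ) ^ (r + j) * (r : ℝ) ^ (2 * (r - j)) * (r : ℝ) ^ (2 * (r + j)) *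
      ((j.factorial : ℝ) * Tsum j (r - j)) ≤
      (n : ℝ) ^ (2 * r) * (Real.exp 1 ^ r * ((r + j).factorial : ℝ)) ^ 2 *
        (7 ^ r * ((r : ℝ) ^ r * (r * (r + 1)))) := by
    have c3 : (r : ℝ) ^ (2 * (r + j)) ≤ (Real.exp 1 ^ r * ((r + j).factorial : ℝ)) ^ 2 := by
      rw [mul_comm 2, pow_mul]
      exact c1
    exact mul_le_mul (mul_le_mul a3 c3 (by positivity) (by positivity)) a4 hD (by positivity)
  have e4 : (r : ℝ) ^ (2 * (r - j)) * (r : ℝ) ^ (2 * (r + j)) = (r : ℝ) ^ (4 * r) := by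
    rw [← pow_add]
    congr 1
    omega
  have c5 : (n : ℝ) ^ (r + j) * ((j.factorial : ℝ) * Tsum j (r - j)) * (r : ℝ) ^ (4 * r) ≤
      (7 * Real.exp 1 ^ 2 * (n : ℝ) ^ 2 / (r : ℝ) ^ 3) ^ r * ((r : ℝ) * (r + 1)) *
        ((r + j).factorial : ℝ) ^ 2 * (r : ℝ) ^ (4 * r) := by
    rw [← e4]
    calc (n : ℝ) ^ (r + j) * ((j.factorial : ℝ) * Tsum j (r - j)) *
          ((r : ℝ) ^ (2 * (r - j)) * (r : ℝ) ^ (2 * (r + j)))
        = (n : ℝ) ^ (r + j) * (r : ℝ) ^ (2 * (r - j)) * (r : ℝ) ^ (2 * (r + j)) *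
      ((j.factorial : ℝ) * Tsum j (r - j)) := by ring
      _ ≤ (n : ℝ) ^ (2 * r) * (Real.exp 1 ^ r * ((r + j).factorial : ℝ)) ^ 2 *
        (7 ^ r * ((r : ℝ) ^ r * (r * (r + 1)))) := c2
      _ = (7 * Real.exp 1 ^ 2 * (n : ℝ) ^ 2 / (r : ℝ) ^ 3) ^ r * ((r : ℝ) * (r + 1)) *
        ((r + j).factorial : ℝ) ^ 2 * (r : ℝ) ^ (4 * r) := by
          have e5 : (r : ℝ) ^ (4 * r) = ((r : ℝ) ^ 3) ^ r * (r : ℝ) ^ r := by
            rw [← pow_mul, ← pow_add]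
            congr 1
            omega
          rw [e5, div_pow, mul_pow, mul_pow, mul_pow, ← pow_mul, ← pow_mul, ← pow_mul]
          field_simp
          rw [mul_comm r 2]
      _ = (7 * Real.exp 1 ^ 2 * (n : ℝ) ^ 2 / (r : ℝ) ^ 3) ^ r * ((r : ℝ) * (r + 1)) *
        ((r + j).factorial : ℝ) ^ 2 * ((r : ℝ) ^ (2 * (r - j)) * (r : ℝ) ^ (2 * (r + j))) := by
          rw [e4]
  exact le_of_mul_le_mul_right c5 (by positivity)

theorem sum_up (n r : ℕ) (hr : 1 ≤ r) (h : r ^ 2 ≤ n) :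
    ∑ j ∈ range (r + 1), (n.choose (r + j) : ℝ) * (j.factorial * Tsum j (r - j)) /
        ((r + j).factorial : ℝ) ≤ (800 * (n : ℝ) ^ 2 / (r : ℝ) ^ 3) ^ r := by
  have hR : (0 : ℝ) < r := by exact_mod_cast hr
  obtain ⟨Q, hQ⟩ : ∃ Q : ℝ, Q = (n : ℝ) ^ 2 / (r : ℝ) ^ 3 := ⟨_, rfl⟩
  have hQ0 : 0 ≤ Q := by
    rw [hQ]
    positivity
  have hE : (0 : ℝ) < Real.exp 1 := Real.exp_pos 1
  have hE2 : Real.exp 1 ^ 2 ≤ 100 / 7 := by
    have h1 := Real.exp_one_lt_d9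
    nlinarith
  obtain ⟨B, hB⟩ : ∃ B : ℝ, B = (7 * Real.exp 1 ^ 2 * (n : ℝ) ^ 2 / (r : ℝ) ^ 3) ^ r * ((r : ℝ) * (r + 1)) :=
    ⟨_, rfl⟩
  have hB0 : 0 ≤ B := by
    rw [hB]
    positivity
  have hterm : ∀ j ∈ range (r + 1), (n.choose (r + j) : ℝ) * (j.factorial * Tsum j (r - j)) /
        ((r + j).factorial : ℝ) ≤ B := by
    intro j hj
    rw [mem_range] at hj
    rcases Nat.eq_zero_or_pos j with h0 | h0
    · subst h0
      have : Tsum 0 (r - 0) = 0 := by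
        rw [Pool.Agent.CatU.Tsum_zero, if_neg (by omega)]
      rw [this]
      simpa using hB0
    · rw [hB]
      exact up_term n r j hr h h0 (by omega)
  refine (sum_le_card_nsmul _ _ B hterm).trans ?_
  rw [card_range, nsmul_eq_mul, hB]
  have g1 : (r : ℝ) ≤ 2 ^ r := by exact_mod_cast (Nat.lt_two_pow_self (n := r)).le
  have g2 : (r : ℝ) + 1 ≤ 2 ^ r := by exact_mod_cast (Nat.lt_two_pow_self (n := r))
  have g3 : ((r : ℝ) + 1) * ((r : ℝ) * (r + 1)) ≤ 8 ^ r := by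
    have e1 : (8 : ℝ) ^ r = 2 ^ r * (2 ^ r * 2 ^ r) := by
      rw [← mul_pow, ← mul_pow]
      norm_num
    rw [e1]
    exact mul_le_mul g2 (mul_le_mul g1 g2 (by positivity) (by positivity)) (by positivity) (by positivity)
  have g4 : 7 * Real.exp 1 ^ 2 * (n : ℝ) ^ 2 / (r : ℝ) ^ 3 ≤ 100 * Q := by
    have : 7 * Real.exp 1 ^ 2 * (n : ℝ) ^ 2 / (r : ℝ) ^ 3 = 7 * Real.exp 1 ^ 2 * Q := by
      rw [hQ]
      ring
    rw [this]
    exact mul_le_mul_of_nonneg_right (by linarith) hQ0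
  have g5 : (7 * Real.exp 1 ^ 2 * (n : ℝ) ^ 2 / (r : ℝ) ^ 3) ^ r ≤ (100 * Q) ^ r :=
    pow_le_pow_left₀ (by positivity) g4 r
  have e6 : 800 * (n : ℝ) ^ 2 / (r : ℝ) ^ 3 = 8 * (100 * Q) := by
    rw [hQ]
    ring
  rw [e6, mul_pow]
  push_cast
  calc ((r : ℝ) + 1) * ((7 * Real.exp 1 ^ 2 * (n : ℝ) ^ 2 / (r : ℝ) ^ 3) ^ r * ((r : ℝ) * (r + 1)))
      = (((r : ℝ) + 1) * ((r : ℝ) * (r + 1))) *
          (7 * Real.exp 1 ^ 2 * (n : ℝ) ^ 2 / (r : ℝ) ^ 3) ^ r := by ring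
    _ ≤ 8 ^ r * (100 * Q) ^ r := mul_le_mul g3 g5 (by positivity) (by positivity)

end Pool.Agent.CatW
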