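import Pool.Agent.CatW.Group
import Pool.Agent.CatW.Cells
import Pool.Agent.CatW.Fam
import Pool.Agent.CatW.Conv
import Pool.Agent.CatW.ConvT
import Pool.Agent.CatW.Up
import Pool.Agent.CatW.NumA
import Pool.Agent.CatW.NumB
import Pool.Agent.CatW.NumC
import Pool.Agent.CatW.NumD
import Pool.Agent.CatU.TreeLow
import Pool.Agent.Hhelper51.Cat.FirstMoment

/-!
Module Main: bounds for `s n (n - r)` and `c n (n - r)` for `r ≤ sqrt n`, and their consequences.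
-/

set_option autoImplicit false

namespace Pool.Agent.CatW

open Finset Pool.Agent.Hhelper51.Cat Pool.Agent.CatU

variable {n : ℕ}

theorem commonCount_lower (hn3 : 3 ≤ n) (T F : PhyloTree n) (r : ℕ) (hr : 1 ≤ r)
    (hn : 324 * r ^ 2 ≤ n) :
    ((n : ℝ) ^ 2 / (1296 * (r : ℝ) ^ 2)) ^ r / (r.factorial : ℝ) ≤
      (T.commonCount F (n - r) : ℝ) := by
  classical
  obtain ⟨m, hm⟩ : ∃ m, m = n / (8 * r) := ⟨_, rfl⟩
  have hm1 : 1 ≤ m := by
    rw [hm, Nat.one_le_div_iff (by omega)]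
    nlinarith
  obtain ⟨g, τ, hτ, hTs⟩ := exists_grouping hn3 T m hm1
  obtain ⟨h, κ, hκ, hFs⟩ := exists_grouping hn3 F m hm1
  have h1 := good_count (g := g) (h := h) (r := r) (τ := τ) (κ := κ)
    ((n : ℝ) ^ 2 / (1296 * (r : ℝ) ^ 2)) (by positivity)
    (fun D hD hc => ext_count hτ hκ hr hn hm D hD hc)
  have h2 := commonCount_ge (r := r) T F hTs hFs
  rw [div_le_iff₀ (by positivity)]
  refine h1.trans ?_
  rw [mul_comm]
  apply mul_le_mul_of_nonneg_right _ (by positivity)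
  exact_mod_cast h2

theorem s_mem (hn : 3 ≤ n) (k : ℕ) : ∃ T F : PhyloTree n, s n k = T.commonCount F k := by
  obtain ⟨T0, _, _⟩ := exists_caterpillar hn (1 : Equiv.Perm (Fin n))
  have hne : {m | ∃ T F : PhyloTree n, m = T.commonCount F k}.Nonempty := ⟨_, T0, T0, rfl⟩
  exact Nat.sInf_mem hne

/-- The lower bound for `s`. -/
theorem s_lower (hn3 : 3 ≤ n) (r : ℕ) (hr : 1 ≤ r) (hn : 324 * r ^ 2 ≤ n) :
    ((n : ℝ) ^ 2 / (1296 * (r : ℝ) ^ 2)) ^ r / (r.factorial : ℝ) ≤ (s n (n - r) : ℝ) := by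
  obtain ⟨T, F, h⟩ := s_mem hn3 (n - r)
  rw [h]
  exact commonCount_lower hn3 T F r hr hn

/-- The upper bound for `c`. -/
theorem c_upper' (hn3 : 3 ≤ n) (r : ℕ) (hr : 1 ≤ r) (hn : r ^ 2 ≤ n) :
    (c n (n - r) : ℝ) ≤ (800 * (n : ℝ) ^ 2 / (r : ℝ) ^ 3) ^ r := by
  have hrn : r < n := by nlinarith
  obtain ⟨σ, hσ⟩ := first_moment hr hrn
  have h1 : (c n (n - r) : ℝ) ≤ ((common 1 σ (n - r)).card : ℝ) := by
    exact_mod_cast c_le hn3 σ (n - r)
  exact h1.trans (hσ.trans (sum_up n r hr hn))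

/-- What is used of `s n` and `c n`. -/
structure Bds (n : ℕ) (x : ℕ → ℕ) : Prop where
  low : ∀ r : ℕ, 1 ≤ r → 324 * r ^ 2 ≤ n →
    ((n : ℝ) ^ 2 / (1296 * (r : ℝ) ^ 2)) ^ r / (r.factorial : ℝ) ≤ (x (n - r) : ℝ)
  up : ∀ r : ℕ, 1 ≤ r → r ^ 2 ≤ n → (x (n - r) : ℝ) ≤ (800 * (n : ℝ) ^ 2 / (r : ℝ) ^ 3) ^ r
  ch : ∀ r : ℕ, 1 ≤ r → n.choose (r + 1) ≤ x (n - r)
  top : x n ≤ 1

theorem bds (hn3 : 3 ≤ n) (x : ℕ → ℕ) (hx : x = s n ∨ x = c n) : Bds n x := by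
  have hc : ∀ k, (s n k : ℝ) ≤ c n k := fun k => by exact_mod_cast s_le_c hn3 k
  have htop : c n n ≤ 1 := by
    obtain ⟨T, hT, _⟩ := exists_caterpillar hn3 (1 : Equiv.Perm (Fin n))
    exact (Nat.sInf_le ⟨T, T, hT, hT, rfl⟩ : c n n ≤ T.commonCount T n).trans
      (commonCount_top T T)
  rcases hx with rfl | rfl
  · exact ⟨fun r hr h => s_lower hn3 r hr h, fun r hr h => (hc _).trans (c_upper' hn3 r hr h),
      fun r hr => choose_le_s hn3 r hr, (s_le_c hn3 n).trans htop⟩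
  · exact ⟨fun r hr h => (s_lower hn3 r hr h).trans (hc _), fun r hr h => c_upper' hn3 r hr h,
      fun r hr => (choose_le_s hn3 r hr).trans (s_le_c hn3 _), htop⟩

theorem sq_le_pow (r : ℕ) (hr : 1 ≤ r) : 324 * r ^ 2 ≤ 2000 ^ r := by
  induction r, hr using Nat.le_induction with
  | base => norm_num
  | succ r hr ih =>
    rw [pow_succ 2000]
    nlinarith

/-- The last terms are decreasing in `k`. -/
theorem last_mono {x : ℕ → ℕ} (hx : Bds n x) (hn3 : 3 ≤ n) (r : ℕ) (hr : 1 ≤ r)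
    (h : 2000 ^ r ≤ n) : x (n - r + 1) ≤ x (n - r) := by
  obtain ⟨q, rfl⟩ : ∃ q, r = q + 1 := ⟨r - 1, by omega⟩
  have hr2 := (sq_le_pow (q + 1) hr).trans h
  have hqn : q + 1 < n := by nlinarith
  have e1 : n - (q + 1) + 1 = n - q := by omega
  rw [e1]
  rcases Nat.eq_zero_or_pos q with rfl | hq
  · have h1 := hx.ch 1 le_rfl
    have h2 : 1 ≤ n.choose (1 + 1) := Nat.choose_pos (by omega)
    have h3 := hx.top
    simp only [Nat.sub_zero, Nat.zero_add] at *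
    omega
  · have h1 := hx.up q hq (by nlinarith)
    have h2 := hx.low (q + 1) (by omega) hr2
    have h3 := num_mono n q hq h
    exact_mod_cast h1.trans (h3.trans h2)

/-- Coarse monotonicity. -/
theorem far_mono {x : ℕ → ℕ} (hx : Bds n x) (hn : 10 ^ 10 ≤ n) (r s : ℕ) (hr : 1 ≤ r)
    (hrn : r ^ 2 ≤ n) (hrs : r < s) (hsn : 2 * s < n)
    (h : 60 * (r : ℝ) ≤ ((s : ℝ) - r) * Real.log n) : x (n - r) ≤ x (n - s) := by
  have h1 := hx.up r hr hrn
  rcases Nat.lt_or_ge n (324 * s ^ 2) with h2 | h2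
  · have h3 := num_far_choose n r s hn hr hrn hrs h2 hsn h
    have h4 := hx.ch s (by omega)
    have h5 : (x (n - r) : ℝ) ≤ (n.choose (s + 1) : ℝ) := h1.trans h3
    have h6 : x (n - r) ≤ n.choose (s + 1) := by exact_mod_cast h5
    exact h6.trans h4
  · have h3 := num_far n r s hr hrs h2 h
    have h4 := hx.low s (by omega) h2
    exact_mod_cast h1.trans (h3.trans h4)

/-- Larger than the binomial coefficient. -/
theorem choose_lt {x : ℕ → ℕ} (hx : Bds n x) (hn : 9 * 10 ^ 6 ≤ n) (r : ℕ) (hr : 2 ≤ r)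
    (h : 5184 * r ^ 2 ≤ n) : n.choose (r + 1) < x (n - r) := by
  have h1 := num_choose n r hn hr h
  have h2 := hx.low r (by omega) (by omega)
  exact_mod_cast h1.trans_le h2

end Pool.Agent.CatW
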