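import Mathlib

/-!
Module NumD0: `n.choose k ≥ (n / k) ^ k`.

Proof. `n.choose k = ∏ i ∈ range k, (n - i) / (k - i)` and `(n - i) / (k - i) ≥ n / k`; or induction on
`k` with `n` general: `n.choose k = (n / k) (n - 1).choose (k - 1)` (`Nat.add_one_mul_choose_eq`) and
`(n - 1) / (k - 1) ≥ n / k`.
-/

set_option autoImplicit false

namespace Pool.Agent.CatW

private theorem pow_le_choose_aux (k : ℕ) : ∀ n : ℕ, k ≤ n → ((n : ℝ) / (k : ℝ)) ^ k ≤ (n.choose k : ℝ) := by
  induction k with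
  | zero =>
    intro n _
    simp
  | succ k ih =>
    intro n hn
    obtain ⟨m, rfl⟩ : ∃ m, n = m + 1 := ⟨n - 1, by omega⟩
    have hkm : k ≤ m := by omega
    have h1 := ih m hkm
    have h2 : ((m : ℝ) + 1) * (m.choose k : ℝ) = ((m + 1).choose (k + 1) : ℝ) * ((k : ℝ) + 1) := by
      exact_mod_cast Nat.add_one_mul_choose_eq m k
    have h3 : (((m + 1 : ℕ) : ℝ) / ((k + 1 : ℕ) : ℝ)) ^ k ≤ ((m : ℝ) / (k : ℝ)) ^ k := by
      rcases Nat.eq_zero_or_pos k with hk | hk
      · subst hk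
        simp
      · have hk' : (0 : ℝ) < k := by exact_mod_cast hk
        have hkm' : (k : ℝ) ≤ m := by exact_mod_cast hkm
        refine pow_le_pow_left₀ (by positivity) ?_ k
        rw [div_le_div_iff₀ (by positivity) hk']
        push_cast
        nlinarith
    have h4 : ((m + 1).choose (k + 1) : ℝ) = (m.choose k : ℝ) * (((m + 1 : ℕ) : ℝ) / ((k + 1 : ℕ) : ℝ)) := by
      have h5 : ((k : ℝ) + 1) ≠ 0 := by positivity
      push_cast
      rw [mul_div_assoc', eq_div_iff h5]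
      linarith
    rw [pow_succ, h4]
    exact mul_le_mul_of_nonneg_right (h3.trans h1) (by positivity)

theorem pow_le_choose' (n k : ℕ) (hk : 1 ≤ k) (hkn : k ≤ n) :
    ((n : ℝ) / (k : ℝ)) ^ k ≤ (n.choose k : ℝ) :=
  pow_le_choose_aux k n hkn

end Pool.Agent.CatW
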