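import Pool.Agent.CatW.NumD0

/-!
Module NumD1: the upper bound for `r` is at most `n.choose (s + 1)`, if `sqrt n / 18 < s ≤ 2 sqrt n`
and `s - r` is at least `60 r / log n`.

Proof. Let `L = log n ≥ 23` (`log 10 > 2.302`). `s + 1 ≤ 2 sqrt n + 1 ≤ 3 sqrt n`, so by `pow_le_choose'`
`log (n.choose (s + 1)) ≥ (s + 1) (L - log (s + 1)) ≥ s (L / 2 - log 3)`. To show (logarithms):
`r (log 800 + 2 L - 3 log r) ≤ s (L / 2 - log 3)`. By `r log (s / r) ≤ s - r` and
`log s ≥ L / 2 - log 18` (as `n < 324 s ^ 2`) the left side is at most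
`r (log 800 + 2 L) - 3 r log s + 3 (s - r) ≤ r (L / 2 + log 800 + 3 log 18) + 3 (s - r)`. So it is
enough that `r (log 800 + 3 log 18 + log 3) ≤ (s - r) (L / 2 - log 3 - 3)`: left side
`≤ 16.46 r ≤ 0.2744 (s - r) L` and `L / 2 - 4.1 ≥ 0.2744 L` as `L ≥ 23`.
-/

set_option autoImplicit false

namespace Pool.Agent.CatW

theorem num_far_choose_near (n r s : ℕ) (hn : 10 ^ 10 ≤ n) (hr : 1 ≤ r)
    (hrs : r < s) (hs : n < 324 * s ^ 2) (hsn : s ≤ 2 * Nat.sqrt n)
    (h : 60 * (r : ℝ) ≤ ((s : ℝ) - r) * Real.log n) :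
    (800 * (n : ℝ) ^ 2 / (r : ℝ) ^ 3) ^ r ≤ (n.choose (s + 1) : ℝ) := by
  have hnR : (10 : ℝ) ^ 10 ≤ (n : ℝ) := by exact_mod_cast hn
  have hn0 : (0 : ℝ) < n := lt_of_lt_of_le (by norm_num) hnR
  have hr0 : (0 : ℝ) < r := by exact_mod_cast (by omega : 0 < r)
  have hs0 : (0 : ℝ) < s := by exact_mod_cast (by omega : 0 < s)
  have hrsR : (r : ℝ) < s := by exact_mod_cast hrs
  set L := Real.log (n : ℝ) with hLdef
  -- lower bound for `L`
  have hL : 22 ≤ L := by
    have h1 : Real.log ((2 : ℝ) ^ 33) ≤ Real.log (n : ℝ) := by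
      refine Real.log_le_log (by norm_num) (le_trans ?_ hnR)
      norm_num
    rw [Real.log_pow] at h1
    have h2 := Real.log_two_gt_d9
    push_cast at h1
    rw [hLdef]
    linarith
  -- the square root
  have hsq : (Nat.sqrt n : ℝ) ≤ Real.sqrt n := Real.nat_sqrt_le_real_sqrt
  have hsq1 : (10 : ℝ) ^ 5 ≤ Real.sqrt n := by
    refine Real.le_sqrt_of_sq_le ?_
    have h1 : ((10 : ℝ) ^ 5) ^ 2 = (10 : ℝ) ^ 10 := by norm_num
    rw [h1]
    exact hnR
  have hsq0 : (0 : ℝ) < Real.sqrt n := lt_of_lt_of_le (by norm_num) hsq1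
  have hsqsq : Real.sqrt n * Real.sqrt n = n := Real.mul_self_sqrt hn0.le
  have hs1 : (s : ℝ) + 1 ≤ 3 * Real.sqrt n := by
    have h1 : (s : ℝ) ≤ 2 * (Nat.sqrt n : ℝ) := by exact_mod_cast hsn
    linarith
  have hs1n : s + 1 ≤ n := by
    have h1 : (s : ℝ) + 1 ≤ n := by nlinarith
    exact_mod_cast h1
  -- the logarithms of the constants
  have hl3 : Real.log 3 ≤ 1.11 := by
    have h1 : Real.log ((3 : ℝ) ^ 5) ≤ Real.log ((2 : ℝ) ^ 8) :=
      Real.log_le_log (by norm_num) (by norm_num)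
    rw [Real.log_pow, Real.log_pow] at h1
    have h2 := Real.log_two_lt_d9
    push_cast at h1
    linarith
  have hlc : Real.log 800 + 3 * Real.log 18 + Real.log 3 ≤ 16.64 := by
    have h1 : Real.log ((800 : ℝ) * 18 ^ 3 * 3) ≤ Real.log ((2 : ℝ) ^ 24) :=
      Real.log_le_log (by norm_num) (by norm_num)
    rw [Real.log_mul (by norm_num) (by norm_num), Real.log_mul (by norm_num) (by norm_num),
      Real.log_pow, Real.log_pow] at h1
    have h2 := Real.log_two_lt_d9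
    push_cast at h1
    linarith
  -- `log s` and `log r`
  have hlogs : L / 2 - Real.log 18 ≤ Real.log s := by
    have h1 : (n : ℝ) ≤ 324 * (s : ℝ) ^ 2 := by exact_mod_cast hs.le
    have h2 : Real.log (n : ℝ) ≤ Real.log (((18 : ℝ) * s) ^ 2) := by
      refine Real.log_le_log hn0 (h1.trans (le_of_eq ?_))
      ring
    rw [Real.log_pow, Real.log_mul (by norm_num) hs0.ne'] at h2
    push_cast at h2
    rw [hLdef]
    linarith
  have hlogr : (r : ℝ) * (Real.log s - Real.log r) ≤ s - r := by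
    have h1 := Real.log_le_sub_one_of_pos (div_pos hs0 hr0)
    rw [Real.log_div hs0.ne' hr0.ne'] at h1
    calc (r : ℝ) * (Real.log s - Real.log r) ≤ r * ((s : ℝ) / r - 1) :=
          mul_le_mul_of_nonneg_left h1 hr0.le
      _ = s - r := by field_simp
  -- the inequality between the logarithms
  have hkey : (r : ℝ) * (Real.log 800 + 2 * L - 3 * Real.log r) ≤
      (s : ℝ) * (L / 2 - Real.log 3) := by
    have h1 : (r : ℝ) * (L / 2 - Real.log 18) ≤ r * Real.log s :=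
      mul_le_mul_of_nonneg_left hlogs hr0.le
    have h2 : (r : ℝ) * (Real.log 800 + 3 * Real.log 18 + Real.log 3) ≤ r * 16.64 :=
      mul_le_mul_of_nonneg_left hlc hr0.le
    have hd : 0 < (s : ℝ) - r := sub_pos.2 hrsR
    have h3 : ((s : ℝ) - r) * (16.64 / 60 * L) ≤ ((s : ℝ) - r) * (L / 2 - Real.log 3 - 3) := by
      refine mul_le_mul_of_nonneg_left ?_ hd.le
      linarith
    have h4 : (r : ℝ) * 16.64 ≤ ((s : ℝ) - r) * (16.64 / 60 * L) := by
      have := mul_le_mul_of_nonneg_left h (by norm_num : (0 : ℝ) ≤ 16.64 / 60)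
      linarith
    nlinarith
  -- assembly
  have hx1 : (1 : ℝ) ≤ Real.sqrt n / 3 := by
    rw [le_div_iff₀ (by norm_num)]
    linarith
  have hx0 : (0 : ℝ) < Real.sqrt n / 3 := by positivity
  have hxy : Real.sqrt n / 3 ≤ (n : ℝ) / ((s + 1 : ℕ) : ℝ) := by
    rw [div_le_div_iff₀ (by norm_num) (by positivity)]
    push_cast
    nlinarith
  have hA : (Real.sqrt n / 3) ^ s ≤ (n.choose (s + 1) : ℝ) :=
    calc (Real.sqrt n / 3) ^ s ≤ (Real.sqrt n / 3) ^ (s + 1) :=
          pow_le_pow_right₀ hx1 (Nat.le_succ s)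
      _ ≤ ((n : ℝ) / ((s + 1 : ℕ) : ℝ)) ^ (s + 1) := pow_le_pow_left₀ hx0.le hxy _
      _ ≤ (n.choose (s + 1) : ℝ) := pow_le_choose' n (s + 1) (by omega) hs1n
  refine le_trans ?_ hA
  have hb0 : (0 : ℝ) < 800 * (n : ℝ) ^ 2 / (r : ℝ) ^ 3 := by positivity
  rw [← Real.log_le_log_iff (pow_pos hb0 r) (pow_pos hx0 s), Real.log_pow, Real.log_pow,
    Real.log_div (by positivity) (by positivity), Real.log_mul (by norm_num) (by positivity),
    Real.log_pow, Real.log_pow, Real.log_div hsq0.ne' (by norm_num), Real.log_sqrt hn0.le]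
  push_cast
  exact hkey

end Pool.Agent.CatW
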