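import Mathlib

/-!
Module NumE: the sum of the ratios is at most one half.

Proof. `r = p + 1 ≥ q ≥ 3`. `(r).choose q ≤ r ^ q / q!`, `(2 n).choose (q + 1) ≤
(2 n) ^ (q + 1) / (q + 1)!`, `w ≥ n / (2 r ^ 2)`, so `w ^ 2 ≥ n ^ 2 / (4 r ^ 4)`, and the term is at
most `2 n * (2 n * 1296 q ^ 2 * r / w ^ 2) ^ q / (q + 1)! ≤
2 n * (10368 r ^ 5 q ^ 2 / n) ^ q / (q + 1)!`. By `q ^ q ≤ 3 ^ q * q!` and `q ≤ r` this is at most
`2 n * (31104 r ^ 6 / n) ^ q`. With `z = 31104 r ^ 6 / n ≤ 1 / 2` (even `z ≤ 31104 / (10 ^ 8 r ^ 3)`)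
and `q ≥ 3` the sum over `q` is at most `4 n z ^ 3 = 4 * 31104 ^ 3 * r ^ 18 / n ^ 2 ≤
1.3 * 10 ^ 14 / 10 ^ 16 ≤ 1 / 2`.
-/

set_option autoImplicit false

namespace Pool.Agent.CatW

open Finset

private theorem ne_self_pow (q : ℕ) : (q : ℝ) ^ q ≤ 3 ^ q * (q.factorial : ℝ) := by
  have h1 := Real.pow_div_factorial_le_exp (q : ℝ) (Nat.cast_nonneg q) q
  have h2 : Real.exp (q : ℝ) = Real.exp 1 ^ q := by
    rw [← Real.exp_nat_mul, mul_one]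
  have h3 : Real.exp 1 ≤ 3 := by
    have := Real.exp_one_lt_d9
    linarith
  have h4 : Real.exp 1 ^ q ≤ 3 ^ q := pow_le_pow_left₀ (Real.exp_pos 1).le h3 q
  have h5 : (0 : ℝ) < (q.factorial : ℝ) := by exact_mod_cast q.factorial_pos
  rw [div_le_iff₀ h5] at h1
  calc (q : ℝ) ^ q ≤ Real.exp (q : ℝ) * (q.factorial : ℝ) := h1
    _ ≤ 3 ^ q * (q.factorial : ℝ) := by
        rw [h2]
        exact mul_le_mul_of_nonneg_right h4 h5.le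

private theorem ne_term {n r w : ℝ} {q c d : ℕ} {f g : ℝ} (hr : 1 ≤ r) (hn : 10 ^ 8 * r ^ 9 ≤ n)
    (hw : n / (2 * r ^ 2) ≤ w) (hq : 3 ≤ q) (hqr : (q : ℝ) ≤ r) (hf : 0 < f) (hg : f ≤ g)
    (hc : (c : ℝ) ≤ r ^ q / f) (hd : (d : ℝ) ≤ (2 * n) ^ (q + 1) / g)
    (hqq : (q : ℝ) ^ q ≤ 3 ^ q * f) :
    (c : ℝ) * (d : ℝ) / ((w ^ 2 / (1296 * (q : ℝ) ^ 2)) ^ q / f) ≤ 1 / 4 * (1 / 2) ^ q := by
  have hr0 : 0 < r := by linarith
  have hn0 : 0 < n := lt_of_lt_of_le (by positivity) hn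
  have hq0 : (0 : ℝ) < q := by exact_mod_cast (by omega : 0 < q)
  have hg0 : 0 < g := lt_of_lt_of_le hf hg
  have hw0 : 0 < w := lt_of_lt_of_le (by positivity) hw
  have hbase : n ^ 2 / (5184 * r ^ 4 * (q : ℝ) ^ 2) ≤ w ^ 2 / (1296 * (q : ℝ) ^ 2) := by
    have h1 : (n / (2 * r ^ 2)) ^ 2 ≤ w ^ 2 := pow_le_pow_left₀ (by positivity) hw 2
    calc n ^ 2 / (5184 * r ^ 4 * (q : ℝ) ^ 2) = (n / (2 * r ^ 2)) ^ 2 / (1296 * (q : ℝ) ^ 2) := by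
          field_simp
          ring
      _ ≤ w ^ 2 / (1296 * (q : ℝ) ^ 2) := by gcongr
  have hden : (n ^ 2 / (5184 * r ^ 4 * (q : ℝ) ^ 2)) ^ q / f ≤
      (w ^ 2 / (1296 * (q : ℝ) ^ 2)) ^ q / f := by gcongr
  have hden0 : 0 < (n ^ 2 / (5184 * r ^ 4 * (q : ℝ) ^ 2)) ^ q / f := by positivity
  have hz : 31104 * r ^ 6 / n ≤ 1 / 2 := by
    rw [div_le_iff₀ hn0]
    have h1 : r ^ 6 ≤ r ^ 9 := pow_le_pow_right₀ hr (by norm_num)
    have h2 : 0 < r ^ 6 := by positivity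
    nlinarith
  have hz3 : 64 * n * (31104 * r ^ 6 / n) ^ 3 ≤ 1 := by
    have h1 : (10 ^ 8 * r ^ 9) ^ 2 ≤ n ^ 2 := pow_le_pow_left₀ (by positivity) hn 2
    have h2 : 64 * n * (31104 * r ^ 6 / n) ^ 3 = 64 * 31104 ^ 3 * r ^ 18 / n ^ 2 := by
      field_simp
    rw [h2, div_le_one (by positivity)]
    have h3 : 0 < r ^ 18 := by positivity
    nlinarith
  have hpw : (10368 * r ^ 5 * (q : ℝ) ^ 2 / n) ^ q ≤ (31104 * r ^ 6 / n) ^ q * f := by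
    have h1 : (10368 * r ^ 5 * (q : ℝ) ^ 2 / n) ^ q =
        (10368 * r ^ 5 / n) ^ q * ((q : ℝ) ^ q * (q : ℝ) ^ q) := by
      rw [← mul_pow, ← mul_pow]
      congr 1
      ring
    have h2 : (31104 * r ^ 6 / n) ^ q * f = (10368 * r ^ 5 / n) ^ q * (3 ^ q * f * r ^ q) := by
      have : 31104 * r ^ 6 / n = 10368 * r ^ 5 / n * (3 * r) := by ring
      rw [this, mul_pow, mul_pow]
      ring
    rw [h1, h2]
    have h3 : (q : ℝ) ^ q ≤ r ^ q := pow_le_pow_left₀ hq0.le hqr q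
    have h4 : (q : ℝ) ^ q * (q : ℝ) ^ q ≤ 3 ^ q * f * r ^ q :=
      mul_le_mul hqq h3 (by positivity) (by positivity)
    exact mul_le_mul_of_nonneg_left h4 (by positivity)
  have hzq : (31104 * r ^ 6 / n) ^ q ≤ (31104 * r ^ 6 / n) ^ 3 * (8 * (1 / 2) ^ q) := by
    obtain ⟨k, rfl⟩ : ∃ k, q = k + 3 := ⟨q - 3, by omega⟩
    have h1 : (31104 * r ^ 6 / n) ^ k ≤ (1 / 2) ^ k := pow_le_pow_left₀ (by positivity) hz k
    have h2 : (8 : ℝ) * (1 / 2) ^ (k + 3) = (1 / 2) ^ k := by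
      rw [pow_add]
      norm_num
      ring
    rw [h2, pow_add, mul_comm]
    exact mul_le_mul_of_nonneg_left h1 (by positivity)
  calc (c : ℝ) * (d : ℝ) / ((w ^ 2 / (1296 * (q : ℝ) ^ 2)) ^ q / f)
      ≤ (r ^ q / f) * ((2 * n) ^ (q + 1) / g) /
        ((n ^ 2 / (5184 * r ^ 4 * (q : ℝ) ^ 2)) ^ q / f) := by
        gcongr
    _ = 2 * n * (10368 * r ^ 5 * (q : ℝ) ^ 2 / n) ^ q / g := by
        have h1 : (10368 * r ^ 5 * (q : ℝ) ^ 2 / n) ^ q *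
            (n ^ 2 / (5184 * r ^ 4 * (q : ℝ) ^ 2)) ^ q = r ^ q * (2 * n) ^ q := by
          rw [← mul_pow, ← mul_pow]
          congr 1
          field_simp
          ring
        rw [div_eq_iff hden0.ne']
        calc (r ^ q / f) * ((2 * n) ^ (q + 1) / g) = 2 * n * (r ^ q * (2 * n) ^ q) / g / f := by
              rw [pow_succ]
              field_simp
          _ = _ := by
              rw [← h1]
              ring
    _ ≤ 2 * n * ((31104 * r ^ 6 / n) ^ q * f) / g := by gcongr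
    _ ≤ 2 * n * ((31104 * r ^ 6 / n) ^ q * g) / g := by gcongr
    _ = 2 * n * (31104 * r ^ 6 / n) ^ q := by
        field_simp
    _ ≤ 2 * n * ((31104 * r ^ 6 / n) ^ 3 * (8 * (1 / 2) ^ q)) := by gcongr
    _ = 64 * n * (31104 * r ^ 6 / n) ^ 3 * (1 / 4 * (1 / 2) ^ q) := by ring
    _ ≤ 1 * (1 / 4 * (1 / 2) ^ q) := by gcongr
    _ = 1 / 4 * (1 / 2) ^ q := one_mul _

theorem num_ratio (n p : ℕ) (w : ℝ) (hn : 10 ^ 8 * (p + 1) ^ 9 ≤ n) (hw0 : 0 < w)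
    (hw : (n : ℝ) / (2 * ((p : ℝ) + 1) ^ 2) ≤ w) :
    ∑ q ∈ Icc 3 (p + 1), ((p + 1).choose q : ℝ) * ((2 * n).choose (q + 1) : ℝ) /
      ((w ^ 2 / (1296 * (q : ℝ) ^ 2)) ^ q / (q.factorial : ℝ)) ≤ 1 / 2 := by
  have hr1 : (1 : ℝ) ≤ (p : ℝ) + 1 := by
    have : (0 : ℝ) ≤ p := Nat.cast_nonneg p
    linarith
  have hnR : 10 ^ 8 * ((p : ℝ) + 1) ^ 9 ≤ (n : ℝ) := by exact_mod_cast hn
  have key : ∀ q ∈ Icc 3 (p + 1), ((p + 1).choose q : ℝ) * ((2 * n).choose (q + 1) : ℝ) /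
      ((w ^ 2 / (1296 * (q : ℝ) ^ 2)) ^ q / (q.factorial : ℝ)) ≤ 1 / 4 * (1 / 2) ^ q := by
    intro q hq
    rw [mem_Icc] at hq
    refine ne_term (g := ((q + 1).factorial : ℝ)) hr1 hnR hw hq.1 (by exact_mod_cast hq.2)
      (by exact_mod_cast q.factorial_pos)
      (by exact_mod_cast Nat.factorial_le (Nat.le_succ q)) ?_ ?_ (ne_self_pow q)
    · have := Nat.choose_le_pow_div (α := ℝ) q (p + 1)
      push_cast at this
      exact this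
    · have := Nat.choose_le_pow_div (α := ℝ) (q + 1) (2 * n)
      push_cast at this ⊢
      exact this
  calc ∑ q ∈ Icc 3 (p + 1), ((p + 1).choose q : ℝ) * ((2 * n).choose (q + 1) : ℝ) /
      ((w ^ 2 / (1296 * (q : ℝ) ^ 2)) ^ q / (q.factorial : ℝ))
      ≤ ∑ q ∈ Icc 3 (p + 1), 1 / 4 * (1 / 2 : ℝ) ^ q := sum_le_sum key
    _ ≤ ∑ q ∈ range (p + 2), 1 / 4 * (1 / 2 : ℝ) ^ q := by
        refine sum_le_sum_of_subset_of_nonneg ?_ fun _ _ _ => by positivity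
        intro q hq
        rw [mem_Icc] at hq
        rw [mem_range]
        omega
    _ = 1 / 4 * ∑ q ∈ range (p + 2), (1 / (2 : ℝ)) ^ q := (mul_sum _ _ _).symm
    _ ≤ 1 / 4 * 2 := by
        gcongr
        exact sum_geometric_two_le _
    _ = 1 / 2 := by norm_num

end Pool.Agent.CatW
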