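import Pool.Agent.CatW.Main
import Pool.Agent.CatU.Mono

/-!
Module Peak: the maximum of `s n` and of `c n` is in the middle.
-/

set_option autoImplicit false

namespace Pool.Agent.CatW

open Finset Pool.Agent.Hhelper51.Cat Pool.Agent.CatU

theorem peak : ∃ n₀ : ℕ, ∀ n : ℕ, n₀ ≤ n → ∀ x : ℕ → ℕ, x = s n ∨ x = c n →
    ∀ k : ℕ, 1 ≤ k → k ≤ n → x k ≤ max (x (n / 2 + 1)) (x (n / 2 + 2)) := by
  obtain ⟨m0, hm0⟩ := c_upper
  refine ⟨10 ^ 10 + m0 ^ 2 + 2 * m0, fun n hn x hx => ?_⟩
  have hn3 : 3 ≤ n := by omega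
  have hbd : Bd n m0 x := by
    rcases hx with rfl | rfl
    · refine ⟨fun r hr => choose_le_s hn3 r hr, fun r h1 h2 h3 => ?_⟩
      refine le_trans ?_ (hm0 r h1 n hn3 h2 h3)
      exact_mod_cast s_le_c hn3 (n - r)
    · refine ⟨fun r hr => (choose_le_s hn3 r hr).trans (s_le_c hn3 _), fun r h1 h2 h3 => ?_⟩
      exact hm0 r h1 n hn3 h2 h3
  have hb := bds hn3 x hx
  have hinc : ∀ k : ℕ, 1 ≤ k → 2 * k ≤ n → x k ≤ x (k + 1) := fun k h1 h2 =>
    incr hbd (by omega) (by omega) h1 h2
  have hdec : ∀ k : ℕ, n + 2 ≤ 2 * k → k + 1 < n → n ≤ (n - (k + 1)) ^ 2 → x (k + 1) ≤ x k :=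
    fun k h1 h2 h3 => decr hbd (by omega) (by omega) h1 (by omega) h3
  -- up to the middle
  have hup : ∀ d : ℕ, ∀ k : ℕ, 1 ≤ k → k + d = n / 2 + 1 → x k ≤ x (n / 2 + 1) := by
    intro d
    induction d with
    | zero =>
      intro k _ h
      have : k = n / 2 + 1 := by omega
      rw [this]
    | succ d ih =>
      intro k h1 h2
      exact (hinc k h1 (by omega)).trans (ih (k + 1) (by omega) (by omega))
  -- after the middle
  have hdown : ∀ d : ℕ, n / 2 + 2 + d < n → n ≤ (n - (n / 2 + 2 + d)) ^ 2 →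
      x (n / 2 + 2 + d) ≤ x (n / 2 + 2) := by
    intro d
    induction d with
    | zero =>
      intro _ _
      exact le_rfl
    | succ d ih =>
      intro h1 h2
      have h3 := hdec (n / 2 + 2 + d) (by omega) (by omega) h2
      refine h3.trans (ih (by omega) (h2.trans (Nat.pow_le_pow_left (by omega) 2)))
  intro k h1 h2
  rcases Nat.lt_or_ge k (n / 2 + 2) with h3 | h3
  · exact le_max_of_le_left (hup (n / 2 + 1 - k) k h1 (by omega))
  · refine le_max_of_le_right ?_
    rcases Nat.eq_or_lt_of_le h2 with h4 | h4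
    · rw [h4]
      have h5 := hb.ch (n - (n / 2 + 2)) (by omega)
      have h6 : n - (n - (n / 2 + 2)) = n / 2 + 2 := by omega
      rw [h6] at h5
      have h7 : 1 ≤ n.choose (n - (n / 2 + 2) + 1) := Nat.choose_pos (by omega)
      have h8 := hb.top
      omega
    · rcases Nat.lt_or_ge ((n - k) ^ 2) n with h5 | h5
      · have h6 : 2 * (n - (n / 2 + 2)) < n := by omega
        have h7 : 200 * (n - k) + 4 ≤ n := by
          by_contra hcon
          push Not at hcon
          nlinarith
        have h8 := far_mono hb (by omega) (n - k) (n - (n / 2 + 2)) (by omega) h5.le (by omega) h6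
          (by
            have h9 : (n - k : ℕ) * 61 ≤ n - (n / 2 + 2) := by omega
            have h10 : ((n - k : ℕ) : ℝ) * 61 ≤ ((n - (n / 2 + 2) : ℕ) : ℝ) := by
              exact_mod_cast h9
            have h11 : (1 : ℝ) ≤ Real.log n := by
              rw [Real.le_log_iff_exp_le (by positivity)]
              have h12 : (3 : ℝ) ≤ n := by exact_mod_cast hn3
              have h13 := Real.exp_one_lt_d9
              linarith
            have h14 : (0 : ℝ) ≤ ((n - k : ℕ) : ℝ) := Nat.cast_nonneg _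
            nlinarith)
        have h15 : n - (n - k) = k := by omega
        have h16 : n - (n - (n / 2 + 2)) = n / 2 + 2 := by omega
        rw [h15, h16] at h8
        exact h8
      · obtain ⟨d, hd⟩ : ∃ d, d = k - (n / 2 + 2) := ⟨_, rfl⟩
        have h6 : k = n / 2 + 2 + d := by omega
        rw [h6]
        exact hdown d (by omega) (by rw [← h6]; exact h5)

end Pool.Agent.CatW
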