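import Pool.Agent.CatW.FmDefs
import Pool.Agent.Hhelper51.Cat.TreesB

/-!
Module SpanA: spans of leaf sets in a tree.

Proof. `path_sub`: the walk `q` contains a path with the same ends (`bypass`, whose support is a
sublist), and paths in an acyclic graph are unique (`SimpleGraph.IsAcyclic.path_unique`).
`span_path`: `x` lies on a path from `c₁` to `c₂`, `y` on a path from `d₁` to `d₂` (leaves of `A`);
by `path_sub` the path from `x` to `y` is contained in the walk from `x` to `c₁` to `d₁` to `y`,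
whose three parts are in the span (the first is part of the path from `c₁` to `c₂`, the second is a
path between two leaves of `A`).
`span_union`: a path from `leaf u` to `leaf v` with `u, v ∈ A ∪ U` is contained in the walk from `u`
to some `a ∈ A` to `v`.
-/

set_option autoImplicit false

namespace Pool.Agent.CatW

open Finset Pool.Agent.Hhelper51.Cat

variable {n : ℕ}

private theorem SpanA_path (T : PhyloTree n) (x y : T.V) : ∃ p : T.G.Walk x y, p.IsPath := by
  classical
  obtain ⟨w⟩ := T.isTree.1.preconnected x y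
  exact ⟨w.bypass, w.bypass_isPath⟩

theorem leaf_mem_span (T : PhyloTree n) {A : Finset (Fin n)} {a : Fin n} (ha : a ∈ A) :
    T.leaf a ∈ T.span A :=
  ⟨a, ha, a, ha, SimpleGraph.Walk.nil, SimpleGraph.Walk.IsPath.nil, SimpleGraph.Walk.start_mem_support _⟩

theorem span_mono (T : PhyloTree n) {A B : Finset (Fin n)} (h : A ⊆ B) :
    T.span A ⊆ T.span B := by
  rintro v ⟨a, ha, b, hb, p, hp, hv⟩
  exact ⟨a, h ha, b, h hb, p, hp, hv⟩

theorem path_sub (T : PhyloTree n) {x y v : T.V} (p q : T.G.Walk x y) (hp : p.IsPath)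
    (hv : v ∈ p.support) : v ∈ q.support := by
  classical
  have h := T.isTree.2.path_unique ⟨p, hp⟩ ⟨q.bypass, q.bypass_isPath⟩
  have h2 : p = q.bypass := congrArg Subtype.val h
  rw [h2] at hv
  exact q.support_bypass_subset hv

theorem span_path (T : PhyloTree n) {A : Finset (Fin n)} {x y v : T.V} (hx : x ∈ T.span A)
    (hy : y ∈ T.span A) (p : T.G.Walk x y) (hp : p.IsPath) (hv : v ∈ p.support) :
    v ∈ T.span A := by
  classical
  obtain ⟨a1, ha1, a2, ha2, pa, hpa, hxa⟩ := hx
  obtain ⟨b1, hb1, b2, hb2, pb, hpb, hyb⟩ := hy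
  obtain ⟨r, hr⟩ := SpanA_path T (T.leaf a1) (T.leaf b1)
  have h := path_sub T p (((pa.takeUntil x hxa).reverse.append r).append (pb.takeUntil y hyb)) hp hv
  rw [SimpleGraph.Walk.mem_support_append_iff, SimpleGraph.Walk.mem_support_append_iff] at h
  rcases h with (h | h) | h
  · rw [SimpleGraph.Walk.support_reverse, List.mem_reverse] at h
    exact ⟨a1, ha1, a2, ha2, pa, hpa, pa.support_takeUntil_subset hxa h⟩
  · exact ⟨a1, ha1, b1, hb1, r, hr, h⟩
  · exact ⟨b1, hb1, b2, hb2, pb, hpb, pb.support_takeUntil_subset hyb h⟩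

theorem span_union (T : PhyloTree n) {A U : Finset (Fin n)} (hA : A.Nonempty) {v : T.V}
    (hv : v ∈ T.span (A ∪ U)) : v ∈ T.span A ∨ ∃ u ∈ U, v ∈ T.span (insert u A) := by
  classical
  obtain ⟨a0, ha0⟩ := hA
  obtain ⟨u1, hu1, u2, hu2, p, hp, hvp⟩ := hv
  obtain ⟨r1, hr1⟩ := SpanA_path T (T.leaf u1) (T.leaf a0)
  obtain ⟨r2, hr2⟩ := SpanA_path T (T.leaf a0) (T.leaf u2)
  have h := path_sub T p (r1.append r2) hp hvp
  rw [SimpleGraph.Walk.mem_support_append_iff] at h
  rcases h with h | h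
  · rcases mem_union.1 hu1 with h1 | h1
    · exact Or.inl ⟨u1, h1, a0, ha0, r1, hr1, h⟩
    · exact Or.inr ⟨u1, h1, u1, mem_insert_self _ _, a0, mem_insert_of_mem ha0, r1, hr1, h⟩
  · rcases mem_union.1 hu2 with h1 | h1
    · exact Or.inl ⟨a0, ha0, u2, h1, r2, hr2, h⟩
    · exact Or.inr ⟨u2, h1, a0, mem_insert_of_mem ha0, u2, mem_insert_self _ _, r2, hr2, h⟩

end Pool.Agent.CatW
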