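import Pool.Agent.CatW.SpanA

/-!
Module SpanB: every leaf is nearest to some class.

Proof. Let `d C` be the least `T.G.dist (T.leaf u) x` over `x ∈ T.span C` (not empty). Take `C ∈ D`
with the least `d C`, `x ∈ T.span C` with `T.G.dist (T.leaf u) x = d C`, and a path `p` of length
`d C` from `T.leaf u` to `x`. If `y ∈ p.support` lies in `T.span C'`, `C' ≠ C`, then
`d C ≤ d C' ≤ dist (leaf u) y ≤ d C`, so the part of `p` up to `y` has the full length and `y = x`:
impossible as the spans of `C` and `C'` are disjoint. Now let `v ∈ T.span (insert u C)`, on a path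
between leaves `a`, `b` of `insert u C`. If both are in `C` then `v ∈ T.span C`; otherwise the path is
contained (`path_sub`) in the walk from `u` along `p` to `x` and then inside `T.span C`
(`span_path`) to the leaf of `C` (or the path is the trivial one from `u` to `u`). So
`v ∈ p.support` or `v ∈ T.span C`, and `v ∉ T.span C'`.
-/

set_option autoImplicit false

namespace Pool.Agent.CatW

open Finset Pool.Agent.Hhelper51.Cat

variable {n : ℕ}

/-- A walk to a point of the span of `C`, inside `S` and the span. -/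
private theorem SpanB_walk (T : PhyloTree n) {C : Finset (Fin n)} {u a : Fin n} {x : T.V}
    (hx : x ∈ T.span C) (p : T.G.Walk (T.leaf u) x) (ha : a ∈ insert u C) :
    ∃ w : T.G.Walk (T.leaf a) x, ∀ v ∈ w.support, v ∈ p.support ∨ v ∈ T.span C := by
  classical
  rcases Finset.mem_insert.1 ha with rfl | h
  · exact ⟨p, fun v hv => Or.inl hv⟩
  · obtain ⟨w⟩ := T.isTree.1.preconnected (T.leaf a) x
    refine ⟨w.bypass, fun v hv => Or.inr ?_⟩
    exact span_path T (leaf_mem_span T h) hx w.bypass w.bypass_isPath hv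

theorem exists_near (T : PhyloTree n) (D : Finset (Finset (Fin n))) (hne : D.Nonempty)
    (hC : ∀ C ∈ D, C.Nonempty)
    (hd : ∀ A ∈ D, ∀ B ∈ D, A ≠ B → Disjoint (T.span A) (T.span B)) (u : Fin n) :
    ∃ C ∈ D, ∀ C' ∈ D, C' ≠ C → Disjoint (T.span (insert u C)) (T.span C') := by
  classical
  obtain ⟨d, hdd⟩ : ∃ d : Finset (Fin n) → ℕ, d = fun C =>
    sInf {k | ∃ x ∈ T.span C, T.G.dist (T.leaf u) x = k} := ⟨_, rfl⟩
  have hle : ∀ C, ∀ y ∈ T.span C, d C ≤ T.G.dist (T.leaf u) y := by
    intro C y hy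
    rw [hdd]
    exact Nat.sInf_le ⟨y, hy, rfl⟩
  have hex : ∀ C ∈ D, ∃ x ∈ T.span C, T.G.dist (T.leaf u) x = d C := by
    intro C hCD
    obtain ⟨c, hc⟩ := hC C hCD
    rw [hdd]
    exact Nat.sInf_mem (s := {k | ∃ x ∈ T.span C, T.G.dist (T.leaf u) x = k})
      ⟨_, T.leaf c, leaf_mem_span T hc, rfl⟩
  obtain ⟨C, hCD, hmin⟩ := Finset.exists_min_image D d hne
  obtain ⟨x, hx, hxd⟩ := hex C hCD
  obtain ⟨p, hp⟩ := T.isTree.1.exists_walk_length_eq_dist (T.leaf u) x
  have hoff : ∀ y ∈ p.support, ∀ C' ∈ D, C' ≠ C → y ∉ T.span C' := by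
    intro y hy C' hC' hne' hyC
    have h1 := hmin C' hC'
    have h2 := hle C' y hyC
    have h3 : T.G.dist (T.leaf u) y ≤ (p.takeUntil y hy).length := SimpleGraph.dist_le _
    have h4 : (p.takeUntil y hy).length + (p.dropUntil y hy).length = p.length := by
      rw [← SimpleGraph.Walk.length_append, SimpleGraph.Walk.take_spec]
    have h5 : (p.dropUntil y hy).length = 0 := by omega
    have h6 : y = x := SimpleGraph.Walk.eq_of_length_eq_zero h5
    rw [h6] at hyC
    exact Set.disjoint_left.1 (hd C' hC' C hCD hne') hyC hx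
  refine ⟨C, hCD, fun C' hC' hne' => ?_⟩
  rw [Set.disjoint_left]
  rintro v ⟨a, ha, b, hb, r, hr, hv⟩ hv'
  obtain ⟨w1, hw1⟩ := SpanB_walk T hx p ha
  obtain ⟨w2, hw2⟩ := SpanB_walk T hx p hb
  have h1 := path_sub T r (w1.append w2.reverse) hr hv
  rw [SimpleGraph.Walk.mem_support_append_iff, SimpleGraph.Walk.support_reverse,
    List.mem_reverse] at h1
  have h2 : v ∈ p.support ∨ v ∈ T.span C := by
    rcases h1 with h1 | h1
    · exact hw1 v h1
    · exact hw2 v h1
  rcases h2 with h2 | h2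
  · exact hoff v h2 C' hC' hne' hv'
  · exact Set.disjoint_left.1 (hd C' hC' C hCD hne') hv' h2

end Pool.Agent.CatW
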