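import Pool.Agent.CatW.Defs
import Pool.Agent.Hhelper51.Cat.TreesB

/-!
Module Split: an edge of the tree cuts off between `m` and `2 m - 1` of the leaves in `R`.
-/

set_option autoImplicit false

namespace Pool.Agent.CatW

open Finset Pool.Agent.Hhelper51.Cat

namespace SP

variable {V : Type} {G : SimpleGraph V}

/-- The vertices on the side of `w` of the edge between `v` and `w`. -/
def side (G : SimpleGraph V) (v w : V) : Set V :=
  {u | (G.deleteEdges {s(v, w)}).Reachable w u}

theorem self_mem (v w : V) : w ∈ side G v w := by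
  change (G.deleteEdges {s(v, w)}).Reachable w w
  exact SimpleGraph.Reachable.refl w

theorem not_mem (hG : G.IsAcyclic) {v w : V} (h : G.Adj v w) : v ∉ side G v w := by
  intro hv
  have h1 := (SimpleGraph.isAcyclic_iff_forall_adj_isBridge.1 hG) h
  rw [SimpleGraph.isBridge_iff] at h1
  have h2 : (G.deleteEdges {s(v, w)}).Reachable w v := hv
  exact h1 h2.symm

theorem step {v w x y : V} (hx : x ∈ side G v w) (hxy : G.Adj x y)
    (hne : s(x, y) ≠ s(v, w)) : y ∈ side G v w := by
  have h2 : (G.deleteEdges {s(v, w)}).Reachable w x := hx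
  refine h2.trans (SimpleGraph.Adj.reachable ?_)
  rw [SimpleGraph.deleteEdges_adj]
  exact ⟨hxy, by simpa using hne⟩

theorem induct {v w : V} {P : V → Prop} (h0 : P w)
    (hs : ∀ x y, x ∈ side G v w → P x → G.Adj x y → s(x, y) ≠ s(v, w) → P y) :
    ∀ u ∈ side G v w, P u := by
  intro u hu
  have h2 : (G.deleteEdges {s(v, w)}).Reachable w u := hu
  rw [SimpleGraph.reachable_iff_reflTransGen] at h2
  induction h2 with
  | refl => exact h0
  | tail hab hbc ih =>
    rename_i b c
    have hb : b ∈ side G v w := by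
      change (G.deleteEdges {s(v, w)}).Reachable w b
      rw [SimpleGraph.reachable_iff_reflTransGen]
      exact hab
    rw [SimpleGraph.deleteEdges_adj] at hbc
    exact hs b c hb (ih hb) hbc.1 (by simpa using hbc.2)

theorem side_subset (hG : G.IsAcyclic) {v w z : V} (hwz : G.Adj w z) (hz : z ≠ v) :
    side G w z ⊆ side G v w := by
  refine induct ?_ ?_
  · exact step (self_mem v w) hwz (by
      intro h
      rw [Sym2.eq_iff] at h
      rcases h with ⟨h1, h2⟩ | ⟨h1, h2⟩
      · exact hwz.ne h2.symm
      · exact hz h2)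
  · intro x y hx hxP hxy hne
    refine step hxP hxy ?_
    intro h
    have hw := not_mem hG hwz
    rw [Sym2.eq_iff] at h
    rcases h with ⟨h1, h2⟩ | ⟨h1, h2⟩
    · have hy : y ∈ side G w z := step hx hxy hne
      rw [h2] at hy
      exact hw hy
    · rw [h1] at hx
      exact hw hx

theorem side_cover (hG : G.IsAcyclic) {v w : V} :
    ∀ u ∈ side G v w, u = w ∨ ∃ z, G.Adj w z ∧ z ≠ v ∧ u ∈ side G w z := by
  refine induct (Or.inl rfl) ?_
  intro x y hx hP hxy hne
  rcases hP with rfl | ⟨z, hwz, hz, hxz⟩
  · refine Or.inr ⟨y, hxy, ?_, self_mem x y⟩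
    rintro rfl
    exact hne Sym2.eq_swap
  · by_cases hyw : y = w
    · exact Or.inl hyw
    · refine Or.inr ⟨z, hwz, hz, step hxz hxy ?_⟩
      intro h
      rw [Sym2.eq_iff] at h
      rcases h with ⟨h1, _⟩ | ⟨_, h2⟩
      · rw [h1] at hxz
        exact not_mem hG hwz hxz
      · exact hyw h2

end SP

variable {n : ℕ}

/-- The leaves on the side of `w`. -/
noncomputable def lv (T : PhyloTree n) (v w : T.V) : Finset (Fin n) := by
  classical exact univ.filter (fun a => T.leaf a ∈ SP.side T.G v w)

theorem mem_lv {T : PhyloTree n} {v w : T.V} {a : Fin n} :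
    a ∈ lv T v w ↔ T.leaf a ∈ SP.side T.G v w := by
  classical
  unfold lv
  simp

theorem split_lv (T : PhyloTree n) {v w : T.V} : Split T (lv T v w) := by
  intro A B hA hB
  rw [Set.disjoint_left]
  rintro u ⟨a, ha, a', ha', p, hp, hu⟩ ⟨b, hb, b', hb', q, hq, hu'⟩
  have hone : ∀ x y : T.V, T.G.Adj x y → x ∈ SP.side T.G v w → y ∉ SP.side T.G v w →
      s(x, y) = s(v, w) := by
    intro x y hxy hx hy
    by_contra hne
    exact hy (SP.step hx hxy hne)
  have h1 : u ∈ SP.side T.G v w := by
    refine TB.no_return (SP.side T.G v w) ?_ p hp hu (mem_lv.1 (hA ha)) (mem_lv.1 (hA ha'))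
    intro x y x' y' h1 h2 h3 h4 h5 h6
    rw [hone x y h1 h2 h3, hone x' y' h4 h5 h6]
  have hBn : ∀ b ∈ B, T.leaf b ∈ (SP.side T.G v w)ᶜ := by
    intro b hb hmem
    exact Finset.disjoint_left.1 hB hb (mem_lv.2 hmem)
  have h2 : u ∈ (SP.side T.G v w)ᶜ := by
    refine TB.no_return (SP.side T.G v w)ᶜ ?_ q hq hu' (hBn b hb) (hBn b' hb')
    intro x y x' y' h1 h2 h3 h4 h5 h6
    have h3' : y ∈ SP.side T.G v w := by simpa using h3
    have h6' : y' ∈ SP.side T.G v w := by simpa using h6
    have e1 := hone y x h1.symm h3' h2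
    have e2 := hone y' x' h4.symm h6' h5
    rw [Sym2.eq_swap, e1, ← e2, Sym2.eq_swap]
  exact h2 h1

theorem descend (T : PhyloTree n) (R : Finset (Fin n)) (m : ℕ) (hm : 1 ≤ m) :
    ∀ (N : ℕ) (v w : T.V), T.G.Adj v w → (SP.side T.G v w).ncard ≤ N →
      m ≤ (lv T v w ∩ R).card →
      ∃ S : Finset (Fin n), Split T S ∧ m ≤ (S ∩ R).card ∧ (S ∩ R).card < 2 * m := by
  classical
  have := T.finite
  have hac : T.G.IsAcyclic := T.isTree.isAcyclic
  intro N
  induction N with
  | zero =>
    intro v w hvw hN _
    have h1 : (SP.side T.G v w).Nonempty := ⟨w, SP.self_mem v w⟩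
    have h2 := (Set.ncard_pos (Set.toFinite _)).2 h1
    omega
  | succ N ih =>
    intro v w hvw hN hc
    rcases Nat.lt_or_ge (lv T v w ∩ R).card (2 * m) with hlt | hge
    · exact ⟨lv T v w, split_lv T, hc, hlt⟩
    · have hlt : ∀ z, T.G.Adj w z → z ≠ v → (SP.side T.G w z).ncard ≤ N := by
        intro z hwz hz
        have hss : SP.side T.G w z ⊂ SP.side T.G v w := by
          refine ⟨SP.side_subset hac hwz hz, fun h => ?_⟩
          exact SP.not_mem hac hwz (h (SP.self_mem v w))
        have := Set.ncard_lt_ncard hss (Set.toFinite _)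
        omega
      rcases T.deg w with hd | hd
      · exfalso
        obtain ⟨x, hx⟩ := Set.ncard_eq_one.1 hd
        have hvx : v ∈ T.G.neighborSet w := hvw.symm
        rw [hx] at hvx
        have hvx' : v = x := hvx
        have hsub : (lv T v w ∩ R).card ≤ 1 := by
          rw [Finset.card_le_one]
          have key : ∀ a ∈ lv T v w ∩ R, T.leaf a = w := by
            intro a ha
            rw [Finset.mem_inter, mem_lv] at ha
            rcases SP.side_cover hac _ ha.1 with h | ⟨z, hwz, hz, _⟩
            · exact h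
            · exfalso
              have hzx : z ∈ T.G.neighborSet w := hwz
              rw [hx] at hzx
              exact hz ((hzx : z = x).trans hvx'.symm)
          intro a ha b hb
          exact T.leaf_injective ((key a ha).trans (key b hb).symm)
        omega
      · obtain ⟨x, y, z, hxy, hxz, hyz, hxyz⟩ := Set.ncard_eq_three.1 hd
        have hwl : w ∉ Set.range T.leaf := by
          rw [T.leaf_range]
          omega
        obtain ⟨z1, z2, h1, h1', h2, h2', hall⟩ : ∃ z1 z2, T.G.Adj w z1 ∧ z1 ≠ v ∧ T.G.Adj w z2 ∧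
            z2 ≠ v ∧ ∀ z, T.G.Adj w z → z ≠ v → z = z1 ∨ z = z2 := by
          have hmem : ∀ u, T.G.Adj w u ↔ u = x ∨ u = y ∨ u = z := by
            intro u
            have : T.G.Adj w u ↔ u ∈ T.G.neighborSet w := Iff.rfl
            rw [this, hxyz]
            simp
          have hv := (hmem v).1 hvw.symm
          rcases hv with rfl | rfl | rfl
          · refine ⟨y, z, (hmem y).2 (by simp), hxy.symm, (hmem z).2 (by simp), hxz.symm, ?_⟩
            intro u hu hne
            rcases (hmem u).1 hu with h | h | h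
            · exact absurd h hne
            · exact Or.inl h
            · exact Or.inr h
          · refine ⟨x, z, (hmem x).2 (by simp), hxy, (hmem z).2 (by simp), hyz.symm, ?_⟩
            intro u hu hne
            rcases (hmem u).1 hu with h | h | h
            · exact Or.inl h
            · exact absurd h hne
            · exact Or.inr h
          · refine ⟨x, y, (hmem x).2 (by simp), hxz, (hmem y).2 (by simp), hyz, ?_⟩
            intro u hu hne
            rcases (hmem u).1 hu with h | h | h
            · exact Or.inl h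
            · exact Or.inr h
            · exact absurd h hne
        have hcov : lv T v w ∩ R ⊆ (lv T w z1 ∩ R) ∪ (lv T w z2 ∩ R) := by
          intro a ha
          rw [Finset.mem_inter, mem_lv] at ha
          rw [Finset.mem_union, Finset.mem_inter, Finset.mem_inter, mem_lv, mem_lv]
          rcases SP.side_cover hac _ ha.1 with h | ⟨u, hwu, hu, hmu⟩
          · exact absurd ⟨a, h⟩ hwl
          · rcases hall u hwu hu with rfl | rfl
            · exact Or.inl ⟨hmu, ha.2⟩
            · exact Or.inr ⟨hmu, ha.2⟩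
        have hcard := (Finset.card_le_card hcov).trans (Finset.card_union_le _ _)
        rcases Nat.lt_or_ge (lv T w z1 ∩ R).card m with h3 | h3
        · exact ih w z2 h2 (hlt z2 h2 h2') (by omega)
        · exact ih w z1 h1 (hlt z1 h1 h1') h3

theorem exists_split (hn : 3 ≤ n) (T : PhyloTree n) (R : Finset (Fin n)) (m : ℕ) (hm : 1 ≤ m)
    (h : m < R.card) : ∃ S : Finset (Fin n), Split T S ∧ m ≤ (S ∩ R).card ∧
      (S ∩ R).card < 2 * m := by
  classical
  have hac : T.G.IsAcyclic := T.isTree.isAcyclic
  obtain ⟨ρ, hρ⟩ : R.Nonempty := by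
    rw [← Finset.card_pos]
    omega
  obtain ⟨w, hw⟩ := TB.leaf_nb T ρ
  have hadj : T.G.Adj (T.leaf ρ) w := by
    have : w ∈ T.G.neighborSet (T.leaf ρ) := by rw [hw]; exact rfl
    exact this
  refine descend T R m hm _ (T.leaf ρ) w hadj le_rfl ?_
  have hsub : R.erase ρ ⊆ lv T (T.leaf ρ) w ∩ R := by
    intro a ha
    rw [Finset.mem_erase] at ha
    rw [Finset.mem_inter, mem_lv]
    refine ⟨?_, ha.2⟩
    obtain ⟨p0⟩ := T.isTree.connected.preconnected w (T.leaf a)
    obtain ⟨p, hp⟩ := p0.toPath
    by_contra hcon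
    obtain ⟨d, hd, h1, h2⟩ := p.exists_boundary_dart (SP.side T.G (T.leaf ρ) w)
      (SP.self_mem _ _) hcon
    have h3 : s(d.fst, d.snd) = s(T.leaf ρ, w) := by
      by_contra hne
      exact h2 (SP.step h1 d.adj hne)
    have hz : T.leaf ρ ∈ p.support := by
      rw [Sym2.eq_iff] at h3
      rcases h3 with ⟨h4, _⟩ | ⟨_, h4⟩
      · rw [← h4]
        exact p.dart_fst_mem_support_of_mem_darts hd
      · rw [← h4]
        exact p.dart_snd_mem_support_of_mem_darts hd
    have h5 : T.leaf ρ ∈ ({T.leaf ρ}ᶜ : Set T.V) := by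
      refine TB.no_return ({T.leaf ρ}ᶜ : Set T.V) ?_ p hp hz ?_ ?_
      · intro x y x' y' e1 _ e3 e4 _ e6
        have e3' : y = T.leaf ρ := by simpa using e3
        have e6' : y' = T.leaf ρ := by simpa using e6
        subst e3'
        rw [e6'] at e4 ⊢
        rw [TB.leaf_nb_unique T e1.symm e4.symm]
      · intro h6
        have h6' : w = T.leaf ρ := h6
        exact hadj.ne h6'.symm
      · intro h6
        have h6' : T.leaf a = T.leaf ρ := h6
        exact ha.1 (T.leaf_injective h6')
    exact h5 rfl
  have h2 := Finset.card_le_card hsub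
  rw [Finset.card_erase_of_mem hρ] at h2
  omega

end Pool.Agent.CatW
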